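import Mathlib

/-!
Basic theory of two-sorted transitive permutation groups over a finite abelian group:
groups `L` of pairs of permutations of `G`, closed under swapping and containing the
diagonal translations.
-/

open scoped Classical

set_option linter.unusedSectionVars false

namespace TII

variable {G : Type*} [AddCommGroup G]

/-- A swap-closed group of pairs of permutations of `G` containing the diagonal translations. -/
structure Sys (G : Type*) [AddCommGroup G] where
  L : Subgroup (Equiv.Perm G × Equiv.Perm G)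
  swap : ∀ {p : Equiv.Perm G × Equiv.Perm G}, p ∈ L → p.swap ∈ L
  trans : ∀ g : G, ((Equiv.addRight g : Equiv.Perm G), (Equiv.addRight g : Equiv.Perm G)) ∈ L

/-- The permutation of a pair acting on the vertices of type `i`. -/
def sel (i : Bool) (p : Equiv.Perm G × Equiv.Perm G) : Equiv.Perm G := cond i p.2 p.1

@[simp] lemma sel_false (p : Equiv.Perm G × Equiv.Perm G) : sel false p = p.1 := rfl
@[simp] lemma sel_true (p : Equiv.Perm G × Equiv.Perm G) : sel true p = p.2 := rfl

lemma sel_mul (i : Bool) (p q : Equiv.Perm G × Equiv.Perm G) (x : G) :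
    sel i (p * q) x = sel i p (sel i q x) := by
  cases i <;> rfl

lemma sel_swap (i : Bool) (p : Equiv.Perm G × Equiv.Perm G) : sel i p.swap = sel (!i) p := by
  cases i <;> rfl

lemma sel_inv_apply_self (i : Bool) (p : Equiv.Perm G × Equiv.Perm G) (x : G) :
    sel i p⁻¹ (sel i p x) = x := by
  cases i <;> simp [sel]

lemma sel_apply_inv_self (i : Bool) (p : Equiv.Perm G × Equiv.Perm G) (x : G) :
    sel i p (sel i p⁻¹ x) = x := by
  cases i <;> simp [sel]

/-- `X` is invariant under the stabiliser of the vertex `(0, false)`, acting on vertices of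
type `i`. -/
def IsSet (S : Sys G) (i : Bool) (X : Set G) : Prop :=
  ∀ p ∈ S.L, p.1 0 = 0 → ∀ x ∈ X, sel i p x ∈ X

lemma isSet_iff {S : Sys G} {i : Bool} {X : Set G} (h : IsSet S i X)
    {p : Equiv.Perm G × Equiv.Perm G} (hp : p ∈ S.L) (h0 : p.1 0 = 0) (x : G) :
    sel i p x ∈ X ↔ x ∈ X := by
  constructor
  · intro hx
    have h1 := h p⁻¹ (S.L.inv_mem hp) (by
      have := sel_inv_apply_self false p 0
      simp only [sel_false] at this
      rw [h0] at this; exact this) _ hx
    rwa [sel_inv_apply_self] at h1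
  · exact h p hp h0 x

lemma rel_fwd {S : Sys G} {u v : Bool} {X : Set G} (h : IsSet S (xor u v) X)
    {p : Equiv.Perm G × Equiv.Perm G} (hp : p ∈ S.L) {x y : G} (hxy : y - x ∈ X) :
    sel v p y - sel u p x ∈ X := by
  have key : ∀ (v : Bool) (p : Equiv.Perm G × Equiv.Perm G), p ∈ S.L → IsSet S v X →
      sel v p y - p.1 x ∈ X := by
    intro v p hp hv
    have hq : ((Equiv.addRight (-(p.1 x)) : Equiv.Perm G),
        (Equiv.addRight (-(p.1 x)) : Equiv.Perm G)) * p *
        ((Equiv.addRight x : Equiv.Perm G), (Equiv.addRight x : Equiv.Perm G)) ∈ S.L :=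
      S.L.mul_mem (S.L.mul_mem (S.trans _) hp) (S.trans _)
    have h1 := hv _ hq (by simp) (y - x) hxy
    have h2 : sel v (((Equiv.addRight (-(p.1 x)) : Equiv.Perm G),
        (Equiv.addRight (-(p.1 x)) : Equiv.Perm G)) * p *
        ((Equiv.addRight x : Equiv.Perm G), (Equiv.addRight x : Equiv.Perm G))) (y - x)
        = sel v p y - p.1 x := by
      rw [sel_mul, sel_mul]
      cases v <;> simp [sel, sub_eq_add_neg]
    rwa [h2] at h1
  cases u
  · exact key v p hp (by simpa using h)
  · have := key (!v) p.swap (S.swap hp) (by simpa using h)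
    rw [sel_swap] at this
    simpa using this

lemma rel {S : Sys G} {u v : Bool} {X : Set G} (h : IsSet S (xor u v) X)
    {p : Equiv.Perm G × Equiv.Perm G} (hp : p ∈ S.L) (x y : G) :
    sel v p y - sel u p x ∈ X ↔ y - x ∈ X := by
  constructor
  · intro hx
    have h1 := rel_fwd h (S.L.inv_mem hp) hx
    rwa [sel_inv_apply_self, sel_inv_apply_self] at h1
  · exact rel_fwd h hp

/-! ### Operations on invariant sets -/

lemma isSet_compl {S : Sys G} {i : Bool} {X : Set G} (h : IsSet S i X) : IsSet S i Xᶜ := by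
  intro p hp h0 x hx hx'
  exact hx ((isSet_iff h hp h0 x).1 hx')

lemma isSet_inter {S : Sys G} {i : Bool} {X Y : Set G} (h : IsSet S i X) (h' : IsSet S i Y) :
    IsSet S i (X ∩ Y) := fun p hp h0 x hx => ⟨h p hp h0 x hx.1, h' p hp h0 x hx.2⟩

lemma isSet_union {S : Sys G} {i : Bool} {X Y : Set G} (h : IsSet S i X) (h' : IsSet S i Y) :
    IsSet S i (X ∪ Y) := fun p hp h0 x hx =>
  hx.elim (fun hx => Or.inl (h p hp h0 x hx)) (fun hx => Or.inr (h' p hp h0 x hx))

lemma isSet_diff {S : Sys G} {i : Bool} {X Y : Set G} (h : IsSet S i X) (h' : IsSet S i Y) :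
    IsSet S i (X \ Y) := isSet_inter h (isSet_compl h')

/-- The saturation `X + K`. -/
def sat (X : Set G) (K : AddSubgroup G) : Set G := {x | ∃ y ∈ X, x - y ∈ K}

lemma isSet_sat {S : Sys G} {i : Bool} {X : Set G} {K : AddSubgroup G} (h : IsSet S i X)
    (hK : IsSet S false (K : Set G)) : IsSet S i (sat X K) := by
  rintro p hp h0 x ⟨y, hy, hxy⟩
  refine ⟨sel i p y, h p hp h0 y hy, ?_⟩
  have : IsSet S (xor i i) (K : Set G) := by simpa using hK
  exact rel_fwd this hp hxy

lemma subset_sat (X : Set G) (K : AddSubgroup G) : X ⊆ sat X K :=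
  fun x hx => ⟨x, hx, by simp⟩

/-- `X` is a union of cosets of `K`. -/
def Inv (K : AddSubgroup G) (X : Set G) : Prop := ∀ k ∈ K, ∀ x ∈ X, x + k ∈ X

lemma inv_sat (X : Set G) (K : AddSubgroup G) : Inv K (sat X K) := by
  rintro k hk x ⟨y, hy, hxy⟩
  refine ⟨y, hy, ?_⟩
  have : x + k - y = (x - y) + k := by abel
  rw [this]; exact K.add_mem hxy hk

lemma Inv.iff {K : AddSubgroup G} {X : Set G} (h : Inv K X) {x k : G} (hk : k ∈ K) :
    x + k ∈ X ↔ x ∈ X := by
  constructor
  · intro hx
    have := h (-k) (K.neg_mem hk) _ hx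
    simpa using this
  · exact h k hk x

lemma Inv.mem_of {K : AddSubgroup G} {X : Set G} (h : Inv K X) {x y : G} (hxy : y - x ∈ K)
    (hx : x ∈ X) : y ∈ X := by
  have := h _ hxy x hx
  simpa using this

lemma Inv.mono {K K' : AddSubgroup G} {X : Set G} (h : Inv K X) (hK : K' ≤ K) : Inv K' X :=
  fun k hk x hx => h k (hK hk) x hx

lemma inv_self (K : AddSubgroup G) : Inv K (K : Set G) := fun _ hk _ hx => K.add_mem hx hk

lemma inv_of_le {K K' : AddSubgroup G} (hK : K ≤ K') : Inv K (K' : Set G) :=
  fun _ hk _ hx => K'.add_mem hx (hK hk)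

lemma inv_compl {K : AddSubgroup G} {X : Set G} (h : Inv K X) : Inv K Xᶜ := by
  intro k hk x hx hx'
  exact hx ((h.iff hk).1 hx')

lemma inv_inter {K : AddSubgroup G} {X Y : Set G} (h : Inv K X) (h' : Inv K Y) :
    Inv K (X ∩ Y) := fun k hk x hx => ⟨h k hk x hx.1, h' k hk x hx.2⟩

lemma inv_union {K : AddSubgroup G} {X Y : Set G} (h : Inv K X) (h' : Inv K Y) :
    Inv K (X ∪ Y) := fun k hk x hx =>
  hx.elim (fun hx => Or.inl (h k hk x hx)) (fun hx => Or.inr (h' k hk x hx))

lemma inv_diff {K : AddSubgroup G} {X Y : Set G} (h : Inv K X) (h' : Inv K Y) :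
    Inv K (X \ Y) := inv_inter h (inv_compl h')

/-- Closure of a `0`-set is an invariant subgroup. -/
lemma isSet_closure {S : Sys G} {X : Set G} (h : IsSet S false X) :
    IsSet S false (AddSubgroup.closure X : Set G) := by
  intro p hp h0 g hg
  have key : ∀ g ∈ AddSubgroup.closure X, ∀ x : G,
      p.1 (x + g) - p.1 x ∈ AddSubgroup.closure X := by
    intro g hg
    induction hg using AddSubgroup.closure_induction with
    | mem y hy =>
      intro x
      apply AddSubgroup.subset_closure
      have h' : IsSet S (xor false false) X := h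
      have := rel_fwd (x := x) (y := x + y) h' hp (by simpa using hy)
      simpa using this
    | zero => intro x; simp
    | add y z _ _ hy hz =>
      intro x
      have h1 := hy x
      have h2 := hz (x + y)
      have h3 := AddSubgroup.add_mem _ h2 h1
      have h4 : p.1 (x + y + z) - p.1 (x + y) + (p.1 (x + y) - p.1 x)
          = p.1 (x + (y + z)) - p.1 x := by rw [add_assoc]; abel
      rwa [h4] at h3
    | neg y _ hy =>
      intro x
      have h1 := hy (x + -y)
      have h2 := AddSubgroup.neg_mem _ h1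
      simpa using h2
  have := key g hg 0
  simpa [h0] using this

/-- The orbit of `g` (type `i`) under the stabiliser of `(0,false)`. -/
def orb (S : Sys G) (i : Bool) (g : G) : Set G := {x | ∃ p ∈ S.L, p.1 0 = 0 ∧ sel i p g = x}

lemma mem_orb_self (S : Sys G) (i : Bool) (g : G) : g ∈ orb S i g :=
  ⟨1, S.L.one_mem, by simp, by cases i <;> simp [sel]⟩

lemma isSet_orb (S : Sys G) (i : Bool) (g : G) : IsSet S i (orb S i g) := by
  rintro p hp h0 x ⟨q, hq, hq0, rfl⟩
  exact ⟨p * q, S.L.mul_mem hp hq, by simp [hq0, h0], by rw [sel_mul]⟩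

lemma orb_subset {S : Sys G} {i : Bool} {X : Set G} (h : IsSet S i X) {g : G} (hg : g ∈ X) :
    orb S i g ⊆ X := by
  rintro x ⟨q, hq, hq0, rfl⟩
  exact h q hq hq0 g hg

lemma mem_of_orb_mem {S : Sys G} {i : Bool} {X : Set G} (h : IsSet S i X) {g x : G}
    (hx : x ∈ orb S i g) (hxX : x ∈ X) : g ∈ X := by
  rcases hx with ⟨q, hq, hq0, rfl⟩
  exact (isSet_iff h hq hq0 g).1 hxX

/-! ### Counting -/

section count

variable [Fintype G]

omit [AddCommGroup G] in
lemma card_filter_equiv (σ : Equiv.Perm G) {P Q : G → Prop} [DecidablePred P] [DecidablePred Q]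
    (h : ∀ x, P (σ x) ↔ Q x) :
    (Finset.univ.filter P).card = (Finset.univ.filter Q).card := by
  symm
  apply Finset.card_bij (fun x _ => σ x)
  · intro x hx
    simp only [Finset.mem_filter, Finset.mem_univ, true_and] at hx ⊢
    exact (h x).2 hx
  · intro x _ y _ hxy
    exact σ.injective hxy
  · intro y hy
    simp only [Finset.mem_filter, Finset.mem_univ, true_and] at hy
    refine ⟨σ.symm y, ?_, by simp⟩
    simp only [Finset.mem_filter, Finset.mem_univ, true_and]
    rw [← h]; simpa using hy

/-- `#{x ∈ X : x + g ∈ X}` -/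
noncomputable def cnt (X : Set G) (g : G) : ℕ := (Finset.univ.filter (fun x => x ∈ X ∧ x + g ∈ X)).card

/-- `#{x ∈ X : g - x ∈ X}` -/
noncomputable def cntp (X : Set G) (g : G) : ℕ := (Finset.univ.filter (fun x => x ∈ X ∧ g - x ∈ X)).card

/-- number of elements of `X` -/
noncomputable def crd (X : Set G) : ℕ := (Finset.univ.filter (fun x => x ∈ X)).card

lemma cnt_inv {S : Sys G} {i : Bool} {X : Set G} (h : IsSet S i X)
    {p : Equiv.Perm G × Equiv.Perm G} (hp : p ∈ S.L) (h0 : p.1 0 = 0) (g : G) :
    cnt X (p.1 g) = cnt X g := by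
  have h1 : ∀ g : G, cnt X g = (Finset.univ.filter (fun v => v ∈ X ∧ v - g ∈ X)).card := by
    intro g
    unfold cnt
    symm
    apply card_filter_equiv (Equiv.addRight g)
    intro x
    simp [and_comm]
  rw [h1, h1]
  apply card_filter_equiv (sel i p)
  intro v
  have h2 : IsSet S (xor false i) X := by simpa using h
  have h3 := rel h2 hp 0 v
  have h4 := rel h2 hp g v
  simp only [sel_false, h0, sub_zero] at h3 h4
  rw [h3, h4]

lemma cntp_inv {S : Sys G} {i : Bool} {X : Set G} (h : IsSet S i X)
    {p : Equiv.Perm G × Equiv.Perm G} (hp : p ∈ S.L) (h0 : p.1 0 = 0) (g : G) :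
    cntp X (p.1 g) = cntp X g := by
  unfold cntp
  apply card_filter_equiv (sel i p)
  intro v
  have h2 : IsSet S (xor false i) X := by simpa using h
  have h2' : IsSet S (xor i false) X := by simpa using h
  have h3 := rel h2 hp 0 v
  have h4 := rel h2' hp v g
  simp only [sel_false, h0, sub_zero] at h3 h4
  rw [h3, h4]

/-- coset-intersection counts are constant along orbits -/
lemma crd_coset_inv {S : Sys G} {i : Bool} {X Y : Set G} (h : IsSet S i X)
    (hY : IsSet S false Y)
    {p : Equiv.Perm G × Equiv.Perm G} (hp : p ∈ S.L) (h0 : p.1 0 = 0) (x : G) :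
    (Finset.univ.filter (fun y => y ∈ X ∧ y - sel i p x ∈ Y)).card
      = (Finset.univ.filter (fun y => y ∈ X ∧ y - x ∈ Y)).card := by
  apply card_filter_equiv (sel i p)
  intro v
  have h2 : IsSet S (xor false i) X := by simpa using h
  have h2' : IsSet S (xor i i) Y := by simpa using hY
  have h3 := rel h2 hp 0 v
  have h4 := rel h2' hp x v
  simp only [sel_false, h0, sub_zero] at h3
  rw [h3, h4]

/-- The radical of a set. -/
def rad (X : Set G) : AddSubgroup G where
  carrier := {g | ∀ x, x + g ∈ X ↔ x ∈ X}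
  zero_mem' := by intro x; simp
  add_mem' := by
    intro a b ha hb x
    rw [← add_assoc, hb, ha]
  neg_mem' := by
    intro a ha x
    have := ha (x + -a)
    simp only [neg_add_cancel_right] at this
    exact this.symm

lemma mem_rad {X : Set G} {g : G} : g ∈ rad X ↔ ∀ x, x + g ∈ X ↔ x ∈ X := Iff.rfl

lemma inv_of_le_rad {X : Set G} {K : AddSubgroup G} (h : K ≤ rad X) : Inv K X :=
  fun k hk x hx => (h hk x).2 hx

lemma Inv.le_rad {X : Set G} {K : AddSubgroup G} (h : Inv K X) : K ≤ rad X :=
  fun _ hk _ => h.iff hk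

lemma mem_rad_iff_cnt {X : Set G} {g : G} : g ∈ rad X ↔ cnt X g = crd X := by
  constructor
  · intro h
    unfold cnt crd
    congr 1
    ext x
    simp only [Finset.mem_filter, Finset.mem_univ, true_and, and_iff_left_iff_imp]
    exact (h x).2
  · intro h
    have hsub : Finset.univ.filter (fun x => x ∈ X ∧ x + g ∈ X)
        ⊆ Finset.univ.filter (fun x => x ∈ X) := by
      intro x; simp only [Finset.mem_filter, Finset.mem_univ, true_and]; tauto
    have heq := Finset.eq_of_subset_of_card_le hsub (le_of_eq h.symm)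
    have hfwd : ∀ x ∈ X, x + g ∈ X := by
      intro x hx
      have : x ∈ Finset.univ.filter (fun x => x ∈ X) := by simpa using hx
      rw [← heq] at this
      simp only [Finset.mem_filter, Finset.mem_univ, true_and] at this
      exact this.2
    -- surjectivity
    have himg : (Finset.univ.filter (fun x => x ∈ X)).image (fun x => x + g)
        = Finset.univ.filter (fun x => x ∈ X) := by
      apply Finset.eq_of_subset_of_card_le
      · intro y hy
        simp only [Finset.mem_image, Finset.mem_filter, Finset.mem_univ, true_and] at hy ⊢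
        rcases hy with ⟨x, hx, rfl⟩
        exact hfwd x hx
      · rw [Finset.card_image_of_injective _ (add_left_injective g)]
    intro x
    refine ⟨?_, hfwd x⟩
    intro hx
    have : x + g ∈ (Finset.univ.filter (fun x => x ∈ X)).image (fun x => x + g) := by
      rw [himg]; simpa using hx
    simp only [Finset.mem_image, Finset.mem_filter, Finset.mem_univ, true_and] at this
    rcases this with ⟨y, hy, hyx⟩
    have : y = x := by simpa using hyx
    exact this ▸ hy

lemma isSet_rad {S : Sys G} {i : Bool} {X : Set G} (h : IsSet S i X) :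
    IsSet S false (rad X : Set G) := by
  intro p hp h0 g hg
  have hg' : g ∈ rad X := hg
  show p.1 g ∈ rad X
  rw [mem_rad_iff_cnt] at hg' ⊢
  rw [cnt_inv h hp h0, hg']

lemma mem_rad_of_fwd {X : Set G} {g : G} (h : ∀ x ∈ X, x + g ∈ X) : g ∈ rad X := by
  rw [mem_rad_iff_cnt]
  unfold cnt crd
  congr 1
  ext x
  simp only [Finset.mem_filter, Finset.mem_univ, true_and, and_iff_left_iff_imp]
  exact h x

/-- a `i`-set defined by the value of the counting function -/
lemma isSet_cntp {S : Sys G} {i : Bool} {X : Set G} (h : IsSet S i X) (T : ℕ → Prop) :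
    IsSet S false {g | T (cntp X g)} := by
  intro p hp h0 g hg
  simp only [Set.mem_setOf_eq, sel_false] at hg ⊢
  rwa [cntp_inv h hp h0]

end count

end TII
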