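import Mathlib
import Pool.Agent.Lib.MP_2c9d40_co.Basic

open scoped Classical

set_option linter.unusedSectionVars false

namespace TII

variable {G : Type*} [AddCommGroup G] [Fintype G]

/-- The hypotheses for the structure analysis modulo `B`. -/
structure Hyp (S : Sys G) (B : AddSubgroup G) (f : G) : Prop where
  hB : IsSet S false (B : Set G)
  hf : f ∉ B
  h2f : f + f ∈ B
  P : ∀ (i : Bool) (X : Set G), IsSet S i X → Inv B X → ∀ x ∈ X, x + f ∈ X ∨ x ∈ B ∨ x + f ∈ B

/-- The minimal invariant subgroup properly above `B`. -/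
def B1 (S : Sys G) (B : AddSubgroup G) (f : G) : AddSubgroup G :=
  AddSubgroup.closure (orb S false f ∪ B)

section

variable {S : Sys G} {B : AddSubgroup G} {f : G}

lemma isSet_B1 (H : Hyp S B f) : IsSet S false (B1 S B f : Set G) :=
  isSet_closure (isSet_union (isSet_orb S false f) H.hB)

lemma B_le_B1 : B ≤ B1 S B f := fun _ hx => AddSubgroup.subset_closure (Or.inr hx)

lemma orb_subset_B1 : orb S false f ⊆ (B1 S B f : Set G) :=
  fun _ hx => AddSubgroup.subset_closure (Or.inl hx)

lemma f_mem_B1 : f ∈ B1 S B f := orb_subset_B1 (mem_orb_self S false f)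

lemma B1_le_rad {i : Bool} {X : Set G} (hX : IsSet S i X) (hXB : Inv B X) (hfr : f ∈ rad X) :
    B1 S B f ≤ rad X := by
  unfold B1
  rw [AddSubgroup.closure_le]
  rintro x (hx | hx)
  · exact orb_subset (isSet_rad hX) hfr hx
  · exact hXB.le_rad hx

lemma B1_trans (H : Hyp S B f) {x : G} (hx : x ∈ B1 S B f) (hxB : x ∉ B) :
    x ∈ sat (orb S false f) B := by
  by_contra hcon
  set X : Set G := ((B1 S B f : Set G) \ B) \ sat (orb S false f) B with hXdef
  have hXs : IsSet S false X :=
    isSet_diff (isSet_diff (isSet_B1 H) H.hB) (isSet_sat (isSet_orb S false f) H.hB)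
  have hXi : Inv B X := inv_diff (inv_diff (inv_of_le B_le_B1) (inv_self B)) (inv_sat _ _)
  have hfr : f ∈ rad X := by
    apply mem_rad_of_fwd
    intro y hy
    rcases H.P false X hXs hXi y hy with h | h | h
    · exact h
    · exact absurd h hy.1.2
    · exfalso
      apply hy.2
      refine ⟨f, mem_orb_self S false f, ?_⟩
      have : y - f = (y + f) - (f + f) := by abel
      rw [this]; exact B.sub_mem h H.h2f
  have hle := B1_le_rad hXs hXi hfr
  have hxX : x ∈ X := ⟨⟨hx, hxB⟩, hcon⟩
  have h0 : x + -x ∈ X := (hle (AddSubgroup.neg_mem _ hx) x).2 hxX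
  rw [add_neg_cancel] at h0
  exact h0.1.2 B.zero_mem

/-- Case (i). -/
lemma case_i (H : Hyp S B f) (hf : f ∈ sat (orb S true 0) B) {X : Set G} (hX : IsSet S true X)
    (hXB : Inv B X) : B1 S B f ≤ rad X := by
  apply B1_le_rad hX hXB
  apply mem_rad_of_fwd
  intro x hx
  rcases hf with ⟨y, hy, hfy⟩
  have key : (0 : G) ∈ X → f ∈ X := by
    intro h0
    have hyX : y ∈ X := orb_subset hX h0 hy
    exact hXB.mem_of hfy hyX
  have key2 : f ∈ X → (0 : G) ∈ X := by
    intro hfX
    have hyX : y ∈ X := hXB.mem_of (by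
      have : y - f = -(f - y) := by abel
      rw [this]; exact B.neg_mem hfy) hfX
    exact mem_of_orb_mem hX hy hyX
  rcases H.P true X hX hXB x hx with h | h | h
  · exact h
  · have h0 : (0 : G) ∈ X := hXB.mem_of (x := x) (by simpa using h) hx
    exact hXB.mem_of (x := f) (by simpa using h) (key h0)
  · have hfX : f ∈ X := hXB.mem_of (x := x) (by
      have : f - x = (f + f) - (x + f) := by abel
      rw [this]; exact B.sub_mem H.h2f h) hx
    exact hXB.mem_of (x := 0) (by simpa using h) (key2 hfX)

lemma crd_sat_eq {x : G} {X : Set G} {K : AddSubgroup G} :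
    (Finset.univ.filter (fun g => g ∈ K ∧ x + g ∈ X)).card
      = (Finset.univ.filter (fun y => y ∈ X ∧ y - x ∈ K)).card := by
  symm
  apply card_filter_equiv (Equiv.addRight x)
  intro y
  simp [and_comm, add_comm]

lemma cnt_add_of_inv {X : Set G} {K : AddSubgroup G} (hX : Inv K X) {g k : G} (hk : k ∈ K) :
    cnt X (g + k) = cnt X g := by
  unfold cnt
  congr 1
  ext x
  simp only [Finset.mem_filter, Finset.mem_univ, true_and]
  rw [← add_assoc, hX.iff hk]

/-- Cases (ii) and (iii). -/
lemma case_ii_iii (H : Hyp S B f) (hf : f ∉ sat (orb S true 0) B) :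
    (orb S true 0 ⊆ (B : Set G)) ∨
    (∀ x, x ∈ sat (orb S true 0) B ↔ (x ∈ B1 S B f ∧ x + f ∉ B)) := by
  set W : Set G := orb S true 0 with hW
  set Wh : Set G := sat W B with hWh
  have hWs : IsSet S true Wh := isSet_sat (isSet_orb S true 0) H.hB
  have hWi : Inv B Wh := inv_sat _ _
  have h0W : (0 : G) ∈ W := mem_orb_self S true 0
  have hBW : (B : Set G) ⊆ Wh := fun x hx => ⟨0, h0W, by simpa using hx⟩
  have hfn : ∀ x, x ∈ Wh → x + f ∉ B := by
    intro x hx hxf
    apply hf
    refine hWi.mem_of (x := x) ?_ hx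
    have : f - x = (f + f) - (x + f) := by abel
    rw [this]; exact B.sub_mem H.h2f hxf
  -- (1)
  have h1 : cnt Wh f + crd (B : Set G) = crd Wh := by
    unfold cnt crd
    rw [← Finset.card_union_of_disjoint]
    · congr 1
      ext x
      simp only [Finset.mem_union, Finset.mem_filter, Finset.mem_univ, true_and, SetLike.mem_coe]
      constructor
      · rintro (h | h)
        · exact h.1
        · exact hBW h
      · intro hx
        rcases H.P true Wh hWs hWi x hx with h | h | h
        · exact Or.inl ⟨hx, h⟩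
        · exact Or.inr h
        · exact absurd h (hfn x hx)
    · rw [Finset.disjoint_left]
      intro x hx hx'
      simp only [Finset.mem_filter, Finset.mem_univ, true_and, SetLike.mem_coe] at hx hx'
      apply hf
      refine hWi.mem_of (x := x + f) ?_ hx.2
      have : f - (x + f) = -x := by abel
      rw [this]; exact B.neg_mem hx'
  -- (2)
  have h2 : ∀ g, g ∈ B1 S B f → g ∉ B → cnt Wh g = cnt Wh f := by
    intro g hg hgB
    rcases B1_trans H hg hgB with ⟨y, ⟨p, hp, hp0, hpy⟩, hyg⟩
    have e1 : g = y + (g - y) := by abel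
    rw [e1, cnt_add_of_inv hWi hyg, ← hpy, sel_false, cnt_inv hWs hp hp0]
  -- (3)
  have h3 : ∀ g, g ∈ B → cnt Wh g = crd Wh := by
    intro g hg
    rw [← mem_rad_iff_cnt]
    exact hWi.le_rad hg
  -- (4)
  set s : ℕ := (Finset.univ.filter (fun y => y ∈ Wh ∧ y - 0 ∈ B1 S B f)).card with hs
  have h4a : ∀ x ∈ Wh, (Finset.univ.filter (fun y => y ∈ Wh ∧ y - x ∈ B1 S B f)).card = s := by
    rintro x ⟨w, ⟨p, hp, hp0, hpw⟩, hxw⟩
    have e1 : (Finset.univ.filter (fun y => y ∈ Wh ∧ y - x ∈ B1 S B f)).card
        = (Finset.univ.filter (fun y => y ∈ Wh ∧ y - w ∈ B1 S B f)).card := by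
      congr 1
      ext y
      simp only [Finset.mem_filter, Finset.mem_univ, true_and]
      have : y - x = (y - w) - (x - w) := by abel
      rw [this, sub_eq_add_neg, AddSubgroup.add_mem_cancel_right _ (AddSubgroup.neg_mem _ (B_le_B1 hxw))]
    rw [e1, hs, ← hpw]
    exact crd_coset_inv (Y := (B1 S B f : Set G)) hWs (isSet_B1 H) hp hp0 0
  have h4 : ∑ g ∈ Finset.univ.filter (fun g => g ∈ B1 S B f), cnt Wh g = crd Wh * s := by
    have e1 : ∀ g, cnt Wh g = ∑ x ∈ Finset.univ.filter (fun x => x ∈ Wh),
        (if x + g ∈ Wh then 1 else 0) := by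
      intro g
      unfold cnt
      rw [Finset.sum_boole, Finset.filter_filter]
      rfl
    simp_rw [e1]
    rw [Finset.sum_comm]
    have e2 : ∀ x ∈ Finset.univ.filter (fun x => x ∈ Wh),
        (∑ g ∈ Finset.univ.filter (fun g => g ∈ B1 S B f), (if x + g ∈ Wh then 1 else 0)) = s := by
      intro x hx
      simp only [Finset.mem_filter, Finset.mem_univ, true_and] at hx
      rw [Finset.sum_boole, Finset.filter_filter]
      rw [← h4a x hx, ← crd_sat_eq]
      rfl
    rw [Finset.sum_congr rfl e2, Finset.sum_const, smul_eq_mul]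
    rfl
  -- (5)
  have h5 : ∑ g ∈ Finset.univ.filter (fun g => g ∈ B1 S B f), cnt Wh g
      = crd (B : Set G) * crd Wh
        + (Finset.univ.filter (fun g => g ∈ B1 S B f ∧ g ∉ B)).card * cnt Wh f := by
    rw [← Finset.sum_filter_add_sum_filter_not (Finset.univ.filter (fun g => g ∈ B1 S B f))
      (fun g => g ∈ B)]
    rw [Finset.filter_filter, Finset.filter_filter]
    congr 1
    · have e3 : Finset.univ.filter (fun g => g ∈ B1 S B f ∧ g ∈ B)
          = Finset.univ.filter (fun g => g ∈ (B : Set G)) := by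
        ext g
        simp only [Finset.mem_filter, Finset.mem_univ, true_and, SetLike.mem_coe,
          and_iff_right_iff_imp]
        exact fun h => B_le_B1 h
      rw [e3, Finset.sum_congr rfl (g := fun _ => crd Wh), Finset.sum_const, smul_eq_mul]
      · rfl
      · intro g hg
        simp only [Finset.mem_filter, Finset.mem_univ, true_and, SetLike.mem_coe] at hg
        exact h3 g hg
    · rw [Finset.sum_congr rfl (g := fun _ => cnt Wh f), Finset.sum_const, smul_eq_mul]
      intro g hg
      simp only [Finset.mem_filter, Finset.mem_univ, true_and] at hg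
      exact h2 g hg.1 hg.2
  set d : ℕ := (Finset.univ.filter (fun g => g ∈ B1 S B f ∧ g ∉ B)).card with hd
  -- (6) s ≤ d
  have hd' : d = (Finset.univ.filter (fun g => g ∈ B1 S B f ∧ g + f ∉ B)).card := by
    rw [hd]
    apply card_filter_equiv (Equiv.addRight f)
    intro g
    simp only [Equiv.coe_addRight]
    rw [AddSubgroup.add_mem_cancel_right _ f_mem_B1]
  have h6sub : Finset.univ.filter (fun y => y ∈ Wh ∧ y - 0 ∈ B1 S B f)
      ⊆ Finset.univ.filter (fun g => g ∈ B1 S B f ∧ g + f ∉ B) := by
    intro y hy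
    simp only [Finset.mem_filter, Finset.mem_univ, true_and, sub_zero] at hy ⊢
    exact ⟨hy.2, hfn y hy.1⟩
  have h6 : s ≤ d := by
    rw [hd']; exact Finset.card_le_card h6sub
  have h7sub : Finset.univ.filter (fun y => y ∈ Wh ∧ y - 0 ∈ B1 S B f)
      ⊆ Finset.univ.filter (fun y => y ∈ Wh) := by
    intro y hy
    simp only [Finset.mem_filter, Finset.mem_univ, true_and] at hy ⊢
    exact hy.1
  have h7 : s ≤ crd Wh := Finset.card_le_card h7sub
  have h8 : crd (B : Set G) ≤ crd Wh := by omega
  have hms : crd Wh * s = crd (B : Set G) * crd Wh + d * cnt Wh f := by rw [← h4, h5]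
  have hbpos : 0 < crd (B : Set G) := by
    unfold crd
    apply Finset.card_pos.2
    exact ⟨0, by simp⟩
  set m := crd Wh
  set b := crd (B : Set G)
  set c := cnt Wh f
  -- m s = b m + d c, c + b = m, s ≤ d, s ≤ m
  have h9 : s = m := by
    have e1 : m * s = b * m + d * c := hms
    have e2 : s * c ≤ d * c := Nat.mul_le_mul_right _ h6
    have e3 : m * s = c * s + b * s := by rw [← h1]; ring
    have e4 : b * m ≤ b * s := by nlinarith
    have e5 : m ≤ s := Nat.le_of_mul_le_mul_left e4 hbpos
    omega
  have h10 : c = 0 ∨ m = d := by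
    by_cases hc : c = 0
    · exact Or.inl hc
    · right
      have e1 : m * m = b * m + d * c := by rw [← hms, h9]
      have e3 : m * m = b * m + m * c := by
        nth_rewrite 1 [← h1]
        ring
      have e4 : d * c = m * c := by omega
      have hc' : 0 < c := Nat.pos_of_ne_zero hc
      exact (Nat.eq_of_mul_eq_mul_right hc' e4).symm
  rcases h10 with hc | hmd
  · left
    have hmb : m = b := by omega
    intro x hx
    have hxW : x ∈ Wh := subset_sat _ _ hx
    have hsub : Finset.univ.filter (fun x => x ∈ (B : Set G))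
        ⊆ Finset.univ.filter (fun x => x ∈ Wh) := by
      intro y hy
      simp only [Finset.mem_filter, Finset.mem_univ, true_and] at hy ⊢
      exact hBW hy
    have heq := Finset.eq_of_subset_of_card_le hsub (le_of_eq hmb)
    have : x ∈ Finset.univ.filter (fun x => x ∈ Wh) := by simpa using hxW
    rw [← heq] at this
    simpa using this
  · right
    have heq1 := Finset.eq_of_subset_of_card_le h7sub (le_of_eq h9.symm)
    have heq2 := Finset.eq_of_subset_of_card_le h6sub (by rw [← hd', ← hmd, ← h9])
    intro x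
    have h1' := Finset.ext_iff.1 heq1 x
    have h2' := Finset.ext_iff.1 heq2 x
    simp only [Finset.mem_filter, Finset.mem_univ, true_and, sub_zero] at h1' h2'
    rw [← h1', h2']

end

end TII
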