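import Mathlib
import Pool.Agent.Lib.MP_2c9d40_co.Prop1

open scoped Classical

set_option linter.unusedSectionVars false

namespace TII

variable {G : Type*} [AddCommGroup G] [Fintype G]

/-- Hypotheses of the tensor lemma. -/
structure TLHyp (S : Sys G) (K B C : AddSubgroup G) (f : G) : Prop where
  hK : IsSet S false (K : Set G)
  hB : IsSet S false (B : Set G)
  hC : IsSet S false (C : Set G)
  hKB : K ≤ B
  hBC : B ≤ C
  hfC : f ∈ C
  hfB : f ∉ B
  h2f : f + f ∈ K
  htr : ∀ x ∈ C, x ∉ B → x ∈ sat (orb S false f) B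
  hP : ∀ X : Set G, IsSet S false X → Inv K X → (∀ x ∈ X, x ∈ C ∧ x ∉ B) →
    ∀ x ∈ X, x + f ∉ B → x + f ∈ X
  hq : ∃ g ∈ C, g ∉ B ∧ g + f ∉ B

section

variable {S : Sys G} {K B C : AddSubgroup G} {f : G}

lemma isSet_neg {S : Sys G} {X : Set G} (h : IsSet S false X) : IsSet S false {x | -x ∈ X} := by
  intro p hp h0 x hx
  have h' : IsSet S (xor false false) X := h
  have h1 := rel_fwd (x := x) (y := 0) h' hp (by simpa using hx)
  simpa [h0] using h1

lemma orb_sub_C (H : TLHyp S K B C f) : orb S false f ⊆ (C : Set G) :=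
  orb_subset H.hC H.hfC

lemma orb_not_B (H : TLHyp S K B C f) : ∀ x ∈ orb S false f, x ∉ B :=
  fun _ hx hxB => H.hfB (mem_of_orb_mem H.hB hx hxB)

lemma Xf_sub (H : TLHyp S K B C f) : ∀ x ∈ sat (orb S false f) K, x ∈ C ∧ x ∉ B := by
  rintro x ⟨y, hy, hxy⟩
  constructor
  · have : x = y + (x - y) := by abel
    rw [this]; exact C.add_mem (orb_sub_C H hy) (H.hBC (H.hKB hxy))
  · intro hxB
    apply orb_not_B H y hy
    have : y = x - (x - y) := by abel
    rw [this]; exact B.sub_mem hxB (H.hKB hxy)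

lemma exists_other (H : TLHyp S K B C f) (x : G) : ∃ g ∈ orb S false f, g - x ∉ B := by
  by_cases hx : f - x ∈ B
  · obtain ⟨g0, hg0C, hg0B, hg0f⟩ := H.hq
    obtain ⟨y, hy, hyg⟩ := H.htr g0 hg0C hg0B
    refine ⟨y, hy, fun hyx => hg0f ?_⟩
    -- g0 + f = (g0 - y) + (y - x) - (f - x) + (f + f)
    have : g0 + f = (g0 - y) + (y - x) - (f - x) + (f + f) := by abel
    rw [this]
    exact B.add_mem (B.sub_mem (B.add_mem hyg hyx) hx) (H.hKB H.h2f)
  · exact ⟨f, mem_orb_self S false f, hx⟩

/-- all `B`-cosets in `C \ B` contain the same number of elements of a `0`-set `X`. -/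
lemma coset_count (H : TLHyp S K B C f) {X : Set G} (hX : IsSet S false X) {x : G}
    (hxC : x ∈ C) (hxB : x ∉ B) :
    (Finset.univ.filter (fun y => y ∈ X ∧ y - x ∈ B)).card
      = (Finset.univ.filter (fun y => y ∈ X ∧ y - f ∈ B)).card := by
  obtain ⟨w, ⟨p, hp, hp0, hpw⟩, hyg⟩ := H.htr x hxC hxB
  have e1 : (Finset.univ.filter (fun y => y ∈ X ∧ y - x ∈ B)).card
      = (Finset.univ.filter (fun y => y ∈ X ∧ y - w ∈ B)).card := by
    congr 1
    ext y
    simp only [Finset.mem_filter, Finset.mem_univ, true_and]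
    have : y - x = (y - w) + -(x - w) := by abel
    rw [this, AddSubgroup.add_mem_cancel_right _ (AddSubgroup.neg_mem _ hyg)]
  rw [e1, ← hpw]
  exact crd_coset_inv (Y := (B : Set G)) hX H.hB hp hp0 f

/-- `(*)` -/
lemma TL_star (H : TLHyp S K B C f) {X : Set G} (hX : IsSet S false X) (hXK : Inv K X)
    (hXC : ∀ x ∈ X, x ∈ C ∧ x ∉ B) {x g : G} (hx : x ∈ X)
    (hg : g ∈ sat (orb S false f) K) (hxg : x + g ∉ B) : x + g ∈ X := by
  -- complement counts
  have split : ∀ g : G, (Finset.univ.filter (fun x => x ∈ X ∧ x + g ∉ B)).card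
      + (Finset.univ.filter (fun y => y ∈ X ∧ y - (-g) ∈ B)).card = crd X := by
    intro g
    unfold crd
    rw [← Finset.card_union_of_disjoint]
    · congr 1
      ext x
      simp only [Finset.mem_union, Finset.mem_filter, Finset.mem_univ, true_and, sub_neg_eq_add]
      tauto
    · rw [Finset.disjoint_left]
      intro x hx hx'
      simp only [Finset.mem_filter, Finset.mem_univ, true_and, sub_neg_eq_add] at hx hx'
      exact hx.2 hx'.2
  have hf1 : cnt X f = (Finset.univ.filter (fun x => x ∈ X ∧ x + f ∉ B)).card := by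
    unfold cnt
    congr 1
    ext x
    simp only [Finset.mem_filter, Finset.mem_univ, true_and, and_congr_right_iff]
    intro hx
    exact ⟨fun h => (hXC _ h).2, fun h => H.hP X hX hXK hXC x hx h⟩
  have hg1 : cnt X g = cnt X f := by
    obtain ⟨w, ⟨p, hp, hp0, hpw⟩, hwg⟩ := hg
    have e1 : g = w + (g - w) := by abel
    rw [e1, cnt_add_of_inv hXK hwg, ← hpw, sel_false, cnt_inv hX hp hp0]
  have hgC := Xf_sub H g hg
  have hc1 : (Finset.univ.filter (fun y => y ∈ X ∧ y - (-g) ∈ B)).card
      = (Finset.univ.filter (fun y => y ∈ X ∧ y - (-f) ∈ B)).card := by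
    rw [coset_count H hX (C.neg_mem hgC.1) (fun h => hgC.2 (by simpa using h)),
      coset_count H hX (C.neg_mem H.hfC) (fun h => H.hfB (by simpa using h))]
  have hcard : cnt X g = (Finset.univ.filter (fun x => x ∈ X ∧ x + g ∉ B)).card := by
    have s1 := split g
    have s2 := split f
    omega
  have hsub : Finset.univ.filter (fun x => x ∈ X ∧ x + g ∈ X)
      ⊆ Finset.univ.filter (fun x => x ∈ X ∧ x + g ∉ B) := by
    intro y hy
    simp only [Finset.mem_filter, Finset.mem_univ, true_and] at hy ⊢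
    exact ⟨hy.1, (hXC _ hy.2).2⟩
  have heq := Finset.eq_of_subset_of_card_le hsub (le_of_eq hcard.symm)
  have hmem : x ∈ Finset.univ.filter (fun x => x ∈ X ∧ x + g ∉ B) := by
    simp only [Finset.mem_filter, Finset.mem_univ, true_and]; exact ⟨hx, hxg⟩
  rw [← heq] at hmem
  simp only [Finset.mem_filter, Finset.mem_univ, true_and] at hmem
  exact hmem.2

lemma Xf_isSet (H : TLHyp S K B C f) : IsSet S false (sat (orb S false f) K) :=
  isSet_sat (isSet_orb S false f) H.hK

lemma Xf_neg (H : TLHyp S K B C f) {x : G} (hx : x ∈ sat (orb S false f) K) :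
    -x ∈ sat (orb S false f) K := by
  have hs : IsSet S false {x | -x ∈ sat (orb S false f) K} := isSet_neg (Xf_isSet H)
  have hf : f ∈ {x | -x ∈ sat (orb S false f) K} := by
    refine ⟨f, mem_orb_self S false f, ?_⟩
    have : -f - f = -(f + f) := by abel
    rw [this]; exact K.neg_mem H.h2f
  obtain ⟨y, hy, hxy⟩ := hx
  have hy' : -y ∈ sat (orb S false f) K := orb_subset hs hf hy
  refine (inv_sat (orb S false f) K).mem_of (x := -y) ?_ hy'
  have : -x - -y = -(x - y) := by abel
  rw [this]; exact K.neg_mem hxy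

lemma TL_delta (H : TLHyp S K B C f) {x' y' : G} (hx' : x' ∈ sat (orb S false f) K)
    (hy' : y' ∈ sat (orb S false f) K) (hr : y' - x' ∈ B) :
    y' - x' ∈ rad (sat (orb S false f) K) := by
  set Xf := sat (orb S false f) K with hXf
  have hs := Xf_isSet H
  have hi : Inv K Xf := inv_sat _ _
  have hsub := Xf_sub H
  have caseA : ∀ x ∈ Xf, x - x' ∉ B → x + (y' - x') ∈ Xf := by
    intro x hx hxx
    have h1 : x + -x' ∈ Xf := TL_star H hs hi hsub hx (Xf_neg H hx') (by
      rwa [← sub_eq_add_neg])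
    have h2 : (x + -x') + y' ∈ Xf := by
      apply TL_star H hs hi hsub h1 hy'
      intro h
      apply (hsub x hx).2
      have : x = (x + -x' + y') - (y' - x') := by abel
      rw [this]; exact B.sub_mem h hr
    have : x + (y' - x') = (x + -x') + y' := by abel
    rwa [this]
  apply mem_rad_of_fwd
  intro x hx
  by_cases hxx : x - x' ∈ B
  · obtain ⟨g, hg, hgx⟩ := exists_other H x
    have hg' : g ∈ Xf := subset_sat _ _ hg
    have h1 : x + -g ∈ Xf := by
      apply TL_star H hs hi hsub hx (Xf_neg H hg')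
      intro h
      apply hgx
      have : g - x = -(x + -g) := by abel
      rw [this]; exact B.neg_mem h
    have h2 : (x + -g) + (y' - x') ∈ Xf := by
      apply caseA _ h1
      intro h
      apply (hsub g hg').2
      have : g = (x - x') - (x + -g - x') := by abel
      rw [this]; exact B.sub_mem hxx h
    have h3 : (x + -g) + (y' - x') + g ∈ Xf := by
      apply TL_star H hs hi hsub h2 hg'
      intro h
      apply (hsub x hx).2
      have : x = (x + -g + (y' - x') + g) - (y' - x') := by abel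
      rw [this]; exact B.sub_mem h hr
    have : x + (y' - x') = (x + -g) + (y' - x') + g := by abel
    rwa [this]
  · exact caseA x hx hxx

/-- The subgroup `J`. -/
lemma TL_a (H : TLHyp S K B C f) {x : G} (hx : x ∈ B1 S K f) (hxB : x ∉ B) :
    x ∈ sat (orb S false f) K := by
  set Xf := sat (orb S false f) K with hXf
  have hs := Xf_isSet H
  have hi : Inv K Xf := inv_sat _ _
  have hsub := Xf_sub H
  let J' : AddSubgroup G :=
    { carrier := {x | x ∈ Xf ∨ (x ∈ B ∧ x ∈ rad Xf)}
      zero_mem' := Or.inr ⟨B.zero_mem, (rad Xf).zero_mem⟩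
      add_mem' := by
        rintro a b (ha | ha) (hb | hb)
        · by_cases hab : a + b ∈ B
          · right
            refine ⟨hab, ?_⟩
            have := TL_delta H (Xf_neg H hb) ha (by rwa [sub_neg_eq_add])
            rwa [sub_neg_eq_add] at this
          · left; exact TL_star H hs hi hsub ha hb hab
        · left; exact (hb.2 a).2 ha
        · left; rw [add_comm]; exact (ha.2 b).2 hb
        · right; exact ⟨B.add_mem ha.1 hb.1, (rad Xf).add_mem ha.2 hb.2⟩
      neg_mem' := by
        rintro a (ha | ha)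
        · left; exact Xf_neg H ha
        · right; exact ⟨B.neg_mem ha.1, (rad Xf).neg_mem ha.2⟩ }
  have hle : B1 S K f ≤ J' := by
    unfold B1
    rw [AddSubgroup.closure_le]
    rintro y (hy | hy)
    · exact Or.inl (subset_sat _ _ hy)
    · exact Or.inr ⟨H.hKB hy, hi.le_rad hy⟩
  rcases hle hx with h | h
  · exact h
  · exact absurd h.1 hxB

lemma TL_b (H : TLHyp S K B C f) {X : Set G} (hX : IsSet S false X) (hXK : Inv K X)
    (hXC : ∀ x ∈ X, x ∈ C ∧ x ∉ B) {x j : G} (hx : x ∈ X) (hj : j ∈ B1 S K f)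
    (hxj : x + j ∉ B) : x + j ∈ X := by
  by_cases hjB : j ∈ B
  · obtain ⟨g, hg, hgx⟩ := exists_other H (-x)
    have hg' : g ∈ sat (orb S false f) K := subset_sat _ _ hg
    have h1 : x + g ∈ X := by
      apply TL_star H hX hXK hXC hx hg'
      have : x + g = g - -x := by abel
      rwa [this]
    have hgJ : g ∈ B1 S K f := orb_subset_B1 hg
    have h2 : j - g ∈ sat (orb S false f) K := by
      apply TL_a H (AddSubgroup.sub_mem _ hj hgJ)
      intro h
      apply (Xf_sub H g hg').2
      have : g = j - (j - g) := by abel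
      rw [this]; exact B.sub_mem hjB h
    have h3 : (x + g) + (j - g) ∈ X := by
      apply TL_star H hX hXK hXC h1 h2
      have : x + g + (j - g) = x + j := by abel
      rwa [this]
    have : x + g + (j - g) = x + j := by abel
    rwa [this] at h3
  · exact TL_star H hX hXK hXC hx (TL_a H hj hjB) hxj

/-- The `1`-set version of `(*)` in case (iii). -/
lemma TL1_star (H : TLHyp S K B C f)
    (hW : ∀ x, x ∈ C → x + f ∉ B → x ∈ sat (orb S true 0) B)
    {X : Set G} (hX : IsSet S true X) (hXK : Inv K X)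
    (hXC : ∀ x ∈ X, x ∈ C ∧ x + f ∉ B)
    (hP1 : ∀ x ∈ X, x ∉ B → x + f ∈ X) {x g : G} (hx : x ∈ X)
    (hg : g ∈ sat (orb S false f) K) (hxg : x + g + f ∉ B) : x + g ∈ X := by
  have ccount : ∀ z ∈ C, z + f ∉ B →
      (Finset.univ.filter (fun y => y ∈ X ∧ y - z ∈ B)).card
      = (Finset.univ.filter (fun y => y ∈ X ∧ y - 0 ∈ B)).card := by
    intro z hz hzf
    obtain ⟨w, ⟨p, hp, hp0, hpw⟩, hyg⟩ := hW z hz hzf
    have e1 : (Finset.univ.filter (fun y => y ∈ X ∧ y - z ∈ B)).card
        = (Finset.univ.filter (fun y => y ∈ X ∧ y - w ∈ B)).card := by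
      congr 1
      ext y
      simp only [Finset.mem_filter, Finset.mem_univ, true_and]
      have : y - z = (y - w) + -(z - w) := by abel
      rw [this, AddSubgroup.add_mem_cancel_right _ (AddSubgroup.neg_mem _ hyg)]
    rw [e1, ← hpw]
    exact crd_coset_inv (Y := (B : Set G)) hX H.hB hp hp0 0
  have split : ∀ z : G, (Finset.univ.filter (fun x => x ∈ X ∧ x - z ∉ B)).card
      + (Finset.univ.filter (fun y => y ∈ X ∧ y - z ∈ B)).card = crd X := by
    intro z
    unfold crd
    rw [← Finset.card_union_of_disjoint]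
    · congr 1
      ext x
      simp only [Finset.mem_union, Finset.mem_filter, Finset.mem_univ, true_and]
      tauto
    · rw [Finset.disjoint_left]
      intro x hx hx'
      simp only [Finset.mem_filter, Finset.mem_univ, true_and] at hx hx'
      exact hx.2 hx'.2
  have hf1 : cnt X f = (Finset.univ.filter (fun x => x ∈ X ∧ x - 0 ∉ B)).card := by
    unfold cnt
    congr 1
    ext x
    simp only [Finset.mem_filter, Finset.mem_univ, true_and, and_congr_right_iff, sub_zero]
    intro hx
    constructor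
    · intro h hxB
      apply (hXC _ h).2
      rw [add_assoc]; exact B.add_mem hxB (H.hKB H.h2f)
    · intro h; exact hP1 x hx h
  have hg1 : cnt X g = cnt X f := by
    obtain ⟨w, ⟨p, hp, hp0, hpw⟩, hwg⟩ := hg
    have e1 : g = w + (g - w) := by abel
    rw [e1, cnt_add_of_inv hXK hwg, ← hpw, sel_false, cnt_inv hX hp hp0]
  have hgC := Xf_sub H g hg
  have hc1 := ccount (-g - f) (C.sub_mem (C.neg_mem hgC.1) H.hfC) (by
    intro h; apply hgC.2
    have : g = -(-g - f + f) := by abel
    rw [this]; exact B.neg_mem h)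
  have hcard : cnt X g = (Finset.univ.filter (fun x => x ∈ X ∧ x - (-g - f) ∉ B)).card := by
    have s1 := split (-g - f)
    have s2 := split 0
    omega
  have hsub : Finset.univ.filter (fun x => x ∈ X ∧ x + g ∈ X)
      ⊆ Finset.univ.filter (fun x => x ∈ X ∧ x - (-g - f) ∉ B) := by
    intro y hy
    simp only [Finset.mem_filter, Finset.mem_univ, true_and] at hy ⊢
    refine ⟨hy.1, ?_⟩
    have := (hXC _ hy.2).2
    have e : y - (-g - f) = y + g + f := by abel
    rwa [e]
  have heq := Finset.eq_of_subset_of_card_le hsub (le_of_eq hcard.symm)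
  have hmem : x ∈ Finset.univ.filter (fun x => x ∈ X ∧ x - (-g - f) ∉ B) := by
    simp only [Finset.mem_filter, Finset.mem_univ, true_and]
    refine ⟨hx, ?_⟩
    have e : x - (-g - f) = x + g + f := by abel
    rwa [e]
  rw [← heq] at hmem
  simp only [Finset.mem_filter, Finset.mem_univ, true_and] at hmem
  exact hmem.2

lemma TL1_b (H : TLHyp S K B C f)
    (hW : ∀ x, x ∈ C → x + f ∉ B → x ∈ sat (orb S true 0) B)
    {X : Set G} (hX : IsSet S true X) (hXK : Inv K X)
    (hXC : ∀ x ∈ X, x ∈ C ∧ x + f ∉ B)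
    (hP1 : ∀ x ∈ X, x ∉ B → x + f ∈ X) {x j : G} (hx : x ∈ X)
    (hj : j ∈ B1 S K f) (hxj : x + j + f ∉ B) : x + j ∈ X := by
  by_cases hjB : j ∈ B
  · obtain ⟨g, hg, hgx⟩ := exists_other H (-x - f)
    have hg' : g ∈ sat (orb S false f) K := subset_sat _ _ hg
    have h1 : x + g ∈ X := by
      apply TL1_star H hW hX hXK hXC hP1 hx hg'
      have : x + g + f = g - (-x - f) := by abel
      rwa [this]
    have hgJ : g ∈ B1 S K f := orb_subset_B1 hg
    have h2 : j - g ∈ sat (orb S false f) K := by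
      apply TL_a H (AddSubgroup.sub_mem _ hj hgJ)
      intro h
      apply (Xf_sub H g hg').2
      have : g = j - (j - g) := by abel
      rw [this]; exact B.sub_mem hjB h
    have e : x + g + (j - g) = x + j := by abel
    have h3 : (x + g) + (j - g) ∈ X := by
      apply TL1_star H hW hX hXK hXC hP1 h1 h2
      rwa [e]
    rwa [e] at h3
  · exact TL1_star H hW hX hXK hXC hP1 hx (TL_a H hj hjB) hxj

end

end TII
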