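import Mathlib
import Pool.Agent.Lib.MP_2c9d40_co.TL

open scoped Classical

set_option linter.unusedSectionVars false

namespace TII

variable {G : Type*} [AddCommGroup G] [Fintype G]

section

variable {S : Sys G} {B C : AddSubgroup G} {f : G}

/-- double counting -/
lemma dcount (Y Z : Set G) (K : Set G) :
    ∑ y ∈ Finset.univ.filter (fun y => y ∈ Y), (Finset.univ.filter (fun z => z ∈ Z ∧ z - y ∈ K)).card
      = ∑ z ∈ Finset.univ.filter (fun z => z ∈ Z),
        (Finset.univ.filter (fun y => y ∈ Y ∧ z - y ∈ K)).card := by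
  have e1 : ∀ y, (Finset.univ.filter (fun z => z ∈ Z ∧ z - y ∈ K)).card
      = ∑ z ∈ Finset.univ.filter (fun z => z ∈ Z), (if z - y ∈ K then 1 else 0) := by
    intro y
    rw [Finset.sum_boole, Finset.filter_filter]; rfl
  have e2 : ∀ z, (Finset.univ.filter (fun y => y ∈ Y ∧ z - y ∈ K)).card
      = ∑ y ∈ Finset.univ.filter (fun y => y ∈ Y), (if z - y ∈ K then 1 else 0) := by
    intro z
    rw [Finset.sum_boole, Finset.filter_filter]; rfl
  simp_rw [e1, e2]
  rw [Finset.sum_comm]

/-- size of a coset -/
lemma card_coset (K : AddSubgroup G) (z : G) :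
    (Finset.univ.filter (fun y => z - y ∈ K)).card = crd (K : Set G) := by
  unfold crd
  apply card_filter_equiv (Equiv.subLeft z)
  intro x
  simp

lemma card_coset' (K : AddSubgroup G) (z : G) :
    (Finset.univ.filter (fun y => y - z ∈ K)).card = crd (K : Set G) := by
  unfold crd
  apply card_filter_equiv (Equiv.addRight z)
  intro x
  simp

/-- number of elements of `X` in the coset `x + K` -/
noncomputable def cc (X : Set G) (K : AddSubgroup G) (x : G) : ℕ :=
  (Finset.univ.filter (fun y => y ∈ X ∧ y - x ∈ K)).card

lemma cc_le (X : Set G) (K : AddSubgroup G) (x : G) : cc X K x ≤ crd (K : Set G) := by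
  rw [← card_coset' K x]
  apply Finset.card_le_card
  intro y
  simp only [Finset.mem_filter, Finset.mem_univ, true_and]
  exact fun h => h.2

lemma cc_congr (X : Set G) (K : AddSubgroup G) {x y : G} (h : y - x ∈ K) : cc X K x = cc X K y := by
  unfold cc
  congr 1
  ext z
  simp only [Finset.mem_filter, Finset.mem_univ, true_and]
  have : z - x = (z - y) + (y - x) := by abel
  rw [this, AddSubgroup.add_mem_cancel_right _ h]

lemma cc_orb {K : AddSubgroup G} (hK : IsSet S false (K : Set G)) {x0 x : G}
    (hx : x ∈ orb S true x0) : cc (orb S true x0) K x = cc (orb S true x0) K x0 := by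
  obtain ⟨p, hp, hp0, rfl⟩ := hx
  exact crd_coset_inv (Y := (K : Set G)) (isSet_orb S true x0) hK hp hp0 x0

lemma cc_pos {K : AddSubgroup G} {X : Set G} {x : G} (hx : x ∈ X) : 0 < cc X K x := by
  unfold cc
  apply Finset.card_pos.2
  exact ⟨x, by simp [hx]⟩

/-- majority argument -/
lemma maj {K : AddSubgroup G}
    (h : ∀ x0 : G, crd (K : Set G) < 2 * cc (orb S true x0) K x0) {X : Set G}
    (hX : IsSet S true X) : K ≤ rad X := by
  intro k hk
  apply mem_rad_of_fwd
  intro x hx
  by_contra hcon
  have hdisj : ∀ y, y ∈ orb S true x → y ∉ orb S true (x + k) := by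
    intro y hy hy'
    have h1 : y ∈ X := orb_subset hX hx hy
    exact hcon (mem_of_orb_mem hX hy' h1)
  have h1 := h x
  have h2 := h (x + k)
  have e2 : cc (orb S true (x + k)) K (x + k) = cc (orb S true (x + k)) K x := by
    rw [cc_congr _ K (x := x) (y := x + k) (by simpa using hk)]
  rw [e2] at h2
  have h3 : cc (orb S true x) K x + cc (orb S true (x + k)) K x ≤ crd (K : Set G) := by
    rw [← card_coset' K x]
    unfold cc
    rw [← Finset.card_union_of_disjoint]
    · apply Finset.card_le_card
      intro y
      simp only [Finset.mem_union, Finset.mem_filter, Finset.mem_univ, true_and]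
      rintro (h | h)
      · exact h.2
      · exact h.2
    · rw [Finset.disjoint_left]
      intro y hy hy'
      simp only [Finset.mem_filter, Finset.mem_univ, true_and] at hy hy'
      exact hdisj y hy.1 hy'.1
  omega

lemma arith_i {b b1 j r k s sR M c : ℕ} (hb : 0 < b) (hk : 0 < k) (hr : 0 < r)
    (h1 : M ≤ c + 2 * k) (h2 : (j - r) * c = M * (s - sR)) (hsR : sR ≤ s) (hrj : r ≤ j)
    (hss : s - sR ≤ j - r)
    (h3 : b1 * k ≤ b * M) (h4 : r * s ≤ j * sR) (h5 : b1 * r = j * b) (h6 : 4 * b ≤ b1) :
    r ≤ 2 * sR ∧ (sR = r → j < 2 * s) := by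
  have h6' : 4 * r ≤ j := by
    have : b * (4 * r) ≤ b * j := by nlinarith
    exact Nat.le_of_mul_le_mul_left this hb
  obtain ⟨u, rfl⟩ := Nat.exists_eq_add_of_le hrj
  obtain ⟨v, rfl⟩ := Nat.exists_eq_add_of_le hsR
  simp only [Nat.add_sub_cancel_left] at h2 hss
  obtain ⟨w, rfl⟩ := Nat.exists_eq_add_of_le hss
  -- j = r + (v + w), s = sR + v, (v+w) c = M v; M ≤ c + 2k
  -- M w ≤ 2 k (v+w)
  have a1 : M * w ≤ 2 * k * (v + w) := by nlinarith
  -- b1 k w ≤ b M w ≤ 2 k b (v+w)
  have a2 : k * (b1 * w) ≤ k * (2 * b * (v + w)) := by nlinarith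
  have a3 : b1 * w ≤ 2 * b * (v + w) := Nat.le_of_mul_le_mul_left a2 hk
  have a4 : b * ((r + (v + w)) * w) ≤ b * (2 * r * (v + w)) := by nlinarith
  have a5 : (r + (v + w)) * w ≤ 2 * r * (v + w) := Nat.le_of_mul_le_mul_left a4 hb
  -- set jj = r + v + w
  constructor
  · -- r v ≤ (v+w) sR from h4 : r (sR + v) ≤ (r + (v+w)) sR
    have a6 : r * v ≤ (v + w) * sR := by nlinarith
    have hvw : 0 < v + w := by omega
    -- r (j-2r)... ; j v = j (v+w) - j w ≥ j(v+w) - 2r (v+w)
    have a7 : (r + (v + w)) * (v + w) ≤ (r + (v + w)) * v + 2 * r * (v + w) := by nlinarith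
    have a8 : r * ((r + (v + w)) * (v + w))
        ≤ (r + (v + w)) * ((v + w) * sR) + 2 * r * r * (v + w) := by nlinarith
    have a9 : (v + w) * (r * (r + (v + w))) ≤ (v + w) * ((r + (v + w)) * sR + 2 * r * r) := by
      nlinarith
    have a10 : r * (r + (v + w)) ≤ (r + (v + w)) * sR + 2 * r * r :=
      Nat.le_of_mul_le_mul_left a9 hvw
    -- 2 r j ≤ 2 j sR + 4 r r ≤ 2 j sR + r j
    have a11 : (r + (v + w)) * r ≤ (r + (v + w)) * (2 * sR) := by nlinarith
    exact Nat.le_of_mul_le_mul_left a11 (by omega)
  · intro hsr
    subst hsr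
    -- 2 s > j
    by_contra hcon
    push Not at hcon
    -- 2 (sR + v) ≤ sR + v + w → sR + v ≤ w
    have b1' : sR + v ≤ w := by omega
    nlinarith

theorem count_i (H : TLHyp S ⊥ B C f)
    (hci : ∀ X : Set G, IsSet S true X → Inv B X → C ≤ rad X)
    (hP1 : ∀ X : Set G, IsSet S true X → ∀ x ∈ X, x + f ∈ X ∨ x ∈ B ∨ x + f ∈ B)
    (hJB : ∀ x ∈ C, ∃ j ∈ B1 S ⊥ f, x - j ∈ B)
    (hodd : Odd (crd ((B1 S ⊥ f ⊓ B : AddSubgroup G) : Set G)))
    (h4 : 4 * crd (B : Set G) ≤ crd (C : Set G)) {X : Set G} (hX : IsSet S true X) :
    B1 S ⊥ f ≤ rad X := by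
  set J : AddSubgroup G := B1 S ⊥ f with hJdef
  set R : AddSubgroup G := J ⊓ B with hRdef
  have hbot : IsSet S false ((⊥ : AddSubgroup G) : Set G) := H.hK
  have hJ : IsSet S false (J : Set G) := isSet_closure (isSet_union (isSet_orb S false f) hbot)
  have hR : IsSet S false (R : Set G) := by
    have := isSet_inter hJ H.hB
    simpa [hRdef] using this
  have hJC : J ≤ C := by
    rw [hJdef]; unfold B1
    rw [AddSubgroup.closure_le]
    rintro y (hy | hy)
    · exact orb_sub_C H hy
    · have : y = 0 := by simpa using hy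
      rw [this]; exact C.zero_mem
  -- main numeric facts for a basic 1-set
  have main : ∀ x0 : G,
      crd (R : Set G) ≤ 2 * cc (orb S true x0) R x0 ∧
      (cc (orb S true x0) R x0 = crd (R : Set G) →
        crd (J : Set G) < 2 * cc (orb S true x0) J x0) := by
    intro x0
    set Y : Set G := orb S true x0 with hY
    have hYs : IsSet S true Y := isSet_orb S true x0
    have hx0 : x0 ∈ Y := mem_orb_self S true x0
    have f1 : crd Y ≤ cnt Y f + 2 * cc Y B x0 := by
      have hle : ∀ z : G, (Finset.univ.filter (fun y => y ∈ Y ∧ y - z ∈ B)).card ≤ cc Y B x0 := by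
        intro z
        by_cases hz : ∃ y1 ∈ Y, y1 - z ∈ B
        · obtain ⟨y1, hy1, hy1z⟩ := hz
          have : cc Y B z = cc Y B y1 := cc_congr Y B hy1z
          rw [← cc_orb H.hB hy1, ← this]
          exact le_rfl
        · have : Finset.univ.filter (fun y => y ∈ Y ∧ y - z ∈ B) = ∅ := by
            rw [Finset.filter_eq_empty_iff]
            intro y _ hy
            exact hz ⟨y, hy.1, hy.2⟩
          rw [this]; simp
      have hsub : Finset.univ.filter (fun y => y ∈ Y)
          ⊆ (Finset.univ.filter (fun y => y ∈ Y ∧ y + f ∈ Y))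
            ∪ ((Finset.univ.filter (fun y => y ∈ Y ∧ y - 0 ∈ B))
              ∪ (Finset.univ.filter (fun y => y ∈ Y ∧ y - (-f) ∈ B))) := by
        intro y hy
        simp only [Finset.mem_filter, Finset.mem_univ, true_and, Finset.mem_union, sub_zero,
          sub_neg_eq_add] at hy ⊢
        rcases hP1 Y hYs y hy with h | h | h
        · exact Or.inl ⟨hy, h⟩
        · exact Or.inr (Or.inl ⟨hy, h⟩)
        · exact Or.inr (Or.inr ⟨hy, h⟩)
      have h1 := Finset.card_le_card hsub
      have h2 := Finset.card_union_le (Finset.univ.filter (fun y => y ∈ Y ∧ y + f ∈ Y))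
        ((Finset.univ.filter (fun y => y ∈ Y ∧ y - 0 ∈ B))
              ∪ (Finset.univ.filter (fun y => y ∈ Y ∧ y - (-f) ∈ B)))
      have h3 := Finset.card_union_le (Finset.univ.filter (fun y => y ∈ Y ∧ y - 0 ∈ B))
        (Finset.univ.filter (fun y => y ∈ Y ∧ y - (-f) ∈ B))
      have h4 := hle 0
      have h5 := hle (-f)
      have h6 : crd Y = (Finset.univ.filter (fun y => y ∈ Y)).card := rfl
      have h7 : cnt Y f = (Finset.univ.filter (fun y => y ∈ Y ∧ y + f ∈ Y)).card := rfl
      omega
    -- (j - r) c = M (s - sR)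
    have hsR : cc Y R x0 ≤ cc Y J x0 := by
      unfold cc
      apply Finset.card_le_card
      intro y
      simp only [Finset.mem_filter, Finset.mem_univ, true_and]
      exact fun h => ⟨h.1, h.2.1⟩
    have hrj : crd (R : Set G) ≤ crd (J : Set G) := by
      unfold crd
      apply Finset.card_le_card
      intro y
      simp only [Finset.mem_filter, Finset.mem_univ, true_and]
      exact fun h => h.1
    have hcJR : (Finset.univ.filter (fun g => g ∈ J ∧ g ∉ B)).card
        = crd (J : Set G) - crd (R : Set G) := by
      have : (Finset.univ.filter (fun g => g ∈ J ∧ g ∉ B)).card + crd (R : Set G)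
          = crd (J : Set G) := by
        unfold crd
        rw [← Finset.card_union_of_disjoint]
        · congr 1
          ext x
          simp only [Finset.mem_union, Finset.mem_filter, Finset.mem_univ, true_and,
            SetLike.mem_coe, hRdef, AddSubgroup.mem_inf]
          tauto
        · rw [Finset.disjoint_left]
          intro x hx hx'
          simp only [Finset.mem_filter, Finset.mem_univ, true_and, SetLike.mem_coe, hRdef,
            AddSubgroup.mem_inf] at hx hx'
          exact hx.2 hx'.2
      omega
    have hrow : ∀ x ∈ Y, (Finset.univ.filter (fun g => (g ∈ J ∧ g ∉ B) ∧ x + g ∈ Y)).card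
        = cc Y J x0 - cc Y R x0 := by
      intro x hx
      have a1 : cc Y J x = cc Y J x0 := cc_orb hJ hx
      have a2 : cc Y R x = cc Y R x0 := cc_orb hR hx
      rw [← a1, ← a2]
      have : (Finset.univ.filter (fun g => (g ∈ J ∧ g ∉ B) ∧ x + g ∈ Y)).card + cc Y R x
          = cc Y J x := by
        have e1 : (Finset.univ.filter (fun g => (g ∈ J ∧ g ∉ B) ∧ x + g ∈ Y)).card
            = (Finset.univ.filter (fun y => y ∈ Y ∧ (y - x ∈ J ∧ y - x ∉ B))).card := by
          symm
          apply card_filter_equiv (Equiv.addRight x)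
          intro y
          simp only [Equiv.coe_addRight, add_sub_cancel_right]
          rw [add_comm y x]; tauto
        rw [e1]
        unfold cc
        rw [← Finset.card_union_of_disjoint]
        · congr 1
          ext y
          simp only [Finset.mem_union, Finset.mem_filter, Finset.mem_univ, true_and, hRdef,
            AddSubgroup.mem_inf]
          tauto
        · rw [Finset.disjoint_left]
          intro y hy hy'
          simp only [Finset.mem_filter, Finset.mem_univ, true_and, hRdef,
            AddSubgroup.mem_inf] at hy hy'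
          exact hy.2.2 hy'.2.2
      omega
    have f2 : (crd (J : Set G) - crd (R : Set G)) * cnt Y f
        = crd Y * (cc Y J x0 - cc Y R x0) := by
      have e1 : ∑ g ∈ Finset.univ.filter (fun g => g ∈ J ∧ g ∉ B), cnt Y g
          = (crd (J : Set G) - crd (R : Set G)) * cnt Y f := by
        rw [Finset.sum_congr rfl (g := fun _ => cnt Y f), Finset.sum_const, smul_eq_mul, hcJR]
        intro g hg
        simp only [Finset.mem_filter, Finset.mem_univ, true_and] at hg
        obtain ⟨w, ⟨p, hp, hp0, hpw⟩, hwg⟩ := TL_a H hg.1 hg.2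
        have : g = w := by
          have : g - w = 0 := by simpa using hwg
          exact sub_eq_zero.1 this
        rw [this, ← hpw, sel_false, cnt_inv hYs hp hp0]
      have e2 : ∑ g ∈ Finset.univ.filter (fun g => g ∈ J ∧ g ∉ B), cnt Y g
          = crd Y * (cc Y J x0 - cc Y R x0) := by
        have e3 : ∀ g, cnt Y g = ∑ x ∈ Finset.univ.filter (fun x => x ∈ Y),
            (if x + g ∈ Y then 1 else 0) := by
          intro g
          unfold cnt
          rw [Finset.sum_boole, Finset.filter_filter]
          rfl
        simp_rw [e3]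
        rw [Finset.sum_comm]
        have e4 : ∀ x ∈ Finset.univ.filter (fun x => x ∈ Y),
            (∑ g ∈ Finset.univ.filter (fun g => g ∈ J ∧ g ∉ B), (if x + g ∈ Y then 1 else 0))
              = cc Y J x0 - cc Y R x0 := by
          intro x hx
          simp only [Finset.mem_filter, Finset.mem_univ, true_and] at hx
          rw [Finset.sum_boole, Finset.filter_filter]
          rw [← hrow x hx]
          rfl
        rw [Finset.sum_congr rfl e4, Finset.sum_const, smul_eq_mul]
        rfl
      rw [← e1, e2]
    have hss : cc Y J x0 - cc Y R x0 ≤ crd (J : Set G) - crd (R : Set G) := by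
      rw [← hrow x0 hx0, ← hcJR]
      apply Finset.card_le_card
      intro y
      simp only [Finset.mem_filter, Finset.mem_univ, true_and]
      exact fun h => h.1
    -- b1 k ≤ b M
    have f3 : crd (C : Set G) * cc Y B x0 ≤ crd (B : Set G) * crd Y := by
      have hsatC : C ≤ rad (sat Y B) := hci _ (isSet_sat hYs H.hB) (inv_sat _ _)
      have d := dcount {y | y - x0 ∈ C} Y (B : Set G)
      have e1 : ∑ y ∈ Finset.univ.filter (fun y => y ∈ {y | y - x0 ∈ C}),
          (Finset.univ.filter (fun z => z ∈ Y ∧ z - y ∈ (B : Set G))).card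
          = crd (C : Set G) * cc Y B x0 := by
        rw [Finset.sum_congr rfl (g := fun _ => cc Y B x0), Finset.sum_const, smul_eq_mul]
        · congr 1
          rw [← card_coset' C x0]
          rfl
        · intro y hy
          simp only [Finset.mem_filter, Finset.mem_univ, true_and, Set.mem_setOf_eq] at hy
          have hyS : y ∈ sat Y B := by
            have := (hsatC hy x0).2 (subset_sat _ _ hx0)
            simpa using this
          obtain ⟨z0, hz0, hyz⟩ := hyS
          have h1 : cc Y B z0 = cc Y B y := cc_congr Y B hyz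
          rw [← cc_orb H.hB hz0, h1]
          rfl
      have e2 : ∑ z ∈ Finset.univ.filter (fun z => z ∈ Y),
          (Finset.univ.filter (fun y => y ∈ {y | y - x0 ∈ C} ∧ z - y ∈ (B : Set G))).card
          ≤ crd (B : Set G) * crd Y := by
        have : ∀ z ∈ Finset.univ.filter (fun z => z ∈ Y),
            (Finset.univ.filter (fun y => y ∈ {y | y - x0 ∈ C} ∧ z - y ∈ (B : Set G))).card
              ≤ crd (B : Set G) := by
          intro z _
          rw [← card_coset B z]
          apply Finset.card_le_card
          intro y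
          simp only [Finset.mem_filter, Finset.mem_univ, true_and]
          exact fun h => h.2
        have h := Finset.sum_le_card_nsmul _ _ _ this
        rw [smul_eq_mul] at h
        rw [mul_comm]
        exact h
      rw [← e1, d]; exact e2
    -- r s ≤ j sR
    have f4 : crd (R : Set G) * cc Y J x0 ≤ crd (J : Set G) * cc Y R x0 := by
      obtain ⟨YJ, hYJ⟩ : ∃ YJ : Set G, ∀ y, y ∈ YJ ↔ y - x0 ∈ J := ⟨{y | y - x0 ∈ J}, fun _ => Iff.rfl⟩
      obtain ⟨ZJ, hZJ⟩ : ∃ ZJ : Set G, ∀ z, z ∈ ZJ ↔ (z ∈ Y ∧ z - x0 ∈ J) :=
        ⟨{z | z ∈ Y ∧ z - x0 ∈ J}, fun _ => Iff.rfl⟩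
      have d := dcount YJ ZJ (R : Set G)
      have e1 : ∑ y ∈ Finset.univ.filter (fun y => y ∈ YJ),
          (Finset.univ.filter (fun z => z ∈ ZJ ∧ z - y ∈ (R : Set G))).card
          ≤ crd (J : Set G) * cc Y R x0 := by
        have : ∀ y ∈ Finset.univ.filter (fun y => y ∈ YJ),
          (Finset.univ.filter (fun z => z ∈ ZJ ∧ z - y ∈ (R : Set G))).card
              ≤ cc Y R x0 := by
          intro y _
          by_cases hz : ∃ y1 ∈ Y, y1 - y ∈ R
          · obtain ⟨y1, hy1, hy1z⟩ := hz
            have h1 : cc Y R y = cc Y R y1 := cc_congr Y R hy1z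
            rw [← cc_orb hR hy1, ← h1]
            unfold cc
            apply Finset.card_le_card
            intro z
            simp only [Finset.mem_filter, Finset.mem_univ, true_and, hZJ]
            exact fun h => ⟨h.1.1, h.2⟩
          · have : Finset.univ.filter
                (fun z => z ∈ ZJ ∧ z - y ∈ (R : Set G)) = ∅ := by
              rw [Finset.filter_eq_empty_iff]
              intro z _ hz'
              exact hz ⟨z, ((hZJ z).1 hz'.1).1, hz'.2⟩
            rw [this]; simp
        have h := Finset.sum_le_card_nsmul _ _ _ this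
        rw [smul_eq_mul] at h
        refine h.trans (le_of_eq ?_)
        congr 1
        rw [← card_coset' J x0]
        congr 1
        ext y
        simp only [Finset.mem_filter, Finset.mem_univ, true_and, hYJ]
      have e2 : ∑ z ∈ Finset.univ.filter (fun z => z ∈ ZJ),
          (Finset.univ.filter (fun y => y ∈ YJ ∧ z - y ∈ (R : Set G))).card
          = crd (R : Set G) * cc Y J x0 := by
        rw [Finset.sum_congr rfl (g := fun _ => crd (R : Set G)), Finset.sum_const, smul_eq_mul,
          mul_comm]
        · congr 1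
          unfold cc
          congr 1
          ext y
          simp only [Finset.mem_filter, Finset.mem_univ, true_and, hZJ]
        · intro z hz
          simp only [Finset.mem_filter, Finset.mem_univ, true_and, hZJ] at hz
          rw [← card_coset R z]
          congr 1
          ext y
          simp only [Finset.mem_filter, Finset.mem_univ, true_and, hYJ,
            SetLike.mem_coe, and_iff_right_iff_imp]
          intro hzy
          have : y - x0 = (z - x0) - (z - y) := by abel
          rw [this]; exact J.sub_mem hz.2 hzy.1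
      rw [← e2, ← d]; exact e1
    -- b1 r = j b
    have f5 : crd (C : Set G) * crd (R : Set G) = crd (J : Set G) * crd (B : Set G) := by
      have d := dcount (C : Set G) (J : Set G) (B : Set G)
      have e1 : ∑ y ∈ Finset.univ.filter (fun y => y ∈ (C : Set G)),
          (Finset.univ.filter (fun z => z ∈ (J : Set G) ∧ z - y ∈ (B : Set G))).card
          = crd (C : Set G) * crd (R : Set G) := by
        rw [Finset.sum_congr rfl (g := fun _ => crd (R : Set G)), Finset.sum_const, smul_eq_mul]
        · rfl
        · intro y hy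
          simp only [Finset.mem_filter, Finset.mem_univ, true_and, SetLike.mem_coe] at hy
          obtain ⟨j0, hj0, hyj⟩ := hJB y hy
          rw [← card_coset' R j0]
          congr 1
          ext z
          simp only [Finset.mem_filter, Finset.mem_univ, true_and, SetLike.mem_coe, hRdef,
            AddSubgroup.mem_inf]
          have e : z - y = (z - j0) + -(y - j0) := by abel
          rw [e, AddSubgroup.add_mem_cancel_right _ (B.neg_mem hyj)]
          constructor
          · rintro ⟨h1, h2⟩; exact ⟨J.sub_mem h1 hj0, h2⟩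
          · rintro ⟨h1, h2⟩
            refine ⟨?_, h2⟩
            have : z = (z - j0) + j0 := by abel
            rw [this]; exact J.add_mem h1 hj0
      have e2 : ∑ z ∈ Finset.univ.filter (fun z => z ∈ (J : Set G)),
          (Finset.univ.filter (fun y => y ∈ (C : Set G) ∧ z - y ∈ (B : Set G))).card
          = crd (J : Set G) * crd (B : Set G) := by
        rw [Finset.sum_congr rfl (g := fun _ => crd (B : Set G)), Finset.sum_const, smul_eq_mul]
        · rfl
        · intro z hz
          simp only [Finset.mem_filter, Finset.mem_univ, true_and, SetLike.mem_coe] at hz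
          rw [← card_coset B z]
          congr 1
          ext y
          simp only [Finset.mem_filter, Finset.mem_univ, true_and,
            SetLike.mem_coe, and_iff_right_iff_imp]
          intro hzy
          have : y = z - (z - y) := by abel
          rw [this]; exact C.sub_mem (hJC hz) (H.hBC hzy)
      rw [← e1, d, e2]
    have hbpos : 0 < crd (B : Set G) := Finset.card_pos.2 ⟨0, by simp⟩
    have hrpos : 0 < crd (R : Set G) := Finset.card_pos.2 ⟨0, by simp⟩
    exact arith_i hbpos (cc_pos hx0) hrpos f1 f2 hsR hrj hss f3 f4 f5 h4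
  -- R-invariance
  have hRmaj : ∀ x0 : G, crd (R : Set G) < 2 * cc (orb S true x0) R x0 := by
    intro x0
    have h1 := (main x0).1
    rcases hodd with ⟨t, ht⟩
    omega
  have hRfull : ∀ x0 : G, cc (orb S true x0) R x0 = crd (R : Set G) := by
    intro x0
    have hle : R ≤ rad (orb S true x0) := maj hRmaj (isSet_orb S true x0)
    rw [← card_coset' R x0]
    unfold cc
    congr 1
    ext y
    simp only [Finset.mem_filter, Finset.mem_univ, true_and, and_iff_right_iff_imp]
    intro h
    exact (inv_of_le_rad hle).mem_of h (mem_orb_self S true x0)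
  have hJmaj : ∀ x0 : G, crd (J : Set G) < 2 * cc (orb S true x0) J x0 :=
    fun x0 => (main x0).2 (hRfull x0)
  exact maj hJmaj hX

end

end TII
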