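import Mathlib
import Pool.Agent.Lib.MP_2c9d40_co.Count

open scoped Classical

set_option linter.unusedSectionVars false

namespace TII

/-! ### parity lemmas for finite sets with involutions -/

lemma even_card_of_invol {α : Type*} (s : Finset α) (σ : α → α) (h1 : ∀ a ∈ s, σ a ∈ s)
    (h2 : ∀ a ∈ s, σ (σ a) = a) (h3 : ∀ a ∈ s, σ a ≠ a) : Even s.card := by
  have h : ∑ _x ∈ s, (1 : ZMod 2) = 0 := by
    apply Finset.sum_involution (fun a _ => σ a)
    · intro a _; decide
    · intro a ha _; exact h3 a ha
    · intro a ha; exact h1 a ha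
    · intro a ha; exact h2 a ha
  rw [Finset.sum_const, nsmul_eq_mul, mul_one] at h
  exact (ZMod.natCast_eq_zero_iff_even).1 h

lemma card_split {α : Type*} [Fintype α] (P Q : α → Prop) [DecidablePred P] [DecidablePred Q] :
    (Finset.univ.filter P).card = (Finset.univ.filter (fun y => P y ∧ Q y)).card
      + (Finset.univ.filter (fun y => P y ∧ ¬ Q y)).card := by
  rw [← Finset.card_union_of_disjoint]
  · congr 1
    ext x
    simp only [Finset.mem_union, Finset.mem_filter, Finset.mem_univ, true_and]
    tauto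
  · rw [Finset.disjoint_left]
    intro x hx hx'
    simp only [Finset.mem_filter, Finset.mem_univ, true_and] at hx hx'
    exact hx'.2 hx.2

/-- halving along a fixed-point free involution -/
lemma card_half {α : Type*} (v : α → ℕ) (hv : Function.Injective v) (s : Finset α) (σ : α → α)
    (h1 : ∀ a ∈ s, σ a ∈ s) (h2 : ∀ a ∈ s, σ (σ a) = a) (h3 : ∀ a ∈ s, σ a ≠ a) :
    s.card = 2 * (s.filter (fun a => v a < v (σ a))).card := by
  have e1 := Finset.card_filter_add_card_filter_not (s := s) (fun a => v a < v (σ a))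
  have e2 : (s.filter (fun a => ¬ v a < v (σ a))).card
      = (s.filter (fun a => v a < v (σ a))).card := by
    apply Finset.card_bij (fun a _ => σ a)
    · intro a ha
      simp only [Finset.mem_filter] at ha ⊢
      refine ⟨h1 a ha.1, ?_⟩
      rw [h2 a ha.1]
      have : v (σ a) ≠ v a := fun h => h3 a ha.1 (hv h)
      omega
    · intro a ha b hb hab
      simp only [Finset.mem_filter] at ha hb
      rw [← h2 a ha.1, hab, h2 b hb.1]
    · intro b hb
      simp only [Finset.mem_filter] at hb
      refine ⟨σ b, ?_, h2 b hb.1⟩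
      simp only [Finset.mem_filter]
      refine ⟨h1 b hb.1, ?_⟩
      rw [h2 b hb.1]; omega
  omega

lemma four_dvd_card {α : Type*} [Fintype α] (s : Finset α) (σ τ : α → α)
    (h1 : ∀ a ∈ s, σ a ∈ s) (h2 : ∀ a ∈ s, σ (σ a) = a) (h3 : ∀ a ∈ s, σ a ≠ a)
    (t1 : ∀ a ∈ s, τ a ∈ s) (t2 : ∀ a ∈ s, τ (τ a) = a ∨ τ (τ a) = σ a)
    (t3 : ∀ a ∈ s, τ a ≠ a) (t4 : ∀ a ∈ s, τ a ≠ σ a) (t5 : ∀ a ∈ s, σ (τ a) = τ (σ a)) :
    4 ∣ s.card := by
  set v : α → ℕ := fun a => (Fintype.equivFin α a : ℕ) with hvdef
  have hv : Function.Injective v := fun a b hab =>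
    (Fintype.equivFin α).injective (Fin.ext hab)
  rw [card_half v hv s σ h1 h2 h3]
  set pick : α → α := fun b => if v b < v (σ b) then b else σ b with hpick
  have pick_or : ∀ b, pick b = b ∨ pick b = σ b := by
    intro b; simp only [hpick]; split_ifs
    · exact Or.inl rfl
    · exact Or.inr rfl
  have pick_mem : ∀ b ∈ s, pick b ∈ s := by
    intro b hb
    rcases pick_or b with h | h
    · rw [h]; exact hb
    · rw [h]; exact h1 b hb
  have pick_lt : ∀ b ∈ s, v (pick b) < v (σ (pick b)) := by
    intro b hb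
    simp only [hpick]; split_ifs with h
    · exact h
    · rw [h2 b hb]
      have : v (σ b) ≠ v b := fun h' => h3 b hb (hv h')
      omega
  have pick_self : ∀ b, v b < v (σ b) → pick b = b := by
    intro b hb; simp only [hpick]; rw [if_pos hb]
  have pick_sig : ∀ b ∈ s, pick (σ b) = pick b := by
    intro b hb
    simp only [hpick]
    rw [h2 b hb]
    have : v (σ b) ≠ v b := fun h' => h3 b hb (hv h')
    by_cases h : v b < v (σ b)
    · rw [if_pos h, if_neg (by omega)]
    · rw [if_neg h, if_pos (by omega)]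
  have hev : Even (s.filter (fun a => v a < v (σ a))).card := by
    apply even_card_of_invol _ (fun a => pick (τ a))
    · intro a ha
      simp only [Finset.mem_filter] at ha ⊢
      exact ⟨pick_mem _ (t1 a ha.1), pick_lt _ (t1 a ha.1)⟩
    · intro a ha
      simp only [Finset.mem_filter] at ha
      show pick (τ (pick (τ a))) = a
      have hh : pick (τ (τ a)) = a := by
        rcases t2 a ha.1 with h | h
        · rw [h]; exact pick_self a ha.2
        · rw [h, pick_sig a ha.1]; exact pick_self a ha.2
      rcases pick_or (τ a) with h | h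
      · rw [h, hh]
      · rw [h, ← t5 _ (t1 a ha.1), pick_sig _ (t1 _ (t1 a ha.1)), hh]
    · intro a ha
      simp only [Finset.mem_filter] at ha
      show pick (τ a) ≠ a
      rcases pick_or (τ a) with h | h
      · rw [h]; exact t3 a ha.1
      · rw [h]; intro h'
        apply t4 a ha.1
        rw [← h2 _ (t1 a ha.1), h']
  rcases hev with ⟨k, hk⟩
  exact ⟨k, by omega⟩

/-! ### Arithmetic of `ZMod (4 * h)`, `h` odd -/

section zmod

variable {h : ℕ}

/-- the element of order four -/
def Hh (h : ℕ) : ZMod (4 * h) := (h : ZMod (4 * h))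

/-- the involution -/
def ee (h : ℕ) : ZMod (4 * h) := (2 * h : ℕ)

/-- parity -/
def par (h : ℕ) : ZMod (4 * h) →+* ZMod 2 := ZMod.castHom (show 2 ∣ 4 * h from ⟨2 * h, by ring⟩) (ZMod 2)

/-- The subgroup of even elements. -/
def EE (h : ℕ) : AddSubgroup (ZMod (4 * h)) := (par h).toAddMonoidHom.ker

lemma mem_EE {x : ZMod (4 * h)} : x ∈ EE h ↔ par h x = 0 := by
  unfold EE; rw [AddMonoidHom.mem_ker]; rfl

lemma HH_add : Hh h + Hh h = ee h := by
  unfold Hh ee; push_cast; ring

lemma ee_add : ee h + ee h = 0 := by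
  unfold ee
  have : ((4 * h : ℕ) : ZMod (4 * h)) = 0 := ZMod.natCast_self _
  push_cast at this ⊢
  linear_combination this

lemma ee_ne (hh : Odd h) : ee h ≠ 0 := by
  unfold ee
  intro hc
  rw [ZMod.natCast_eq_zero_iff] at hc
  have hpos : 0 < h := hh.pos
  have := Nat.le_of_dvd (by omega) hc
  omega

lemma par_H (hh : Odd h) : par h (Hh h) = 1 := by
  unfold par Hh
  rw [map_natCast]
  exact (ZMod.natCast_eq_one_iff_odd).2 hh

lemma H_not_E (hh : Odd h) : Hh h ∉ EE h := by
  rw [mem_EE, par_H hh]; decide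

lemma par_e : par h (ee h) = 0 := by
  rw [← HH_add, map_add]
  have : ∀ x : ZMod 2, x + x = 0 := by decide
  exact this _

lemma e_mem_E : ee h ∈ EE h := by rw [mem_EE]; exact par_e

lemma par_ne {x : ZMod (4 * h)} (hx : x ∉ EE h) : par h x = 1 := by
  rw [mem_EE] at hx
  have : ∀ y : ZMod 2, y ≠ 0 → y = 1 := by decide
  exact this _ hx

lemma sub_mem_E_of_not {x y : ZMod (4 * h)} (hx : x ∉ EE h) (hy : y ∉ EE h) : x - y ∈ EE h := by
  rw [mem_EE, map_sub, par_ne hx, par_ne hy, sub_self]

lemma add_mem_E_of_not {x y : ZMod (4 * h)} (hx : x ∉ EE h) (hy : y ∉ EE h) : x + y ∈ EE h := by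
  rw [mem_EE, map_add, par_ne hx, par_ne hy]; decide

lemma double_mem_E (x : ZMod (4 * h)) : x + x ∈ EE h := by
  rw [mem_EE, map_add]
  have : ∀ x : ZMod 2, x + x = 0 := by decide
  exact this _

lemma four_H : (4 : ZMod (4 * h)) * Hh h = 0 := by
  unfold Hh
  have : ((4 * h : ℕ) : ZMod (4 * h)) = 0 := ZMod.natCast_self _
  push_cast at this
  exact this

/-- `h x` is one of `0, H, e, H + e`, and it is `H` or `H+e` for odd `x`. -/
lemma hmul_cases (hh : Odd h) (x : ZMod (4 * h)) :
    (x ∈ EE h ∧ (h • x = 0 ∨ h • x = ee h)) ∨ (x ∉ EE h ∧ (h • x = Hh h ∨ h • x = Hh h + ee h)) := by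
  have : NeZero (4 * h) := ⟨by have := hh.pos; omega⟩
  have hx : x = ((x.val : ℕ) : ZMod (4 * h)) := (ZMod.natCast_zmod_val x).symm
  set n := x.val with hn
  have hq : (n : ZMod (4 * h)) = 4 * ((n / 4 : ℕ) : ZMod (4 * h)) + ((n % 4 : ℕ) : ZMod (4 * h)) := by
    have := Nat.div_add_mod n 4
    nth_rewrite 1 [← this]
    push_cast; ring
  have hval : h • x = ((n % 4 : ℕ) : ZMod (4 * h)) * Hh h := by
    rw [nsmul_eq_mul, hx, hq]
    have h4 := four_H (h := h)
    unfold Hh at h4 ⊢
    linear_combination ((n / 4 : ℕ) : ZMod (4 * h)) * h4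
  have hpar : par h x = ((n : ℕ) : ZMod 2) := by
    rw [hx]; unfold par; rw [map_natCast]
  have hlt : n % 4 < 4 := Nat.mod_lt _ (by norm_num)
  have hpar2 : ((n : ℕ) : ZMod 2) = ((n % 4 : ℕ) : ZMod 2) := by
    have := Nat.div_add_mod n 4
    nth_rewrite 1 [← this]
    push_cast
    have : (4 : ZMod 2) = 0 := by decide
    rw [this]; ring
  rw [mem_EE, hpar, hpar2, hval]
  have hc : n % 4 = 0 ∨ n % 4 = 1 ∨ n % 4 = 2 ∨ n % 4 = 3 := by omega
  rcases hc with h0 | h0 | h0 | h0 <;> rw [h0]
  · left; exact ⟨by decide, Or.inl (by simp)⟩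
  · right; exact ⟨by decide, Or.inl (by simp)⟩
  · left; refine ⟨by decide, Or.inr ?_⟩
    rw [← HH_add]; push_cast; ring
  · right; refine ⟨by decide, Or.inr ?_⟩
    rw [← HH_add]; push_cast; ring

/-- a subgroup containing an odd element contains `H` -/
lemma H_mem_of_odd (hh : Odd h) {K : AddSubgroup (ZMod (4 * h))} {x : ZMod (4 * h)}
    (hx : x ∈ K) (hxE : x ∉ EE h) : Hh h ∈ K := by
  have h1 : h • x ∈ K := K.nsmul_mem hx h
  rcases hmul_cases hh x with ⟨h2, _⟩ | ⟨_, h2 | h2⟩
  · exact absurd h2 hxE
  · rw [← h2]; exact h1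
  · -- H + e = -H
    have : Hh h = -(h • x) := by
      rw [h2]
      have := ee_add (h := h)
      rw [← HH_add] at this ⊢
      linear_combination this
    rw [this]; exact K.neg_mem h1

lemma x_eq (hh : Odd h) (x : ZMod (4 * h)) : ∃ k : ℕ, x = h • x - k • (x + x) := by
  obtain ⟨k, hk⟩ := hh
  refine ⟨k, ?_⟩
  have hc : ((h : ℕ) : ZMod (4 * h)) = ((2 * k + 1 : ℕ) : ZMod (4 * h)) := congrArg _ hk
  push_cast at hc
  simp only [nsmul_eq_mul]
  linear_combination (-x) * hc

/-- if `H ∈ K` and `2x ∈ K` then `x ∈ K` -/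
lemma mem_of_double (hh : Odd h) {K : AddSubgroup (ZMod (4 * h))} {x : ZMod (4 * h)}
    (hH : Hh h ∈ K) (hx : x + x ∈ K) : x ∈ K := by
  obtain ⟨k, hk⟩ := x_eq hh x
  rw [hk]
  have he : ee h ∈ K := by rw [← HH_add]; exact K.add_mem hH hH
  apply K.sub_mem _ (K.nsmul_mem hx k)
  rcases hmul_cases hh x with ⟨_, h2 | h2⟩ | ⟨_, h2 | h2⟩ <;> rw [h2]
  · exact K.zero_mem
  · exact he
  · exact hH
  · exact K.add_mem hH he

lemma double_cases_e (hh : Odd h) {K : AddSubgroup (ZMod (4 * h))} {x : ZMod (4 * h)}
    (he : ee h ∈ K) (hx : x + x ∈ K) : x ∈ K ∨ x + Hh h ∈ K := by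
  obtain ⟨k, hk⟩ := x_eq hh x
  have h1 : x - h • x ∈ K := by
    have : x - h • x = -(k • (x + x)) := by nth_rewrite 1 [hk]; abel
    rw [this]; exact K.neg_mem (K.nsmul_mem hx k)
  rcases hmul_cases hh x with ⟨_, h2 | h2⟩ | ⟨_, h2 | h2⟩ <;> rw [h2] at h1
  · left; simpa using h1
  · left
    have : x = (x - ee h) + ee h := by abel
    rw [this]; exact K.add_mem h1 he
  · right
    have : x + Hh h = (x - Hh h) + (Hh h + Hh h) := by abel
    rw [this, HH_add]; exact K.add_mem h1 he
  · right
    have : x + Hh h = (x - (Hh h + ee h)) + (Hh h + Hh h) + ee h := by abel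
    rw [this, HH_add]; exact K.add_mem (K.add_mem h1 he) he

lemma double_cases_ne (hh : Odd h) {K : AddSubgroup (ZMod (4 * h))} {x : ZMod (4 * h)}
    (he : ee h ∉ K) (hx : x + x ∈ K) : x ∈ K ∨ x + ee h ∈ K := by
  obtain ⟨k, hk⟩ := x_eq hh x
  have h1 : x - h • x ∈ K := by
    have : x - h • x = -(k • (x + x)) := by nth_rewrite 1 [hk]; abel
    rw [this]; exact K.neg_mem (K.nsmul_mem hx k)
  have h3 : h • x + h • x ∈ K := by
    have : h • x + h • x = (x + x) - ((x - h • x) + (x - h • x)) := by abel
    rw [this]; exact K.sub_mem hx (K.add_mem h1 h1)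
  rcases hmul_cases hh x with ⟨_, h2 | h2⟩ | ⟨_, h2 | h2⟩ <;> rw [h2] at h1 h3
  · left; simpa using h1
  · right
    have : x + ee h = (x - ee h) + (ee h + ee h) := by abel
    rw [this, ee_add, add_zero]; exact h1
  · exact absurd (by rwa [HH_add] at h3) he
  · exfalso; apply he
    have : Hh h + ee h + (Hh h + ee h) = (Hh h + Hh h) + (ee h + ee h) := by abel
    rw [this, ee_add, HH_add, add_zero] at h3
    exact h3

lemma double_zero (hh : Odd h) {x : ZMod (4 * h)} (hx : x + x = 0) : x = 0 ∨ x = ee h := by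
  have h1 : x + x ∈ (⊥ : AddSubgroup (ZMod (4 * h))) := by simpa using hx
  rcases double_cases_ne hh (K := ⊥) (by simpa using ee_ne hh) h1 with h0 | h0
  · left; simpa using h0
  · right
    have h' : x + ee h = 0 := by simpa using h0
    have := ee_add (h := h)
    have h2 : x + ee h = ee h + ee h := by rw [h', this]
    exact add_right_cancel h2

lemma double_e (hh : Odd h) {x : ZMod (4 * h)} (hx : x + x = ee h) :
    x = Hh h ∨ x = Hh h + ee h := by
  have h1 : (x - Hh h) + (x - Hh h) = 0 := by
    have : (x - Hh h) + (x - Hh h) = (x + x) - (Hh h + Hh h) := by abel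
    rw [this, hx, HH_add, sub_self]
  rcases double_zero hh h1 with h | h
  · left; exact sub_eq_zero.1 h
  · right; rw [← h]; abel

/-! ### Schur's theorem for `p = 2` -/

variable [NeZero (4 * h)] {S : Sys (ZMod (4 * h))}

lemma schur_odd (hh : Odd h) {X : Set (ZMod (4 * h))} {g : ZMod (4 * h)} :
    (Odd (cntp X g) → g ∈ EE h) ∧
    (∀ x ∈ X, x + ee h ∉ X → g = x + x → Odd (cntp X g)) := by
  have hev : Even (Finset.univ.filter (fun y => (y ∈ X ∧ g - y ∈ X) ∧ ¬ y + y = g)).card := by
    apply even_card_of_invol _ (fun y => g - y)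
    · intro y hy
      simp only [Finset.mem_filter, Finset.mem_univ, true_and] at hy ⊢
      refine ⟨⟨hy.1.2, by simpa using hy.1.1⟩, fun hc => hy.2 ?_⟩
      have : y + y = g + g - (g - y + (g - y)) := by abel
      rw [this, hc]; abel
    · intro y _; simp
    · intro y hy
      simp only [Finset.mem_filter, Finset.mem_univ, true_and] at hy
      intro hc
      apply hy.2
      nth_rewrite 1 [← hc]; abel
  have hsplit : cntp X g = (Finset.univ.filter (fun y => (y ∈ X ∧ g - y ∈ X) ∧ y + y = g)).card
      + (Finset.univ.filter (fun y => (y ∈ X ∧ g - y ∈ X) ∧ ¬ y + y = g)).card := by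
    unfold cntp
    convert card_split (fun y => y ∈ X ∧ g - y ∈ X) (fun y => y + y = g)
  constructor
  · intro hodd
    rw [hsplit] at hodd
    have h1 : (Finset.univ.filter (fun y => (y ∈ X ∧ g - y ∈ X) ∧ y + y = g)).card ≠ 0 := by
      intro h0
      rw [h0, zero_add] at hodd
      exact (Nat.not_even_iff_odd.2 hodd) hev
    obtain ⟨y, hy⟩ := Finset.card_pos.1 (Nat.pos_of_ne_zero h1)
    simp only [Finset.mem_filter, Finset.mem_univ, true_and] at hy
    rw [← hy.2]; exact double_mem_E y
  · intro x hx hxe hg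
    rw [hsplit]
    have h1 : Finset.univ.filter (fun y => (y ∈ X ∧ g - y ∈ X) ∧ y + y = g) = {x} := by
      ext y
      simp only [Finset.mem_filter, Finset.mem_univ, true_and, Finset.mem_singleton]
      constructor
      · rintro ⟨⟨hy, _⟩, hyy⟩
        have h2 : (y - x) + (y - x) = 0 := by
          have : (y - x) + (y - x) = (y + y) - (x + x) := by abel
          rw [this, hyy, hg, sub_self]
        rcases double_zero hh h2 with h' | h'
        · exact sub_eq_zero.1 h'
        · exfalso; apply hxe
          have : x + ee h = y := by rw [← h']; abel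
          rw [this]; exact hy
      · rintro rfl
        exact ⟨⟨hx, by rw [hg]; simpa using hx⟩, hg.symm⟩
    rw [h1, Finset.card_singleton, add_comm]
    exact hev.add_one

lemma schur_four (hh : Odd h) {X : Set (ZMod (4 * h))} (hXe : ∀ x ∈ X, x + ee h ∈ X)
    {g : ZMod (4 * h)} :
    (cntp X g % 4 = 2 → g ∈ EE h) ∧
    (∀ x ∈ X, x + Hh h ∉ X → g = x + x → cntp X g % 4 = 2) := by
  have hee := ee_add (h := h)
  have hXe' : ∀ x, x + ee h ∈ X ↔ x ∈ X := by
    intro x
    refine ⟨fun hx => ?_, hXe x⟩
    have := hXe _ hx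
    rwa [add_assoc, hee, add_zero] at this
  have hXe'' : ∀ x, x - ee h ∈ X ↔ x ∈ X := by
    intro x
    rw [← hXe' (x - ee h)]; simp
  set F : ZMod (4 * h) → Prop := fun y => y + y = g ∨ y + y = g + ee h with hF
  have hdvd : 4 ∣ (Finset.univ.filter (fun y => (y ∈ X ∧ g - y ∈ X) ∧ ¬ F y)).card := by
    apply four_dvd_card _ (fun y => y + ee h) (fun y => g - y)
    · intro y hy
      simp only [Finset.mem_filter, Finset.mem_univ, true_and] at hy ⊢
      refine ⟨⟨(hXe' y).2 hy.1.1, ?_⟩, fun hc => hy.2 ?_⟩
      · have : g - (y + ee h) = (g - y) - ee h := by abel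
        rw [this, hXe'']; exact hy.1.2
      · have e1 : y + ee h + (y + ee h) = y + y := by
          have : y + ee h + (y + ee h) = y + y + (ee h + ee h) := by abel
          rw [this, hee, add_zero]
        simpa only [hF, e1] using hc
    · intro y _
      show y + ee h + ee h = y
      rw [add_assoc, hee, add_zero]
    · intro y _ hc
      have : ee h = 0 := by simpa using hc
      exact ee_ne hh this
    · intro y hy
      simp only [Finset.mem_filter, Finset.mem_univ, true_and] at hy ⊢
      refine ⟨⟨hy.1.2, by simpa using hy.1.1⟩, fun hc => hy.2 ?_⟩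
      rcases hc with hc | hc
      · left
        have : y + y = g + g - (g - y + (g - y)) := by abel
        rw [this, hc]; abel
      · right
        have : y + y = g + g - (g - y + (g - y)) := by abel
        rw [this, hc]
        have e2 : g + g - (g + ee h) = g + ee h - (ee h + ee h) := by abel
        rw [e2, hee, sub_zero]
    · intro y _; left; simp
    · intro y hy hc
      simp only [Finset.mem_filter, Finset.mem_univ, true_and] at hy
      apply hy.2; left
      have hc' : g - y = y := hc
      nth_rewrite 1 [← hc']; abel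
    · intro y hy hc
      simp only [Finset.mem_filter, Finset.mem_univ, true_and] at hy
      apply hy.2; right
      have hc' : g - y = y + ee h := hc
      have : g = y + y + ee h := by
        have : g = (g - y) + y := by abel
        rw [this, hc']; abel
      rw [this, add_assoc, hee, add_zero]
    · intro y _
      show g - y + ee h = g - (y + ee h)
      have : g - (y + ee h) = g - y + ee h - (ee h + ee h) := by abel
      rw [this, hee, sub_zero]
  have hsplit : cntp X g = (Finset.univ.filter (fun y => (y ∈ X ∧ g - y ∈ X) ∧ F y)).card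
      + (Finset.univ.filter (fun y => (y ∈ X ∧ g - y ∈ X) ∧ ¬ F y)).card := by
    unfold cntp
    convert card_split (fun y => y ∈ X ∧ g - y ∈ X) F
  constructor
  · intro h4
    have h1 : (Finset.univ.filter (fun y => (y ∈ X ∧ g - y ∈ X) ∧ F y)).card ≠ 0 := by
      intro h0
      rw [hsplit, h0, zero_add] at h4
      omega
    obtain ⟨y, hy⟩ := Finset.card_pos.1 (Nat.pos_of_ne_zero h1)
    simp only [Finset.mem_filter, Finset.mem_univ, true_and] at hy
    rcases hy.2 with h2 | h2
    · rw [← h2]; exact double_mem_E y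
    · have : g = (y + y) - ee h := by rw [h2]; abel
      rw [this]; exact (EE h).sub_mem (double_mem_E y) e_mem_E
  · intro x hx hxH hg
    have h1 : Finset.univ.filter (fun y => (y ∈ X ∧ g - y ∈ X) ∧ F y) = {x, x + ee h} := by
      ext y
      simp only [Finset.mem_filter, Finset.mem_univ, true_and, Finset.mem_insert,
        Finset.mem_singleton]
      constructor
      · rintro ⟨⟨hy, _⟩, hyy | hyy⟩
        · have h2 : (y - x) + (y - x) = 0 := by
            have : (y - x) + (y - x) = (y + y) - (x + x) := by abel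
            rw [this, hyy, hg, sub_self]
          rcases double_zero hh h2 with h | h
          · left; exact sub_eq_zero.1 h
          · right; rw [← h]; abel
        · exfalso
          have h2 : (y - x) + (y - x) = ee h := by
            have : (y - x) + (y - x) = (y + y) - (x + x) := by abel
            rw [this, hyy, hg]; abel
          rcases double_e hh h2 with h | h
          · apply hxH
            have : x + Hh _ = y := by rw [← h]; abel
            rw [this]; exact hy
          · apply hxH
            rw [← hXe']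
            have : x + Hh _ + ee _ = y := by rw [add_assoc, ← h]; abel
            rw [this]; exact hy
      · rintro (rfl | rfl)
        · exact ⟨⟨hx, by rw [hg]; simpa using hx⟩, Or.inl hg.symm⟩
        · refine ⟨⟨(hXe' x).2 hx, ?_⟩, Or.inl ?_⟩
          · rw [hg]
            have : x + x - (x + ee h) = x - ee h := by abel
            rw [this, hXe'']; exact hx
          · have : x + ee h + (x + ee h) = x + x + (ee h + ee h) := by abel
            rw [this, hee, add_zero, hg]
    have h2 : (Finset.univ.filter (fun y => (y ∈ X ∧ g - y ∈ X) ∧ F y)).card = 2 := by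
      rw [h1, Finset.card_pair]
      intro hc
      apply ee_ne hh
      have : x + 0 = x + ee h := by rw [add_zero]; exact hc
      exact (add_left_cancel this).symm
    rw [hsplit, h2]
    obtain ⟨k, hk⟩ := hdvd
    rw [hk]; omega

end zmod

end TII
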