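import Mathlib

/-!
Definitions for MP_2c9d40_co: circulant graphs, canonical double covers, stability, two-fold
automorphisms and Type II.
-/

namespace Pool.Agent.Lib.MP_2c9d40_co

/-- Connection sets: subsets `S` of `ℤ_n` with `0 ∉ S` and `S = -S`. -/
structure ConnSet (n : ℕ) where
  carrier : Set (ZMod n)
  zero_notMem : (0 : ZMod n) ∉ carrier
  neg_mem : ∀ x ∈ carrier, -x ∈ carrier

/-- The circulant graph `Cay(ℤ_n, S)`: `x ∼ y` iff `y - x ∈ S`. -/
def Cay {n : ℕ} (S : ConnSet n) : SimpleGraph (ZMod n) where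
  Adj x y := y - x ∈ S.carrier
  symm := ⟨fun x y h => by
    have := S.neg_mem _ h
    rwa [neg_sub] at this⟩
  loopless := ⟨fun x h => S.zero_notMem (by rwa [sub_self] at h)⟩

/-- The canonical double cover `Γ × K₂`: vertex set `V × {0,1}` (here `V × ZMod 2`), with
`(a,i) ∼ (b,j)` iff `a ∼ b` and `i ≠ j`. -/
def doubleCover {V : Type*} (Γ : SimpleGraph V) : SimpleGraph (V × ZMod 2) where
  Adj p q := Γ.Adj p.1 q.1 ∧ p.2 ≠ q.2
  symm := ⟨fun _ _ h => ⟨h.1.symm, h.2.symm⟩⟩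
  loopless := ⟨fun _ h => h.2 rfl⟩

/-- `Γ` is stable if `Aut(Γ × K₂)` is isomorphic to `Aut(Γ) × ℤ₂`. -/
def Stable {V : Type*} (Γ : SimpleGraph V) : Prop :=
  Nonempty ((doubleCover Γ ≃g doubleCover Γ) ≃* ((Γ ≃g Γ) × Multiplicative (ZMod 2)))

/-- Distinct vertices have distinct neighbourhoods. -/
def TwinFree {V : Type*} (Γ : SimpleGraph V) : Prop :=
  ∀ x y : V, Γ.neighborSet x = Γ.neighborSet y → x = y

/-- Nontrivially unstable: unstable, connected, non-bipartite and twin-free. -/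
def NontriviallyUnstable {V : Type*} (Γ : SimpleGraph V) : Prop :=
  ¬ Stable Γ ∧ Γ.Connected ∧ ¬ Γ.IsBipartite ∧ TwinFree Γ

/-- `(α, β)` is a TF-morphism (two-fold automorphism) of `Γ`. -/
def IsTF {V : Type*} (Γ : SimpleGraph V) (α β : Equiv.Perm V) : Prop :=
  ∀ x y : V, Γ.Adj x y ↔ Γ.Adj (α x) (β y)

/-- The subgroup `2 ℤ_n` of `ℤ_n`. -/
def evens (n : ℕ) : AddSubgroup (ZMod n) := AddSubgroup.zmultiples (2 : ZMod n)

/-- The condition defining Type II: for every nontrivial TF-morphism `(α, β)` at least one of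
`α`, `β` does not map the subgroup `2 ℤ_n` onto itself. -/
def TypeII {n : ℕ} (S : ConnSet n) : Prop :=
  ∀ α β : Equiv.Perm (ZMod n), IsTF (Cay S) α β → α ≠ β →
    (α '' (evens n : Set (ZMod n)) ≠ (evens n : Set (ZMod n)) ∨
      β '' (evens n : Set (ZMod n)) ≠ (evens n : Set (ZMod n)))

/-- The connection set `T = (S \ {2h}) + 2h` of `ℤ_{4h}`. -/
def shifted (h : ℕ) (S : ConnSet (4 * h)) : ConnSet (4 * h) where
  carrier := {x | ∃ s ∈ S.carrier \ {((2 * h : ℕ) : ZMod (4 * h))},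
    x = s + ((2 * h : ℕ) : ZMod (4 * h))}
  zero_notMem := by
    rintro ⟨s, ⟨hs, hs'⟩, h0⟩
    apply hs'
    have h4 : ((4 * h : ℕ) : ZMod (4 * h)) = 0 := ZMod.natCast_self _
    push_cast at h4 h0
    show s = ((2 * h : ℕ) : ZMod (4 * h))
    push_cast
    linear_combination -h0 - h4
  neg_mem := by
    rintro x ⟨s, ⟨hs, hs'⟩, rfl⟩
    have h4 : ((4 * h : ℕ) : ZMod (4 * h)) = 0 := ZMod.natCast_self _
    push_cast at h4
    refine ⟨-s, ⟨S.neg_mem s hs, ?_⟩, ?_⟩
    · intro hc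
      apply hs'
      have hc' : -s = ((2 * h : ℕ) : ZMod (4 * h)) := hc
      show s = ((2 * h : ℕ) : ZMod (4 * h))
      push_cast at hc' ⊢
      linear_combination -hc' - h4
    · push_cast
      linear_combination -h4

end Pool.Agent.Lib.MP_2c9d40_co
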