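import Mathlib
import Pool.Agent.Lib.MP_2c9d40_co.Arith

open scoped Classical

set_option linter.unusedSectionVars false

namespace TII

variable {h : ℕ}

lemma perm_apply_inv {α : Type*} (σ : Equiv.Perm α) (x : α) : σ (σ⁻¹ x) = x := by simp

lemma perm_inv_apply {α : Type*} (σ : Equiv.Perm α) (x : α) : σ⁻¹ (σ x) = x := by simp

/-- The situation of the problem. -/
structure Ctx (h : ℕ) (S : Sys (ZMod (4 * h))) (Sg : Set (ZMod (4 * h))) : Prop where
  odd : Odd h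
  mem : ∀ p : Equiv.Perm (ZMod (4 * h)) × Equiv.Perm (ZMod (4 * h)),
    p ∈ S.L ↔ ∀ x y, p.2 y - p.1 x ∈ Sg ↔ y - x ∈ Sg
  t2 : ∀ p ∈ S.L, (∀ x, p.1 x ∈ EE h ↔ x ∈ EE h) → (∀ x, p.2 x ∈ EE h ↔ x ∈ EE h) → p.1 = p.2
  unst : ∃ p ∈ S.L, p.1 ≠ p.2
  tw : ¬ ∀ x, x + ee h ∈ Sg ↔ x ∈ Sg

/-- The largest invariant subgroup inside the even elements. -/
def BB (S : Sys (ZMod (4 * h))) : AddSubgroup (ZMod (4 * h)) :=
  AddSubgroup.closure {x | ∃ K : AddSubgroup (ZMod (4 * h)),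
    IsSet S false (K : Set (ZMod (4 * h))) ∧ K ≤ EE h ∧ x ∈ K}

variable {S : Sys (ZMod (4 * h))} {Sg : Set (ZMod (4 * h))}

lemma BB_isSet : IsSet S false (BB S : Set (ZMod (4 * h))) := by
  apply isSet_closure
  rintro p hp h0 x ⟨K, hK, hKE, hx⟩
  exact ⟨K, hK, hKE, hK p hp h0 x hx⟩

lemma BB_le : BB S ≤ EE h := by
  unfold BB
  rw [AddSubgroup.closure_le]
  rintro x ⟨K, hK, hKE, hx⟩
  exact hKE hx

lemma BB_max {K : AddSubgroup (ZMod (4 * h))} (hK : IsSet S false (K : Set (ZMod (4 * h))))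
    (hKE : K ≤ EE h) : K ≤ BB S :=
  fun _ hx => AddSubgroup.subset_closure ⟨K, hK, hKE, hx⟩

lemma mem_BB_of_set {Y : Set (ZMod (4 * h))} (hY : IsSet S false Y) (hYE : Y ⊆ EE h) :
    Y ⊆ BB S := by
  have h1 : AddSubgroup.closure Y ≤ BB S := by
    apply BB_max (isSet_closure hY)
    rw [AddSubgroup.closure_le]; exact hYE
  exact fun x hx => h1 (AddSubgroup.subset_closure hx)

variable [NeZero (4 * h)]

lemma P2 (hh : Odd h) {i : Bool} {X : Set (ZMod (4 * h))} (hX : IsSet S i X)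
    {x : ZMod (4 * h)} (hx : x ∈ X) (hxe : x + ee h ∉ X) : x + x ∈ BB S := by
  have h1 : IsSet S false {g | Odd (cntp X g)} := isSet_cntp hX (fun n => Odd n)
  have h2 : {g | Odd (cntp X g)} ⊆ (EE h : Set (ZMod (4 * h))) :=
    fun g hg => (schur_odd hh).1 hg
  exact mem_BB_of_set h1 h2 ((schur_odd hh).2 x hx hxe rfl)

lemma P2' (hh : Odd h) {i : Bool} {X : Set (ZMod (4 * h))} (hX : IsSet S i X)
    (hXe : ∀ x ∈ X, x + ee h ∈ X)
    {x : ZMod (4 * h)} (hx : x ∈ X) (hxe : x + Hh h ∉ X) : x + x ∈ BB S := by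
  have h1 : IsSet S false {g | cntp X g % 4 = 2} := isSet_cntp hX (fun n => n % 4 = 2)
  have h2 : {g | cntp X g % 4 = 2} ⊆ (EE h : Set (ZMod (4 * h))) :=
    fun g hg => (schur_four hh hXe).1 hg
  exact mem_BB_of_set h1 h2 ((schur_four hh hXe).2 x hx hxe rfl)

lemma hyp_e (hh : Odd h) (he : ee h ∉ BB S) : Hyp S (BB S) (ee h) where
  hB := BB_isSet
  hf := he
  h2f := by rw [ee_add]; exact (BB S).zero_mem
  P := by
    intro i X hX _ x hx
    by_cases hxe : x + ee h ∈ X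
    · exact Or.inl hxe
    · exact Or.inr (double_cases_ne hh he (P2 hh hX hx hxe))

lemma hyp_H (hh : Odd h) (he : ee h ∈ BB S) : Hyp S (BB S) (Hh h) where
  hB := BB_isSet
  hf := fun hc => H_not_E hh (BB_le hc)
  h2f := by rw [HH_add]; exact he
  P := by
    intro i X hX hXB x hx
    by_cases hxe : x + Hh h ∈ X
    · exact Or.inl hxe
    · exact Or.inr (double_cases_e hh he (P2' hh hX (fun y hy => hXB _ he y hy) hx hxe))

/-! ### The normal subgroup `N` -/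

/-- elements of `L` moving every vertex inside its `B`-coset -/
def NN (S : Sys (ZMod (4 * h))) (p : Equiv.Perm (ZMod (4 * h)) × Equiv.Perm (ZMod (4 * h))) :
    Prop := p ∈ S.L ∧ ∀ i x, sel i p x - x ∈ BB S

lemma NN_eq (C : Ctx h S Sg) {p : Equiv.Perm (ZMod (4 * h)) × Equiv.Perm (ZMod (4 * h))}
    (hp : NN S p) : p.1 = p.2 := by
  have key : ∀ i x, sel i p x ∈ EE h ↔ x ∈ EE h := by
    intro i x
    have h1 := BB_le (hp.2 i x)
    constructor
    · intro h2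
      have : x = sel i p x - (sel i p x - x) := by abel
      rw [this]; exact (EE h).sub_mem h2 h1
    · intro h2
      have : sel i p x = (sel i p x - x) + x := by abel
      rw [this]; exact (EE h).add_mem h1 h2
  exact C.t2 p hp.1 (key false) (key true)

lemma NN_conj {p q : Equiv.Perm (ZMod (4 * h)) × Equiv.Perm (ZMod (4 * h))}
    (hp : p ∈ S.L) (hq : NN S q) : NN S (p * q * p⁻¹) := by
  refine ⟨S.L.mul_mem (S.L.mul_mem hp hq.1) (S.L.inv_mem hp), ?_⟩
  intro i x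
  rw [sel_mul, sel_mul]
  have h1 := hq.2 i (sel i p⁻¹ x)
  have hB : IsSet S (xor i i) (BB S : Set (ZMod (4 * h))) := by simpa using BB_isSet
  have h2 := rel_fwd hB hp h1
  rwa [sel_apply_inv_self] at h2

lemma NN_conj' {p q : Equiv.Perm (ZMod (4 * h)) × Equiv.Perm (ZMod (4 * h))}
    (hp : p ∈ S.L) (hq : NN S q) : NN S (p⁻¹ * q * p) := by
  have := NN_conj (S.L.inv_mem hp) hq
  rwa [inv_inv] at this

lemma NN_mul {p q : Equiv.Perm (ZMod (4 * h)) × Equiv.Perm (ZMod (4 * h))}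
    (hp : NN S p) (hq : NN S q) : NN S (p * q) := by
  refine ⟨S.L.mul_mem hp.1 hq.1, ?_⟩
  intro i x
  rw [sel_mul]
  have : sel i p (sel i q x) - x = (sel i p (sel i q x) - sel i q x) + (sel i q x - x) := by abel
  rw [this]; exact (BB S).add_mem (hp.2 _ _) (hq.2 _ _)

/-- translation pair -/
def tt (g : ZMod (4 * h)) : Equiv.Perm (ZMod (4 * h)) × Equiv.Perm (ZMod (4 * h)) :=
  ((Equiv.addRight g : Equiv.Perm (ZMod (4 * h))), (Equiv.addRight g : Equiv.Perm (ZMod (4 * h))))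

lemma tt_mem (g : ZMod (4 * h)) : tt g ∈ S.L := S.trans g

lemma sel_tt (i : Bool) (g x : ZMod (4 * h)) : sel i (tt g) x = x + g := by
  cases i <;> simp [sel, tt]

lemma NN_tt {g : ZMod (4 * h)} (hg : g ∈ BB S) : NN S (tt g) := by
  refine ⟨tt_mem g, ?_⟩
  intro i x
  rw [sel_tt]; simpa using hg

/-- The subgroup `D`. -/
def DD (S : Sys (ZMod (4 * h))) : AddSubgroup (ZMod (4 * h)) where
  carrier := {w | ∀ q, NN S q → ∀ x, q.1 x = x ↔ q.1 (x + w) = x + w}
  zero_mem' := by intro q _ x; simp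
  add_mem' := by
    intro a b ha hb q hq x
    rw [ha q hq x, hb q hq (x + a), add_assoc]
  neg_mem' := by
    intro a ha q hq x
    have := ha q hq (x + -a)
    rw [neg_add_cancel_right] at this
    exact this.symm

lemma isSet_negT {X : Set (ZMod (4 * h))} (hX : IsSet S true X) : IsSet S true {x | -x ∈ X} := by
  intro p hp h0 x hx
  have h' : IsSet S (xor true false) X := hX
  have h1 := rel_fwd (x := x) (y := 0) h' hp (by simpa using hx)
  simpa [h0] using h1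

lemma W_neg {w : ZMod (4 * h)} (hw : w ∈ orb S true 0) : -w ∈ orb S true 0 := by
  have h1 : IsSet S true {x | -x ∈ orb S true 0} := isSet_negT (isSet_orb S true 0)
  have h2 : (0 : ZMod (4 * h)) ∈ {x | -x ∈ orb S true 0} := by
    simpa using mem_orb_self S true (0 : ZMod (4 * h))
  exact orb_subset h1 h2 hw

lemma W_fwd (C : Ctx h S Sg) {w : ZMod (4 * h)} (hw : w ∈ orb S true 0)
    {q : Equiv.Perm (ZMod (4 * h)) × Equiv.Perm (ZMod (4 * h))} (hq : NN S q)
    {x : ZMod (4 * h)} (hx : q.1 x = x) : q.1 (x + w) = x + w := by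
  obtain ⟨p, hp, hp0, hpw⟩ := hw
  simp only [sel_true] at hpw
  have hq' : NN S (tt (-x) * q * (tt (-x))⁻¹) := NN_conj (tt_mem _) hq
  set q' := tt (-x) * q * (tt (-x))⁻¹ with hq'def
  have hq'1 : ∀ y, q'.1 y = q.1 (y + x) - x := by
    intro y
    rw [hq'def]
    simp [tt, sub_eq_add_neg]
  have h1 : NN S (p⁻¹ * q' * p) := NN_conj' hp hq'
  have h2 := NN_eq C h1
  have h3 : (p⁻¹ * q' * p).1 0 = 0 := by
    show p.1⁻¹ (q'.1 (p.1 0)) = 0
    rw [hp0, hq'1, zero_add, hx, sub_self]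
    rw [Equiv.Perm.inv_eq_iff_eq]; exact hp0.symm
  rw [h2] at h3
  have h4 : p.2⁻¹ (q'.2 (p.2 0)) = 0 := h3
  rw [Equiv.Perm.inv_eq_iff_eq, hpw, ← NN_eq C hq', hq'1] at h4
  have : q.1 (w + x) = w + x := by rw [← sub_eq_iff_eq_add]; exact h4
  rwa [add_comm w x] at this

lemma W_sub_DD (C : Ctx h S Sg) : orb S true 0 ⊆ (DD S : Set (ZMod (4 * h))) := by
  intro w hw q hq x
  constructor
  · exact W_fwd C hw hq
  · intro hx
    have := W_fwd C (W_neg hw) hq hx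
    simpa using this

lemma isSet_DD : IsSet S false (DD S : Set (ZMod (4 * h))) := by
  intro p hp h0 w hw q hq x
  simp only [sel_false]
  have hpx : tt x * p ∈ S.L := S.L.mul_mem (tt_mem x) hp
  have h1 : NN S ((tt x * p)⁻¹ * q * (tt x * p)) := NN_conj' hpx hq
  have h2 := hw _ h1 0
  have e1 : ∀ y, ((tt x * p)⁻¹ * q * (tt x * p)).1 y = (tt x * p).1⁻¹ (q.1 ((tt x * p).1 y)) :=
    fun y => rfl
  have e2 : ∀ y, (tt x * p).1 y = p.1 y + x := fun y => by simp [tt]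
  rw [e1, e1, Equiv.Perm.inv_eq_iff_eq, Equiv.Perm.inv_eq_iff_eq, e2, e2, h0, zero_add, zero_add]
    at h2
  rw [add_comm x]
  exact h2

lemma e_mem_DD (C : Ctx h S Sg) (hW : ¬ orb S true 0 ⊆ (BB S : Set (ZMod (4 * h)))) :
    Hh h ∈ DD S := by
  have h1 : ¬ DD S ≤ EE h := by
    intro hc
    apply hW
    intro w hw
    exact BB_max isSet_DD hc (W_sub_DD C hw)
  rw [SetLike.not_le_iff_exists] at h1
  obtain ⟨x, hx, hxE⟩ := h1
  exact H_mem_of_odd C.odd hx hxE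

lemma e_fix_of_DD (C : Ctx h S Sg) (hW : ¬ orb S true 0 ⊆ (BB S : Set (ZMod (4 * h))))
    (he : ee h ∈ BB S) {p : Equiv.Perm (ZMod (4 * h)) × Equiv.Perm (ZMod (4 * h))}
    (hp : p ∈ S.L) (hp0 : p.1 0 = 0) : p.1 (ee h) = ee h := by
  have heD : ee h ∈ DD S := by
    rw [← HH_add]; exact (DD S).add_mem (e_mem_DD C hW) (e_mem_DD C hW)
  set c := p.1 (ee h) with hc
  have hcB : c ∈ BB S := BB_isSet p hp hp0 _ he
  have hcD : c ∈ DD S := isSet_DD p hp hp0 _ heD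
  have hν : NN S (tt (-c) * (p * tt (ee h) * p⁻¹)) :=
    NN_mul (NN_tt ((BB S).neg_mem hcB)) (NN_conj hp (NN_tt he))
  have hval : ∀ y, (tt (-c) * (p * tt (ee h) * p⁻¹)).1 (p.1 y) = p.1 (y + ee h) - c := by
    intro y
    show (tt (-c)).1 (p.1 ((tt (ee h)).1 (p.1⁻¹ (p.1 y)))) = _
    simp [tt, sub_eq_add_neg]
  have h0 : (tt (-c) * (p * tt (ee h) * p⁻¹)).1 0 = 0 := by
    have := hval 0
    rw [hp0, zero_add] at this
    rw [this, hc, sub_self]
  have h1 := (hcD _ hν 0).1 h0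
  rw [zero_add] at h1
  have h2 := hval (ee h)
  rw [← hc, h1, ee_add, hp0, zero_sub] at h2
  have h3 : c + c = 0 := by nth_rewrite 1 [h2]; abel
  rcases double_zero C.odd h3 with h4 | h4
  · exfalso
    apply ee_ne C.odd
    apply p.1.injective
    rw [hp0, ← hc, h4]
  · exact h4

/-- case (ii): `W ⊆ B` -/
lemma case_ii_diff (C : Ctx h S Sg) (hW : orb S true 0 ⊆ (BB S : Set (ZMod (4 * h))))
    {p : Equiv.Perm (ZMod (4 * h)) × Equiv.Perm (ZMod (4 * h))}
    (hp : p ∈ S.L) (x : ZMod (4 * h)) :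
    p.2 x - p.1 x ∈ BB S ∧ (p.2 x = p.1 x ∨ p.2 x = p.1 x + ee h) := by
  have hd : ∀ y, p.2 y - p.1 y ∈ BB S := by
    intro y
    have h' : IsSet S (xor false true) (orb S true 0) := isSet_orb S true 0
    have := rel_fwd (x := y) (y := y) h' hp (by rw [sub_self]; exact mem_orb_self S true 0)
    exact hW this
  have hm : NN S (p.swap * p⁻¹) := by
    refine ⟨S.L.mul_mem (S.swap hp) (S.L.inv_mem hp), ?_⟩
    intro i y
    cases i
    · show p.2 (p.1⁻¹ y) - y ∈ BB S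
      have := hd (p.1⁻¹ y)
      rwa [perm_apply_inv] at this
    · show p.1 (p.2⁻¹ y) - y ∈ BB S
      have := hd (p.2⁻¹ y)
      rw [perm_apply_inv] at this
      rw [← neg_sub]; exact (BB S).neg_mem this
  have hm1 := NN_eq C hm
  have hmx : ∀ y, p.2 (p.1⁻¹ y) = p.1 (p.2⁻¹ y) := fun y => by
    have := congrArg (fun (f : Equiv.Perm (ZMod (4 * h))) => f y) hm1
    exact this
  set b := p.2 x - p.1 x with hb
  have hbB : b ∈ BB S := hd x
  have hcomm : ∀ y, p.1⁻¹ (p.1 y + b) = p.2⁻¹ (p.2 y + b) := by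
    intro y
    have h1 := NN_eq C (NN_conj' hp (NN_tt hbB))
    have := congrArg (fun (f : Equiv.Perm (ZMod (4 * h))) => f y) h1
    have e1 : (p⁻¹ * tt b * p).1 y = p.1⁻¹ (p.1 y + b) := by
      show p.1⁻¹ ((tt b).1 (p.1 y)) = _
      simp [tt]
    have e2 : (p⁻¹ * tt b * p).2 y = p.2⁻¹ (p.2 y + b) := by
      show p.2⁻¹ ((tt b).2 (p.2 y)) = _
      simp [tt]
    rw [← e1, ← e2]; exact this
  -- b + b = 0
  have hbb : b + b = 0 := by
    -- m(p1 x) = p2 x = p1 x + b ; m (p1 x + b) = m(p1 x) + b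
    have e1 : p.2 (p.1⁻¹ (p.1 x + b)) = p.2 x + b := by
      rw [hcomm x, perm_apply_inv]
    have e2 : p.1 x + b = p.2 x := by rw [hb]; abel
    rw [e2] at e1
    -- p2 (p1⁻¹ (p2 x)) = p2 x + b ; but = p1 (p2⁻¹ (p2 x)) = p1 x
    rw [hmx, perm_inv_apply] at e1
    have : b + b = (p.2 x + b) - p.1 x := by rw [hb]; abel
    rw [this, ← e1, sub_self]
  refine ⟨hbB, ?_⟩
  rcases double_zero C.odd hbb with h1 | h1
  · left; exact sub_eq_zero.1 h1
  · right; rw [← h1, hb]; abel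

lemma case_ii_e (C : Ctx h S Sg) (hW : orb S true 0 ⊆ (BB S : Set (ZMod (4 * h)))) :
    ee h ∈ BB S ∧ ∀ p ∈ S.L, p.1 0 = 0 → p.1 (ee h) = ee h := by
  obtain ⟨p, hp, hne⟩ := C.unst
  have : ∃ x, p.1 x ≠ p.2 x := by
    by_contra hcon
    push Not at hcon
    exact hne (Equiv.ext hcon)
  obtain ⟨x, hx⟩ := this
  have hpx : p.2 x = p.1 x + ee h := by
    rcases (case_ii_diff C hW hp x).2 with h1 | h1
    · exact absurd h1.symm hx
    · exact h1
  have hee : ee h ∈ BB S := by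
    have := (case_ii_diff C hW hp x).1
    rw [hpx] at this; simpa using this
  refine ⟨hee, ?_⟩
  -- e ∈ W
  have heW : ee h ∈ orb S true 0 := by
    refine ⟨tt (-(p.1 x)) * p * tt x, S.L.mul_mem (S.L.mul_mem (tt_mem _) hp) (tt_mem _), ?_, ?_⟩
    · simp [tt]
    · simp [tt, hpx]
  have hW2 : ∀ w ∈ orb S true 0, w = 0 ∨ w = ee h := by
    rintro w ⟨q, hq, hq0, hqw⟩
    rcases (case_ii_diff C hW hq 0).2 with h1 | h1
    · left; rw [← hqw, sel_true, h1, hq0]
    · right; rw [← hqw, sel_true, h1, hq0, zero_add]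
  intro q hq hq0
  have h' : IsSet S (xor true false) (orb S true 0) := isSet_orb S true 0
  have h1 := rel_fwd (x := 0) (y := ee h) h' hq (by rw [sub_zero]; exact heW)
  simp only [sel_true, sel_false] at h1
  have h2 : q.2 0 = 0 ∨ q.2 0 = ee h := hW2 _ ⟨q, hq, hq0, rfl⟩
  have hne0 : q.1 (ee h) ≠ 0 := by
    intro hc
    apply ee_ne C.odd
    apply q.1.injective
    rw [hc, hq0]
  rcases hW2 _ h1 with h3 | h3 <;> rcases h2 with h4 | h4
  · rw [h4, sub_zero] at h3; exact absurd h3 hne0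
  · rw [h4] at h3; exact sub_eq_zero.1 h3
  · rw [h4, sub_zero] at h3; exact h3
  · rw [h4] at h3
    have : q.1 (ee h) = ee h + ee h := sub_eq_iff_eq_add.1 h3
    rw [ee_add] at this; exact absurd this hne0

/-- if `e ∈ B` then `{e}` is invariant -/
lemma e_fix (C : Ctx h S Sg) (he : ee h ∈ BB S)
    {p : Equiv.Perm (ZMod (4 * h)) × Equiv.Perm (ZMod (4 * h))}
    (hp : p ∈ S.L) (hp0 : p.1 0 = 0) : p.1 (ee h) = ee h := by
  by_cases hW : orb S true 0 ⊆ (BB S : Set (ZMod (4 * h)))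
  · exact (case_ii_e C hW).2 p hp hp0
  · exact e_fix_of_DD C hW he hp hp0

lemma e_isSet (C : Ctx h S Sg) (he : ee h ∈ BB S) : IsSet S false {ee h} := by
  intro p hp hp0 x hx
  simp only [Set.mem_singleton_iff] at hx ⊢
  rw [hx]; exact e_fix C he hp hp0

lemma e_comm (C : Ctx h S Sg) (he : ee h ∈ BB S)
    {p : Equiv.Perm (ZMod (4 * h)) × Equiv.Perm (ZMod (4 * h))}
    (hp : p ∈ S.L) (i : Bool) (x : ZMod (4 * h)) : sel i p (x + ee h) = sel i p x + ee h := by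
  have h' : IsSet S (xor i i) {ee h} := by simpa using e_isSet C he
  have h1 := rel_fwd (x := x) (y := x + ee h) h' hp (by simp)
  simp only [Set.mem_singleton_iff] at h1
  rw [add_comm (sel i p x)]
  exact sub_eq_iff_eq_add.1 h1

end TII
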