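import Mathlib
import Pool.Agent.Lib.MP_2c9d40_co.Main1

open scoped Classical

set_option linter.unusedSectionVars false

namespace TII

variable {h : ℕ} {S : Sys (ZMod (4 * h))} {Sg : Set (ZMod (4 * h))} [NeZero (4 * h)]

lemma crd_eq_natCard (K : AddSubgroup (ZMod (4 * h))) :
    crd (K : Set (ZMod (4 * h))) = Nat.card K := by
  unfold crd
  rw [Nat.card_eq_fintype_card, Fintype.card_subtype]
  rfl

lemma card_EE (hh : Odd h) : Nat.card (EE h) * 2 = 4 * h := by
  have h1 := AddSubgroup.card_mul_index (EE h)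
  have h2 : (EE h).index = 2 := by
    unfold EE
    rw [AddSubgroup.index_ker]
    have hsurj : Function.Surjective (par h).toAddMonoidHom := by
      intro y
      have : y = 0 ∨ y = 1 := by revert y; decide
      rcases this with rfl | rfl
      · exact ⟨0, map_zero _⟩
      · exact ⟨Hh h, par_H hh⟩
    rw [AddMonoidHom.range_eq_top.2 hsurj]
    simp
  rw [h2] at h1
  rw [h1]
  simp

lemma not_four_dvd (hh : Odd h) {K : AddSubgroup (ZMod (4 * h))} (hK : K ≤ EE h) :
    ¬ 4 ∣ crd (K : Set (ZMod (4 * h))) := by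
  rw [crd_eq_natCard]
  intro h1
  have h2 := AddSubgroup.card_dvd_of_le hK
  have h3 := card_EE hh
  have h4 : Nat.card (EE h) = 2 * h := by omega
  rw [h4] at h2
  have h5 := h1.trans h2
  obtain ⟨k, hk⟩ := hh
  omega

lemma Sg_isSet (C : Ctx h S Sg) : IsSet S true Sg := by
  intro p hp hp0 x hx
  have := ((C.mem p).1 hp 0 x).2 (by simpa using hx)
  simpa [hp0] using this

/-- a permutation shifting by a function constant on the cosets of `K` -/
def thPerm (K : AddSubgroup (ZMod (4 * h))) (w : ZMod (4 * h) → ZMod (4 * h))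
    (h1 : ∀ x, w x ∈ K) (h2 : ∀ x y, y - x ∈ K → w x = w y) : Equiv.Perm (ZMod (4 * h)) where
  toFun x := x + w x
  invFun x := x - w x
  left_inv x := by
    have : w (x + w x) = w x := (h2 x (x + w x) (by simpa using h1 x)).symm
    simp [this]
  right_inv x := by
    have : w (x - w x) = w x := (h2 x (x - w x) (by
      have : x - w x - x = -(w x) := by abel
      rw [this]; exact K.neg_mem (h1 x))).symm
    simp [this]

lemma thPerm_apply {K : AddSubgroup (ZMod (4 * h))} {w : ZMod (4 * h) → ZMod (4 * h)}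
    (h1 : ∀ x, w x ∈ K) (h2 : ∀ x y, y - x ∈ K → w x = w y) (x : ZMod (4 * h)) :
    thPerm K w h1 h2 x = x + w x := rfl

lemma thPerm_mem (C : Ctx h S Sg) {K : AddSubgroup (ZMod (4 * h))}
    {w : ZMod (4 * h) → ZMod (4 * h)}
    (h1 : ∀ x, w x ∈ K) (h2 : ∀ x y, y - x ∈ K → w x = w y)
    (h3 : ∀ x, w x ∈ rad (Sg \ K)) :
    ((thPerm K w h1 h2, thPerm K w h1 h2) :
      Equiv.Perm (ZMod (4 * h)) × Equiv.Perm (ZMod (4 * h))) ∈ S.L := by
  rw [C.mem]
  intro x y
  simp only [thPerm_apply]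
  by_cases hxy : y - x ∈ K
  · rw [h2 x y hxy]
    have : y + w y - (x + w y) = y - x := by abel
    rw [this]
  · have e1 : y + w y - (x + w x) = (y - x) + (w y - w x) := by abel
    have hK : w y - w x ∈ K := K.sub_mem (h1 y) (h1 x)
    have hr : w y - w x ∈ rad (Sg \ K) := (rad (Sg \ K)).sub_mem (h3 y) (h3 x)
    have h4 := hr (y - x)
    have h5 : y - x + (w y - w x) ∉ K := by
      rw [AddSubgroup.add_mem_cancel_right _ hK]; exact hxy
    rw [e1]
    constructor
    · intro h6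
      exact (h4.1 ⟨h6, h5⟩).1
    · intro h6
      exact (h4.2 ⟨h6, hxy⟩).1

/-! ### `e ∈ B` : common facts -/

/-- `S_e` -/
def SE (Sg : Set (ZMod (4 * h))) : Set (ZMod (4 * h)) := {s | s ∈ Sg ∧ s + ee h ∉ Sg}

lemma SE_isSet (C : Ctx h S Sg) (he : ee h ∈ BB S) : IsSet S true (SE Sg) := by
  intro p hp hp0 x hx
  refine ⟨Sg_isSet C p hp hp0 x hx.1, ?_⟩
  rw [← e_comm C he hp]
  intro h1
  exact hx.2 ((isSet_iff (Sg_isSet C) hp hp0 _).1 h1)

lemma SE_nonempty (C : Ctx h S Sg) : ∃ s, s ∈ SE Sg := by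
  have := C.tw
  push Not at this
  obtain ⟨x, hx⟩ := this
  rcases hx with ⟨h1, h2⟩ | ⟨h1, h2⟩
  · refine ⟨x + ee h, h1, ?_⟩
    rw [add_assoc, ee_add, add_zero]; exact h2
  · exact ⟨x, h2, h1⟩

lemma SE_cases (C : Ctx h S Sg) (he : ee h ∈ BB S) {s : ZMod (4 * h)} (hs : s ∈ SE Sg) :
    s ∈ BB S ∨ s + Hh h ∈ BB S :=
  double_cases_e C.odd he (P2 C.odd (Sg_isSet C) hs.1 hs.2)

/-- `B_1` in the case `e ∈ B` -/
abbrev CH (S : Sys (ZMod (4 * h))) : AddSubgroup (ZMod (4 * h)) := B1 S (BB S) (Hh h)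

lemma SE_CH (C : Ctx h S Sg) (he : ee h ∈ BB S) {s : ZMod (4 * h)} (hs : s ∈ SE Sg) :
    s ∈ CH S := by
  rcases SE_cases C he hs with h1 | h1
  · exact B_le_B1 h1
  · have : s = (s + Hh h) - Hh h := by abel
    rw [this]; exact (CH S).sub_mem (B_le_B1 h1) f_mem_B1

lemma W_CH (C : Ctx h S Sg) (he : ee h ∈ BB S) : orb S true 0 ⊆ (CH S : Set (ZMod (4 * h))) := by
  rintro w ⟨p, hp, hp0, hpw⟩
  obtain ⟨s, hs⟩ := SE_nonempty C
  have h1 : p.2 s ∈ CH S := SE_CH C he (SE_isSet C he p hp hp0 s hs)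
  have h' : IsSet S (xor true true) (CH S : Set (ZMod (4 * h))) := isSet_B1 (hyp_H C.odd he)
  have h2 := rel_fwd (x := 0) (y := s) h' hp (by rw [sub_zero]; exact SE_CH C he hs)
  simp only [sel_true] at h2 hpw
  rw [← hpw]
  have : p.2 0 = p.2 s - (p.2 s - p.2 0) := by abel
  rw [this]; exact (CH S).sub_mem h1 h2

lemma isSet_true_of_W {K : AddSubgroup (ZMod (4 * h))} (hK : IsSet S false (K : Set (ZMod (4 * h))))
    (hW : orb S true 0 ⊆ (K : Set (ZMod (4 * h)))) : IsSet S true (K : Set (ZMod (4 * h))) := by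
  intro p hp hp0 x hx
  have h' : IsSet S (xor true true) (K : Set (ZMod (4 * h))) := hK
  have h2 := rel_fwd (x := 0) (y := x) h' hp (by rw [sub_zero]; exact hx)
  have h3 : p.2 0 ∈ K := hW ⟨p, hp, hp0, rfl⟩
  simp only [sel_true] at h2 ⊢
  have : p.2 x = (p.2 x - p.2 0) + p.2 0 := by abel
  rw [this]; exact K.add_mem h2 h3

lemma CH_true (C : Ctx h S Sg) (he : ee h ∈ BB S) :
    IsSet S true (CH S : Set (ZMod (4 * h))) :=
  isSet_true_of_W (isSet_B1 (hyp_H C.odd he)) (W_CH C he)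

lemma eeCH (C : Ctx h S Sg) (he : ee h ∈ BB S) : ee h ∈ CH S := B_le_B1 he

lemma X2_isSet (C : Ctx h S Sg) (he : ee h ∈ BB S) : IsSet S true (Sg \ CH S) :=
  isSet_diff (Sg_isSet C) (CH_true C he)

lemma X2_e (C : Ctx h S Sg) (he : ee h ∈ BB S) : ∀ x ∈ Sg \ (CH S : Set (ZMod (4 * h))),
    x + ee h ∈ Sg \ (CH S : Set (ZMod (4 * h))) := by
  intro x hx
  refine ⟨?_, ?_⟩
  · by_contra hc
    exact hx.2 (SE_CH C he ⟨hx.1, hc⟩)
  · intro hc
    exact hx.2 ((AddSubgroup.add_mem_cancel_right _ (eeCH C he)).1 hc)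

lemma X2_H (C : Ctx h S Sg) (he : ee h ∈ BB S) : Hh h ∈ rad (Sg \ (CH S : Set (ZMod (4 * h)))) := by
  apply mem_rad_of_fwd
  intro x hx
  by_contra hc
  have h1 := P2' C.odd (X2_isSet C he) (X2_e C he) hx hc
  exact hx.2 (mem_of_double C.odd f_mem_B1 (B_le_B1 h1))

/-- parity is the class modulo `B` inside `C`, when `C = B ∪ (B + H)` -/
lemma CH_even_iff (C : Ctx h S Sg) (he : ee h ∈ BB S)
    (h3a : ∀ x ∈ CH S, x ∈ BB S ∨ x + Hh h ∈ BB S) {u : ZMod (4 * h)} (hu : u ∈ CH S) :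
    u ∈ EE h ↔ u ∈ BB S := by
  constructor
  · intro hE
    rcases h3a u hu with h1 | h1
    · exact h1
    · exfalso
      apply H_not_E C.odd
      have : Hh h = (u + Hh h) - u := by abel
      rw [this]; exact (EE h).sub_mem (BB_le h1) hE
  · intro hB; exact BB_le hB

lemma par_diff (C : Ctx h S Sg) (he : ee h ∈ BB S)
    (h3a : ∀ x ∈ CH S, x ∈ BB S ∨ x + Hh h ∈ BB S)
    {p : Equiv.Perm (ZMod (4 * h)) × Equiv.Perm (ZMod (4 * h))} (hp : p ∈ S.L) (i : Bool)
    {x y : ZMod (4 * h)} (hxy : y - x ∈ CH S) :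
    par h (sel i p y) - par h (sel i p x) = par h y - par h x := by
  have hC : IsSet S (xor i i) (CH S : Set (ZMod (4 * h))) := by
    simpa using isSet_B1 (hyp_H C.odd he)
  have hB : IsSet S (xor i i) (BB S : Set (ZMod (4 * h))) := by simpa using BB_isSet
  have h1 : sel i p y - sel i p x ∈ CH S := rel_fwd hC hp hxy
  have h2 := rel hB hp x y
  have h3 : (sel i p y - sel i p x ∈ EE h ↔ y - x ∈ EE h) := by
    rw [CH_even_iff C he h3a h1, CH_even_iff C he h3a hxy]; exact h2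
  rw [mem_EE, mem_EE, map_sub, map_sub] at h3
  have key : ∀ a b : ZMod 2, (a = 0 ↔ b = 0) → a = b := by decide
  exact key _ _ h3

/-- lift of a parity to `{0, H}` -/
def hm (h : ℕ) (a : ZMod 2) : ZMod (4 * h) := if a = 0 then 0 else Hh h

lemma par_hm (hh : Odd h) (a : ZMod 2) : par h (hm h a) = a := by
  unfold hm
  split_ifs with h1
  · rw [map_zero, h1]
  · rw [par_H hh]
    have : ∀ a : ZMod 2, a ≠ 0 → 1 = a := by decide
    exact this a h1

lemma hm_mem {K : AddSubgroup (ZMod (4 * h))} (hK : Hh h ∈ K) (a : ZMod 2) : hm h a ∈ K := by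
  unfold hm; split_ifs
  · exact K.zero_mem
  · exact hK

lemma mod_CH (C : Ctx h S Sg) (he : ee h ∈ BB S)
    {p : Equiv.Perm (ZMod (4 * h)) × Equiv.Perm (ZMod (4 * h))} (hp : p ∈ S.L)
    (x : ZMod (4 * h)) : p.2 x - p.1 x ∈ CH S := by
  have h' : IsSet S (xor false true) (CH S : Set (ZMod (4 * h))) := CH_true C he
  have := rel_fwd (x := x) (y := x) h' hp (by rw [sub_self]; exact (CH S).zero_mem)
  exact this

theorem case_3a (C : Ctx h S Sg) (he : ee h ∈ BB S)
    (h3a : ∀ x ∈ CH S, x ∈ BB S ∨ x + Hh h ∈ BB S) : False := by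
  have hHC : Hh h ∈ CH S := f_mem_B1
  have hCs : IsSet S false (CH S : Set (ZMod (4 * h))) := isSet_B1 (hyp_H C.odd he)
  have relC : ∀ (i : Bool) (p : Equiv.Perm (ZMod (4 * h)) × Equiv.Perm (ZMod (4 * h))),
      p ∈ S.L → ∀ x y, (sel i p y - sel i p x ∈ CH S ↔ y - x ∈ CH S) := by
    intro i p hp x y
    have hC' : IsSet S (xor i i) (CH S : Set (ZMod (4 * h))) := by simpa using hCs
    exact rel hC' hp x y
  -- the modification of an element `p` by a parity function
  have modif : ∀ (p : Equiv.Perm (ZMod (4 * h)) × Equiv.Perm (ZMod (4 * h))), p ∈ S.L →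
      ∀ (a : ZMod (4 * h) → ZMod 2), (∀ x y, y - x ∈ CH S → a x = a y) →
      ∃ t : Equiv.Perm (ZMod (4 * h)), ((t, t) :
        Equiv.Perm (ZMod (4 * h)) × Equiv.Perm (ZMod (4 * h))) ∈ S.L ∧
        (∀ x, t (p.1 x) = p.1 x + hm h (a x)) ∧ (∀ x, t (p.2 x) = p.2 x + hm h (a x)) := by
    intro p hp a ha
    have h1 : ∀ x, hm h (a (p.1⁻¹ x)) ∈ CH S := fun x => hm_mem hHC _
    have h2 : ∀ x y, y - x ∈ CH S → hm h (a (p.1⁻¹ x)) = hm h (a (p.1⁻¹ y)) := by
      intro x y hxy
      congr 1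
      apply ha
      have := (relC false p hp (p.1⁻¹ x) (p.1⁻¹ y)).1
      simp only [sel_false, perm_apply_inv] at this
      exact this hxy
    refine ⟨thPerm (CH S) (fun x => hm h (a (p.1⁻¹ x))) h1 h2, ?_, ?_, ?_⟩
    · exact thPerm_mem C h1 h2 (fun x => hm_mem (X2_H C he) _)
    · intro x
      rw [thPerm_apply, perm_inv_apply]
    · intro x
      rw [thPerm_apply]
      have : hm h (a (p.1⁻¹ (p.2 x))) = hm h (a (p.1⁻¹ (p.1 x))) := by
        apply (h2 _ _ _).symm
        exact mod_CH C he hp x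
      show p.2 x + hm h (a (p.1⁻¹ (p.2 x))) = _
      rw [this, perm_inv_apply]
  obtain ⟨p, hp, hne⟩ := C.unst
  -- first modification
  have ha : ∀ x y, y - x ∈ CH S → par h (p.1 x) - par h x = par h (p.1 y) - par h y := by
    intro x y hxy
    have := par_diff C he h3a hp false hxy
    simp only [sel_false] at this
    linear_combination -this
  obtain ⟨t, ht, ht1, ht2⟩ := modif p hp (fun x => par h (p.1 x) - par h x) ha
  set p1 : Equiv.Perm (ZMod (4 * h)) × Equiv.Perm (ZMod (4 * h)) := (t, t) * p with hp1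
  have hp1L : p1 ∈ S.L := S.L.mul_mem ht hp
  have hp11 : ∀ x, p1.1 x = p.1 x + hm h (par h (p.1 x) - par h x) := ht1
  have hp12 : ∀ x, p1.2 x = p.2 x + hm h (par h (p.1 x) - par h x) := ht2
  have hpar1 : ∀ x, par h (p1.1 x) = par h x := by
    intro x
    rw [hp11, map_add, par_hm C.odd]
    have : ∀ a b : ZMod 2, a + (a - b) = b := by decide
    exact this _ _
  have hne1 : p1.1 ≠ p1.2 := by
    intro hc
    apply hne
    ext x
    have h1 := congrArg (fun (f : Equiv.Perm (ZMod (4 * h))) => f x) hc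
    have h2 : p1.1 x = p1.2 x := h1
    rw [hp11, hp12] at h2
    exact add_right_cancel h2
  set χ : ZMod (4 * h) → ZMod 2 := fun x => par h (p1.2 x) - par h x with hχ
  have hχc : ∀ x y, y - x ∈ CH S → χ x = χ y := by
    intro x y hxy
    have := par_diff C he h3a hp1L true hxy
    simp only [sel_true] at this
    simp only [hχ]
    linear_combination -this
  have hχ0 : ∃ x0, χ x0 ≠ 0 := by
    by_contra hcon
    push Not at hcon
    apply hne1
    apply C.t2 p1 hp1L
    · intro x; rw [mem_EE, mem_EE, hpar1]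
    · intro x
      have := hcon x
      simp only [hχ] at this
      rw [mem_EE, mem_EE, sub_eq_zero.1 this]
  obtain ⟨x0, hx0⟩ := hχ0
  obtain ⟨u, hu, hu1, hu2⟩ := modif p1 hp1L χ hχc
  -- r = p1⁻¹ u⁻¹ swap p1
  set r : Equiv.Perm (ZMod (4 * h)) × Equiv.Perm (ZMod (4 * h)) := p1⁻¹ * (u, u)⁻¹ * p1.swap with hr
  have hrL : r ∈ S.L := S.L.mul_mem (S.L.mul_mem (S.L.inv_mem hp1L) (S.L.inv_mem hu)) (S.swap hp1L)
  have hr1 : ∀ x, p1.1 (r.1 x) + hm h (χ (r.1 x)) = p1.2 x := by
    intro x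
    rw [← hu1]
    show u (p1.1 (p1.1⁻¹ (u⁻¹ (p1.2 x)))) = p1.2 x
    rw [perm_apply_inv, perm_apply_inv]
  have hr2 : ∀ x, p1.2 (r.2 x) + hm h (χ (r.2 x)) = p1.1 x := by
    intro x
    rw [← hu2]
    show u (p1.2 (p1.2⁻¹ (u⁻¹ (p1.1 x)))) = p1.1 x
    rw [perm_apply_inv, perm_apply_inv]
  have hd1 : ∀ x, r.1 x - x ∈ CH S := by
    intro x
    rw [← relC false p1 hp1L]
    simp only [sel_false]
    have e1 : p1.1 (r.1 x) - p1.1 x = (p1.2 x - p1.1 x) - hm h (χ (r.1 x)) := by
      rw [← hr1 x]; abel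
    rw [e1]
    exact (CH S).sub_mem (mod_CH C he hp1L x) (hm_mem hHC _)
  have hd2 : ∀ x, r.2 x - x ∈ CH S := by
    intro x
    rw [← relC true p1 hp1L]
    simp only [sel_true]
    have e1 : p1.2 (r.2 x) - p1.2 x = -(p1.2 x - p1.1 x) - hm h (χ (r.2 x)) := by
      rw [← hr2 x]; abel
    rw [e1]
    exact (CH S).sub_mem ((CH S).neg_mem (mod_CH C he hp1L x)) (hm_mem hHC _)
  have hχ1 : ∀ x, χ (r.1 x) = χ x := fun x => (hχc _ _ (hd1 x)).symm
  have hχ2 : ∀ x, χ (r.2 x) = χ x := fun x => (hχc _ _ (hd2 x)).symm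
  have hpr1 : ∀ x, par h (r.1 x) = par h x := by
    intro x
    have e1 := congrArg (par h) (hr1 x)
    rw [map_add, par_hm C.odd, hpar1, hχ1] at e1
    have e2 : χ x = par h (p1.2 x) - par h x := rfl
    rw [e2] at e1
    linear_combination e1
  have hpr2 : ∀ x, par h (r.2 x) = par h x := by
    intro x
    have e1 := congrArg (par h) (hr2 x)
    rw [map_add, par_hm C.odd, hpar1, hχ2] at e1
    have e2 : par h (p1.2 (r.2 x)) = χ (r.2 x) + par h (r.2 x) := by simp [hχ]
    rw [e2, hχ2] at e1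
    have : ∀ a b c : ZMod 2, a + b + a = c → b = c := by decide
    exact this _ _ _ e1
  have hreq : r.1 = r.2 := by
    apply C.t2 r hrL
    · intro x; rw [mem_EE, mem_EE, hpr1]
    · intro x; rw [mem_EE, mem_EE, hpr2]
  have hcc : ∀ x, χ x ≠ 0 → r.1 (r.1 x) = x + ee h := by
    intro x hx
    have e1 := hr1 (r.1 x)
    have e2 := hr2 x
    rw [← hreq] at e2
    rw [← e1] at e2
    have e3 : hm h (χ (r.1 (r.1 x))) = Hh h := by
      rw [hχ1, hχ1]; unfold hm; rw [if_neg hx]
    have e4 : hm h (χ (r.1 x)) = Hh h := by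
      rw [hχ1]; unfold hm; rw [if_neg hx]
    rw [e3, e4] at e2
    have e5 : p1.1 (r.1 (r.1 x)) = p1.1 x + ee h := by
      have : p1.1 (r.1 (r.1 x)) + (Hh h + Hh h) = p1.1 x := by rw [← e2]; abel
      rw [HH_add] at this
      rw [← this, add_assoc, ee_add, add_zero]
    have e6 := e_comm C he hp1L false x
    simp only [sel_false] at e6
    rw [← e6] at e5
    exact p1.1.injective e5
  have hcomm : ∀ x, r.1 (x + ee h) = r.1 x + ee h := by
    intro x
    have := e_comm C he hrL false x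
    simpa using this
  -- four divides |B|
  have h4 : 4 ∣ (Finset.univ.filter (fun x => x - x0 ∈ BB S)).card := by
    have hstep : ∀ x, x - x0 ∈ BB S → χ x ≠ 0 := by
      intro x hx
      rw [← hχc x0 x (B_le_B1 hx)]; exact hx0
    have hBe : ∀ x, x - x0 ∈ BB S → x + ee h - x0 ∈ BB S := by
      intro x hx
      have : x + ee h - x0 = (x - x0) + ee h := by abel
      rw [this]; exact (BB S).add_mem hx he
    apply four_dvd_card _ (fun x => x + ee h) (fun x => r.1 x)
    · intro x hx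
      simp only [Finset.mem_filter, Finset.mem_univ, true_and] at hx ⊢
      exact hBe x hx
    · intro x _
      show x + ee h + ee h = x
      rw [add_assoc, ee_add, add_zero]
    · intro x _ hc
      exact ee_ne C.odd (by simpa using hc)
    · intro x hx
      simp only [Finset.mem_filter, Finset.mem_univ, true_and] at hx ⊢
      have h1 : r.1 x - x ∈ BB S := by
        rw [← CH_even_iff C he h3a (hd1 x), mem_EE, map_sub, hpr1, sub_self]
      have : r.1 x - x0 = (r.1 x - x) + (x - x0) := by abel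
      rw [this]; exact (BB S).add_mem h1 hx
    · intro x hx
      simp only [Finset.mem_filter, Finset.mem_univ, true_and] at hx
      right; exact hcc x (hstep x hx)
    · intro x hx hc
      simp only [Finset.mem_filter, Finset.mem_univ, true_and] at hx
      have h1 := hcc x (hstep x hx)
      rw [hc, hc] at h1
      exact ee_ne C.odd (by simpa using h1.symm)
    · intro x hx hc
      simp only [Finset.mem_filter, Finset.mem_univ, true_and] at hx
      have h1 := hcc x (hstep x hx)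
      have hc' : r.1 x = x + ee h := hc
      rw [hc', hcomm, hc', add_assoc, ee_add, add_zero] at h1
      exact ee_ne C.odd (by simpa using h1.symm)
    · intro x _
      exact (hcomm x).symm
  rw [card_coset'] at h4
  exact not_four_dvd C.odd BB_le h4

end TII
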