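import Mathlib
import Pool.Agent.Lib.MP_2c9d40_co.Main2

open scoped Classical

set_option linter.unusedSectionVars false

namespace TII

variable {h : ℕ} {S : Sys (ZMod (4 * h))} {Sg : Set (ZMod (4 * h))} [NeZero (4 * h)]

/-- coordinates -/
lemma kexists (hh : Odd h) {B K J : AddSubgroup (ZMod (4 * h))} (hBK : B ≤ K)
    (hHK : Hh h ∈ K) (hJB : ∀ x ∈ K, ∃ j ∈ J, x - j ∈ B) :
    ∃ κ rep : ZMod (4 * h) → ZMod (4 * h), (∀ x, κ x ∈ J) ∧ (∀ x y, y - x ∈ B → κ x = κ y) ∧
      (∀ x y, y - x ∈ K → rep x = rep y) ∧ (∀ x, rep x ∈ EE h) ∧ (∀ x, x - rep x - κ x ∈ B) := by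
  -- representatives modulo K
  let r0 : ZMod (4 * h) → ZMod (4 * h) := fun x =>
    Quotient.out (QuotientAddGroup.mk x : ZMod (4 * h) ⧸ K)
  have hr0 : ∀ x, x - r0 x ∈ K := by
    intro x
    have h1 : (QuotientAddGroup.mk (r0 x) : ZMod (4 * h) ⧸ K) = QuotientAddGroup.mk x :=
      Quotient.out_eq _
    have h2 := QuotientAddGroup.eq.1 h1
    have : x - r0 x = -(r0 x) + x := by abel
    rw [this]; exact h2
  have hr0c : ∀ x y, y - x ∈ K → r0 x = r0 y := by
    intro x y hxy
    have h1 : (QuotientAddGroup.mk x : ZMod (4 * h) ⧸ K) = QuotientAddGroup.mk y := by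
      rw [QuotientAddGroup.eq]
      have : -x + y = y - x := by abel
      rw [this]; exact hxy
    show Quotient.out _ = Quotient.out _
    rw [h1]
  let rep : ZMod (4 * h) → ZMod (4 * h) := fun x => if r0 x ∈ EE h then r0 x else r0 x + Hh h
  have hrepc : ∀ x y, y - x ∈ K → rep x = rep y := by
    intro x y hxy
    show (if r0 x ∈ EE h then r0 x else r0 x + Hh h) = (if r0 y ∈ EE h then r0 y else r0 y + Hh h)
    rw [hr0c x y hxy]
  have hrepE : ∀ x, rep x ∈ EE h := by
    intro x
    show (if r0 x ∈ EE h then r0 x else r0 x + Hh h) ∈ EE h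
    split_ifs with h1
    · exact h1
    · exact add_mem_E_of_not h1 (H_not_E hh)
  have hrepK : ∀ x, x - rep x ∈ K := by
    intro x
    show x - (if r0 x ∈ EE h then r0 x else r0 x + Hh h) ∈ K
    split_ifs with h1
    · exact hr0 x
    · have : x - (r0 x + Hh h) = (x - r0 x) - Hh h := by abel
      rw [this]; exact K.sub_mem (hr0 x) hHK
  -- representatives modulo B
  let b0 : ZMod (4 * h) → ZMod (4 * h) := fun x =>
    Quotient.out (QuotientAddGroup.mk x : ZMod (4 * h) ⧸ B)
  have hb0 : ∀ x, x - b0 x ∈ B := by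
    intro x
    have h1 : (QuotientAddGroup.mk (b0 x) : ZMod (4 * h) ⧸ B) = QuotientAddGroup.mk x :=
      Quotient.out_eq _
    have h2 := QuotientAddGroup.eq.1 h1
    have : x - b0 x = -(b0 x) + x := by abel
    rw [this]; exact h2
  have hb0c : ∀ x y, y - x ∈ B → b0 x = b0 y := by
    intro x y hxy
    have h1 : (QuotientAddGroup.mk x : ZMod (4 * h) ⧸ B) = QuotientAddGroup.mk y := by
      rw [QuotientAddGroup.eq]
      have : -x + y = y - x := by abel
      rw [this]; exact hxy
    show Quotient.out _ = Quotient.out _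
    rw [h1]
  have hch : ∀ x, ∃ j ∈ J, (b0 x - rep (b0 x)) - j ∈ B := fun x => hJB _ (hrepK (b0 x))
  choose f hf1 hf2 using hch
  refine ⟨fun x => f (b0 x), rep, fun x => hf1 _, ?_, hrepc, hrepE, ?_⟩
  · intro x y hxy
    show f (b0 x) = f (b0 y)
    rw [hb0c x y hxy]
  · intro x
    show x - rep x - f (b0 x) ∈ B
    have h0 := hb0 x
    have h1 := hf2 (b0 x)
    have hbb : b0 (b0 x) = b0 x := (hb0c (b0 x) x h0)
    rw [hbb] at h1
    have hrr : rep (b0 x) = rep x := hrepc _ _ (hBK h0)
    rw [hrr] at h1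
    have : x - rep x - f (b0 x) = (x - b0 x) + (b0 x - rep x - f (b0 x)) := by abel
    rw [this]; exact B.add_mem h0 h1

theorem kmod (C : Ctx h S Sg) {B K J : AddSubgroup (ZMod (4 * h))} (hBE : B ≤ EE h)
    (hBK : B ≤ K) (hJK : J ≤ K) (hB : IsSet S false (B : Set (ZMod (4 * h))))
    (hK0 : IsSet S false (K : Set (ZMod (4 * h)))) (hK1 : IsSet S true (K : Set (ZMod (4 * h))))
    (f0 c0 : ZMod (4 * h)) (κ rep : ZMod (4 * h) → ZMod (4 * h)) (k1 : ∀ x, κ x ∈ J)
    (k2 : ∀ x y, y - x ∈ B → κ x = κ y) (k3 : ∀ x y, y - x ∈ K → rep x = rep y)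
    (k4 : ∀ x, rep x ∈ EE h) (k5 : ∀ x, x - rep x - κ x ∈ B)
    (hlink : ∀ x y, y - x - f0 ∈ B → κ y = κ x + c0)
    (hf0 : IsSet S true {z | z - f0 ∈ B})
    (hX1 : ∀ z ∈ K, z - f0 ∉ B → ∀ j ∈ J, z + j - f0 ∉ B → z ∈ Sg → z + j ∈ Sg)
    (hX2 : J ≤ rad (Sg \ K))
    {p : Equiv.Perm (ZMod (4 * h)) × Equiv.Perm (ZMod (4 * h))} (hp : p ∈ S.L)
    (x : ZMod (4 * h)) : p.1 x + κ x - κ (p.1 x) = p.2 x + κ x - κ (p.2 x) := by
  have relB : ∀ i x y, (sel i p y - sel i p x ∈ B ↔ y - x ∈ B) := by
    intro i x y
    have h' : IsSet S (xor i i) (B : Set (ZMod (4 * h))) := by simpa using hB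
    exact rel h' hp x y
  have relK : ∀ i x y, (sel i p y - sel i p x ∈ K ↔ y - x ∈ K) := by
    intro i x y
    have h' : IsSet S (xor i i) (K : Set (ZMod (4 * h))) := by simpa using hK0
    exact rel h' hp x y
  have relK1 : ∀ x y, (p.2 y - p.1 x ∈ K ↔ y - x ∈ K) := by
    intro x y
    have h' : IsSet S (xor false true) (K : Set (ZMod (4 * h))) := hK1
    exact rel h' hp x y
  have relf : ∀ x y, (p.2 y - p.1 x - f0 ∈ B ↔ y - x - f0 ∈ B) := by
    intro x y
    have h' : IsSet S (xor false true) {z | z - f0 ∈ B} := hf0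
    exact rel h' hp x y
  -- modified maps
  have hmodB : ∀ i x, (sel i p x + κ x - κ (sel i p x)) - rep (sel i p x) - κ x ∈ B := by
    intro i x
    have := k5 (sel i p x)
    have e : (sel i p x + κ x - κ (sel i p x)) - rep (sel i p x) - κ x
        = sel i p x - rep (sel i p x) - κ (sel i p x) := by abel
    rw [e]; exact this
  have hmodK : ∀ i x, (sel i p x + κ x - κ (sel i p x)) - sel i p x ∈ K := by
    intro i x
    have e : (sel i p x + κ x - κ (sel i p x)) - sel i p x = κ x - κ (sel i p x) := by abel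
    rw [e]; exact K.sub_mem (hJK (k1 _)) (hJK (k1 _))
  have hinj : ∀ i, Function.Injective (fun x => sel i p x + κ x - κ (sel i p x)) := by
    intro i x y hxy
    have hxy' : sel i p x + κ x - κ (sel i p x) = sel i p y + κ y - κ (sel i p y) := hxy
    have hK' : y - x ∈ K := by
      rw [← relK i x y]
      have e : sel i p y - sel i p x
          = ((sel i p x + κ x - κ (sel i p x)) - sel i p x)
            - ((sel i p y + κ y - κ (sel i p y)) - sel i p y) := by rw [hxy']; abel
      rw [e]; exact K.sub_mem (hmodK i x) (hmodK i y)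
    have hrep : rep (sel i p x) = rep (sel i p y) := k3 _ _ ((relK i x y).2 hK')
    have hrep' : rep x = rep y := k3 _ _ hK'
    have hκ : κ y - κ x ∈ B := by
      have e : κ y - κ x = ((sel i p x + κ x - κ (sel i p x)) - rep (sel i p x) - κ x)
          - ((sel i p y + κ y - κ (sel i p y)) - rep (sel i p y) - κ y) := by
        rw [hxy', hrep]; abel
      rw [e]; exact B.sub_mem (hmodB i x) (hmodB i y)
    have hBxy : y - x ∈ B := by
      have e : y - x = (y - rep y - κ y) - (x - rep x - κ x) + (κ y - κ x) := by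
        rw [hrep']; abel
      rw [e]; exact B.add_mem (B.sub_mem (k5 y) (k5 x)) hκ
    have h1 : κ x = κ y := k2 _ _ hBxy
    have h2 : κ (sel i p x) = κ (sel i p y) := k2 _ _ ((relB i x y).2 hBxy)
    rw [h1, h2] at hxy'
    exact (sel i p).injective (by
      have := add_right_cancel (sub_left_injective hxy')
      exact this)
  have hbij : ∀ i, Function.Bijective (fun x => sel i p x + κ x - κ (sel i p x)) :=
    fun i => Finite.injective_iff_bijective.1 (hinj i)
  let p' : Equiv.Perm (ZMod (4 * h)) × Equiv.Perm (ZMod (4 * h)) :=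
    (Equiv.ofBijective _ (hbij false), Equiv.ofBijective _ (hbij true))
  have hp'1 : ∀ x, p'.1 x = p.1 x + κ x - κ (p.1 x) := fun x => rfl
  have hp'2 : ∀ x, p'.2 x = p.2 x + κ x - κ (p.2 x) := fun x => rfl
  have hsub : ∀ x y, p'.2 y - p'.1 x = (p.2 y - p.1 x) + ((κ y - κ x) - (κ (p.2 y) - κ (p.1 x))) := by
    intro x y
    rw [hp'1, hp'2]; abel
  have hp'L : p' ∈ S.L := by
    rw [C.mem]
    intro x y
    have hJ : (κ y - κ x) - (κ (p.2 y) - κ (p.1 x)) ∈ J :=
      J.sub_mem (J.sub_mem (k1 _) (k1 _)) (J.sub_mem (k1 _) (k1 _))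
    by_cases hK' : y - x ∈ K
    · by_cases hl : y - x - f0 ∈ B
      · have h1 := hlink x y hl
        have h2 := hlink (p.1 x) (p.2 y) ((relf x y).2 hl)
        rw [hsub, h1, h2]
        have : p.2 y - p.1 x + (κ x + c0 - κ x - (κ (p.1 x) + c0 - κ (p.1 x))) = p.2 y - p.1 x := by
          abel
        rw [this]
        exact (C.mem p).1 hp x y
      · have hl2 : ¬ (p.2 y - p.1 x - f0 ∈ B) := fun hc => hl ((relf x y).1 hc)
        have hKp : p.2 y - p.1 x ∈ K := (relK1 x y).2 hK'
        have hrep : rep (p.1 x) = rep (p.2 y) := k3 _ _ hKp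
        have hrep' : rep x = rep y := k3 _ _ hK'
        have hmod : (p'.2 y - p'.1 x) - (y - x) ∈ B := by
          have e : (p'.2 y - p'.1 x) - (y - x)
              = ((p.2 y + κ y - κ (p.2 y)) - rep (p.2 y) - κ y)
                - ((p.1 x + κ x - κ (p.1 x)) - rep (p.1 x) - κ x)
                - ((y - rep y - κ y) - (x - rep x - κ x)) := by
            rw [hp'1, hp'2, hrep, hrep']; abel
          rw [e]
          exact B.sub_mem (B.sub_mem (hmodB true y) (hmodB false x)) (B.sub_mem (k5 y) (k5 x))
        have hl3 : ¬ (p'.2 y - p'.1 x - f0 ∈ B) := by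
          intro hc; apply hl
          have e : y - x - f0 = (p'.2 y - p'.1 x - f0) - ((p'.2 y - p'.1 x) - (y - x)) := by abel
          rw [e]; exact B.sub_mem hc hmod
        rw [← (C.mem p).1 hp x y]
        constructor
        · intro h1
          have h2 := hX1 (p'.2 y - p'.1 x) (by
            rw [hsub]; exact K.add_mem hKp (hJK hJ)) hl3
            (-((κ y - κ x) - (κ (p.2 y) - κ (p.1 x)))) (J.neg_mem hJ)
          rw [hsub] at h1 h2
          have e : p.2 y - p.1 x + (κ y - κ x - (κ (p.2 y) - κ (p.1 x)))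
              + -(κ y - κ x - (κ (p.2 y) - κ (p.1 x))) = p.2 y - p.1 x := by abel
          rw [e] at h2
          exact h2 hl2 h1
        · intro h1
          rw [hsub]
          apply hX1 _ hKp hl2 _ hJ _ h1
          rw [← hsub]; exact hl3
    · have hKp : ¬ (p.2 y - p.1 x ∈ K) := fun hc => hK' ((relK1 x y).1 hc)
      rw [← (C.mem p).1 hp x y, hsub]
      have h1 := hX2 hJ (p.2 y - p.1 x)
      have h2 : ¬ (p.2 y - p.1 x + (κ y - κ x - (κ (p.2 y) - κ (p.1 x))) ∈ K) := by
        rw [AddSubgroup.add_mem_cancel_right _ (hJK hJ)]; exact hKp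
      constructor
      · intro h3; exact (h1.1 ⟨h3, h2⟩).1
      · intro h3; exact (h1.2 ⟨h3, hKp⟩).1
  have hpar : ∀ i x, ((sel i p x + κ x - κ (sel i p x)) ∈ EE h ↔ x ∈ EE h) := by
    intro i x
    have h1 := hBE (hmodB i x)
    have h2 := hBE (k5 x)
    rw [mem_EE] at h1 h2 ⊢
    rw [mem_EE]
    have h3 := k4 x
    have h4 := k4 (sel i p x)
    rw [mem_EE] at h3 h4
    simp only [map_sub, map_add] at h1 h2 ⊢
    rw [h3] at h2
    rw [h4] at h1
    have e1 : par h x = par h (κ x) := by linear_combination h2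
    have e2 : par h (sel i p x) + par h (κ x) - par h (κ (sel i p x)) = par h (κ x) := by
      linear_combination h1
    rw [e1, e2]
  have := C.t2 p' hp'L (fun x => hpar false x) (fun x => hpar true x)
  have h1 := congrArg (fun (f : Equiv.Perm (ZMod (4 * h))) => f x) this
  have h2 : p'.1 x = p'.2 x := h1
  rw [hp'1, hp'2] at h2
  exact h2

/-- a pair of partial translations -/
noncomputable def shiftPerm (B : AddSubgroup (ZMod (4 * h))) (g r : ZMod (4 * h)) (hr : r ∈ B) :
    Equiv.Perm (ZMod (4 * h)) where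
  toFun x := if x - g ∈ B then x + r else x
  invFun x := if x - g ∈ B then x - r else x
  left_inv x := by
    by_cases hx : x - g ∈ B
    · have h1 : x + r - g ∈ B := by
        have : x + r - g = (x - g) + r := by abel
        rw [this]; exact B.add_mem hx hr
      simp [hx, h1]
    · simp [hx]
  right_inv x := by
    by_cases hx : x - g ∈ B
    · have h1 : x - r - g ∈ B := by
        have : x - r - g = (x - g) - r := by abel
        rw [this]; exact B.sub_mem hx hr
      simp [hx, h1]
    · simp [hx]

lemma shiftPerm_apply {B : AddSubgroup (ZMod (4 * h))} {g r : ZMod (4 * h)} (hr : r ∈ B)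
    (x : ZMod (4 * h)) : shiftPerm B g r hr x = if x - g ∈ B then x + r else x := rfl

/-- The rotation of `B ⊂ V0` and `B + g ⊂ V1` by `r` cannot be in `L` unless `r = 0`. -/
lemma shift_zero (C : Ctx h S Sg) {B : AddSubgroup (ZMod (4 * h))} (hBE : B ≤ EE h)
    {g r : ZMod (4 * h)} (hr : r ∈ B) (hg : g ∉ B)
    (hS1 : ∀ z, z - g ∉ B → (z + r ∈ Sg ↔ z ∈ Sg)) : r = 0 := by
  set q : Equiv.Perm (ZMod (4 * h)) × Equiv.Perm (ZMod (4 * h)) :=
    (shiftPerm B 0 r hr, shiftPerm B g r hr) with hq
  have hS2 : ∀ z, z - g ∉ B → (z - r ∈ Sg ↔ z ∈ Sg) := by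
    intro z hz
    have := hS1 (z - r) (by
      intro hc; apply hz
      have : z - g = (z - r - g) + r := by abel
      rw [this]; exact B.add_mem hc hr)
    rw [← this]; simp
  have hqL : q ∈ S.L := by
    rw [C.mem]
    intro x y
    simp only [hq, shiftPerm_apply, sub_zero]
    by_cases hx : x ∈ B <;> by_cases hy : y - g ∈ B
    · rw [if_pos hx, if_pos hy]
      have : y + r - (x + r) = y - x := by abel
      rw [this]
    · rw [if_pos hx, if_neg hy]
      have e : y - (x + r) = (y - x) - r := by abel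
      rw [e]
      apply hS2
      intro hc; apply hy
      have : y - g = (y - x - g) + x := by abel
      rw [this]; exact B.add_mem hc hx
    · rw [if_neg hx, if_pos hy]
      have e : y + r - x = (y - x) + r := by abel
      rw [e]
      apply hS1
      intro hc; apply hx
      have : x = (y - g) - (y - x - g) := by abel
      rw [this]; exact B.sub_mem hy hc
    · rw [if_neg hx, if_neg hy]
  have hpar : ∀ g' x, (shiftPerm B g' r hr x ∈ EE h ↔ x ∈ EE h) := by
    intro g' x
    rw [shiftPerm_apply]
    split_ifs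
    · rw [AddSubgroup.add_mem_cancel_right _ (hBE hr)]
    · exact Iff.rfl
  have := C.t2 q hqL (fun x => hpar 0 x) (fun x => hpar g x)
  have h1 := congrArg (fun (f : Equiv.Perm (ZMod (4 * h))) => f 0) this
  have h2 : shiftPerm B 0 r hr 0 = shiftPerm B g r hr 0 := h1
  rw [shiftPerm_apply, shiftPerm_apply] at h2
  have h3 : ¬ ((0 : ZMod (4 * h)) - g ∈ B) := by
    intro hc; apply hg
    have : g = -(0 - g) := by abel
    rw [this]; exact B.neg_mem hc
  rw [if_neg h3, if_pos (by simp)] at h2
  simpa using h2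

theorem case_3b (C : Ctx h S Sg) (he : ee h ∈ BB S)
    (h3b : ∃ g ∈ CH S, g ∉ BB S ∧ g + Hh h ∉ BB S) : False := by
  have hyp := hyp_H C.odd he
  have hHB : Hh h ∉ BB S := hyp.hf
  obtain ⟨g, hgC, hgB, hgH⟩ := h3b
  have hCs : IsSet S false (CH S : Set (ZMod (4 * h))) := isSet_B1 hyp
  have hSEs := SE_isSet C he
  have hsatS : IsSet S true (sat (SE Sg) (BB S)) := isSet_sat hSEs BB_isSet
  -- elements of sat SE B are in B ∪ (B + H)
  have hsat : ∀ x ∈ sat (SE Sg) (BB S), x ∈ BB S ∨ x + Hh h ∈ BB S := by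
    rintro x ⟨s, hs, hxs⟩
    rcases SE_cases C he hs with h1 | h1
    · left
      have : x = (x - s) + s := by abel
      rw [this]; exact (BB S).add_mem hxs h1
    · right
      have : x + Hh h = (x - s) + (s + Hh h) := by abel
      rw [this]; exact (BB S).add_mem hxs h1
  by_cases hf : Hh h ∈ sat (orb S true 0) (BB S)
  · -- case (i)
    have hle : CH S ≤ rad (sat (SE Sg) (BB S)) := case_i hyp hf hsatS (inv_sat _ _)
    obtain ⟨s, hs⟩ := SE_nonempty C
    have h1 : s + (g - s) ∈ sat (SE Sg) (BB S) :=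
      (hle ((CH S).sub_mem hgC (SE_CH C he hs)) s).2 (subset_sat _ _ hs)
    have h2 : s + (g - s) = g := by abel
    rw [h2] at h1
    rcases hsat g h1 with h3 | h3
    · exact hgB h3
    · exact hgH h3
  · rcases case_ii_iii hyp hf with hW | hW
    · -- case (ii)
      have hdiff : ∀ p ∈ S.L, ∀ x, p.2 x - p.1 x ∈ BB S :=
        fun p hp x => (case_ii_diff C hW hp x).1
      -- B-invariant 1-sets are 0-sets
      have h10 : ∀ X : Set (ZMod (4 * h)), IsSet S true X → Inv (BB S) X → IsSet S false X := by
        intro X hX hXB p hp hp0 x hx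
        have h1 := hX p hp hp0 x hx
        simp only [sel_true, sel_false] at h1 ⊢
        refine hXB.mem_of (x := p.2 x) ?_ h1
        rw [← neg_sub]; exact (BB S).neg_mem (hdiff p hp x)
      have hSEB : ∀ s ∈ SE Sg, s ∈ BB S := by
        intro s hs
        rcases SE_cases C he hs with h1 | h1
        · exact h1
        · exfalso
          have hHs : Hh h ∈ sat (SE Sg) (BB S) := by
            refine ⟨s, hs, ?_⟩
            have h2 : s + s ∈ BB S := P2 C.odd (Sg_isSet C) hs.1 hs.2
            have : Hh h - s = (s + Hh h) - (s + s) := by abel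
            rw [this]; exact (BB S).sub_mem h1 h2
          have h0s := h10 _ hsatS (inv_sat _ _)
          have horb : orb S false (Hh h) ⊆ sat (SE Sg) (BB S) := orb_subset h0s hHs
          obtain ⟨y, hy, hgy⟩ := B1_trans hyp hgC hgB
          have h3 : g ∈ sat (SE Sg) (BB S) := (inv_sat _ _).mem_of hgy (horb hy)
          rcases hsat g h3 with h4 | h4
          · exact hgB h4
          · exact hgH h4
      -- tensor lemma
      let K : AddSubgroup (ZMod (4 * h)) := AddSubgroup.zmultiples (ee h)
      have hKmem : ∀ x ∈ K, x = 0 ∨ x = ee h := by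
        intro x hx
        obtain ⟨n, rfl⟩ := AddSubgroup.mem_zmultiples_iff.1 hx
        rcases Int.even_or_odd' n with ⟨k, hk | hk⟩
        · left
          rw [hk, mul_comm (2 : ℤ) k, mul_smul, two_zsmul, ee_add, smul_zero]
        · right
          rw [hk, add_zsmul, mul_comm (2 : ℤ) k, mul_smul, two_zsmul, ee_add, smul_zero, one_zsmul,
            zero_add]
      have heK : ee h ∈ K := AddSubgroup.mem_zmultiples _
      have hKs : IsSet S false (K : Set (ZMod (4 * h))) := by
        intro p hp hp0 x hx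
        rcases hKmem x hx with rfl | rfl
        · simp only [sel_false, hp0]; exact K.zero_mem
        · simp only [sel_false, e_fix C he hp hp0]; exact heK
      have hKB : K ≤ BB S := by
        intro x hx
        rcases hKmem x hx with rfl | rfl
        · exact (BB S).zero_mem
        · exact he
      have H : TLHyp S K (BB S) (CH S) (Hh h) :=
        { hK := hKs
          hB := BB_isSet
          hC := hCs
          hKB := hKB
          hBC := B_le_B1
          hfC := f_mem_B1
          hfB := hHB
          h2f := by rw [HH_add]; exact heK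
          htr := fun x hx hxB => B1_trans hyp hx hxB
          hP := by
            intro X hX hXK hXC x hx hxH
            by_contra hc
            have h1 := P2' C.odd hX (fun y hy => hXK _ heK y hy) hx hc
            rcases double_cases_e C.odd he h1 with h2 | h2
            · exact (hXC x hx).2 h2
            · exact hxH h2
          hq := ⟨g, hgC, hgB, hgH⟩ }
      set J : AddSubgroup (ZMod (4 * h)) := B1 S K (Hh h) with hJ
      have hJC : J ≤ CH S := by
        rw [hJ]; unfold B1
        rw [AddSubgroup.closure_le]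
        rintro y (hy | hy)
        · exact orb_sub_C H hy
        · exact B_le_B1 (hKB hy)
      have hJB : ∀ x ∈ CH S, ∃ j ∈ J, x - j ∈ BB S := by
        intro x hx
        by_cases hxB : x ∈ BB S
        · exact ⟨0, J.zero_mem, by simpa using hxB⟩
        · obtain ⟨y, hy, hxy⟩ := B1_trans hyp hx hxB
          exact ⟨y, orb_subset_B1 hy, hxy⟩
      obtain ⟨κ, rep, k1, k2, k3, k4, k5⟩ := kexists C.odd (B_le_B1) f_mem_B1 hJB
      -- X1 = Sg ∩ (C \ B)
      have hX1s : IsSet S false (Sg ∩ ((CH S : Set (ZMod (4 * h))) \ BB S)) := by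
        have hB1 : IsSet S true (BB S : Set (ZMod (4 * h))) := isSet_true_of_W BB_isSet hW
        have h1 : IsSet S true (Sg ∩ ((CH S : Set (ZMod (4 * h))) \ BB S)) :=
          isSet_inter (Sg_isSet C) (isSet_diff (CH_true C he) hB1)
        intro p hp hp0 x hx
        have h2 := h1 p hp hp0 x hx
        simp only [sel_true, sel_false] at h2 ⊢
        rcases (case_ii_diff C hW hp x).2 with h3 | h3
        · rwa [h3] at h2
        · rw [h3] at h2
          refine ⟨?_, ?_, ?_⟩
          · by_contra hc
            have h4 : p.1 x + ee h ∈ SE Sg := by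
              refine ⟨h2.1, ?_⟩
              rw [add_assoc, ee_add, add_zero]; exact hc
            exact h2.2.2 (hSEB _ h4)
          · exact (AddSubgroup.add_mem_cancel_right _ (eeCH C he)).1 h2.2.1
          · intro hc; exact h2.2.2 ((AddSubgroup.add_mem_cancel_right _ he).2 hc)
      have hX1K : Inv K (Sg ∩ ((CH S : Set (ZMod (4 * h))) \ BB S)) := by
        intro k hk x hx
        rcases hKmem k hk with rfl | rfl
        · rw [add_zero]; exact hx
        · refine ⟨?_, ?_, ?_⟩
          · by_contra hc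
            exact hx.2.2 (hSEB x ⟨hx.1, hc⟩)
          · exact (AddSubgroup.add_mem_cancel_right _ (eeCH C he)).2 hx.2.1
          · intro hc; exact hx.2.2 ((AddSubgroup.add_mem_cancel_right _ he).1 hc)
      have key : ∀ p ∈ S.L, ∀ x, p.1 x + κ x - κ (p.1 x) = p.2 x + κ x - κ (p.2 x) := by
        intro p hp x
        apply kmod C BB_le B_le_B1 hJC BB_isSet hCs (CH_true C he) 0 0 κ rep k1 k2 k3 k4 k5 _ _ _ _ hp
        · intro x y hxy
          rw [sub_zero] at hxy
          rw [add_zero]; exact (k2 x y hxy).symm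
        · have : {z : ZMod (4 * h) | z - 0 ∈ BB S} = (BB S : Set (ZMod (4 * h))) := by
            ext z; simp
          rw [this]; exact isSet_true_of_W BB_isSet hW
        · intro z hz hzB j hj hzj hzS
          rw [sub_zero] at hzB hzj
          exact (TL_b H hX1s hX1K (fun x hx => hx.2) ⟨hzS, hz, hzB⟩ hj hzj).1
        · rw [hJ]
          have h1 := X2_isSet C he
          have h2 : IsSet S false (rad (Sg \ (CH S : Set (ZMod (4 * h)))) :
            Set (ZMod (4 * h))) := isSet_rad h1
          unfold B1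
          rw [AddSubgroup.closure_le]
          rintro y (hy | hy)
          · exact orb_subset h2 (X2_H C he) hy
          · rcases hKmem y hy with rfl | rfl
            · exact (rad _).zero_mem
            · exact mem_rad_of_fwd (X2_e C he)
      obtain ⟨p, hp, hne⟩ := C.unst
      apply hne
      ext x
      have h1 := key p hp x
      have h2 : κ (p.1 x) = κ (p.2 x) := k2 _ _ (hdiff p hp x)
      rw [h2] at h1
      have h3 : p.1 x + κ x = p.2 x + κ x := sub_left_injective h1
      exact add_right_cancel h3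
    · -- case (iii)
      have hSEH : ∀ s ∈ SE Sg, s + Hh h ∈ BB S := by
        intro s hs
        rcases SE_cases C he hs with h1 | h1
        · exfalso
          have h0 : (0 : ZMod (4 * h)) ∈ sat (SE Sg) (BB S) := by
            refine ⟨s, hs, ?_⟩
            rw [zero_sub]; exact (BB S).neg_mem h1
          have horb : orb S true 0 ⊆ sat (SE Sg) (BB S) := orb_subset hsatS h0
          obtain ⟨y, hy, hgy⟩ := (hW g).2 ⟨hgC, hgH⟩
          have h3 : g ∈ sat (SE Sg) (BB S) := (inv_sat _ _).mem_of hgy (horb hy)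
          rcases hsat g h3 with h4 | h4
          · exact hgB h4
          · exact hgH h4
        · exact h1
      apply ee_ne C.odd
      apply shift_zero C BB_le he hHB
      intro z hz
      have hne : ∀ z, z - Hh h ∉ BB S → z ∈ Sg → z + ee h ∈ Sg := by
        intro z hz hzS
        by_contra hc
        apply hz
        have h1 := hSEH z ⟨hzS, hc⟩
        have : z - Hh h = (z + Hh h) - (Hh h + Hh h) := by abel
        rw [this, HH_add]; exact (BB S).sub_mem h1 he
      constructor
      · intro h1
        have h2 := hne (z + ee h) (by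
          intro hc; apply hz
          have : z - Hh h = (z + ee h - Hh h) - ee h := by abel
          rw [this]; exact (BB S).sub_mem hc he) h1
        rwa [add_assoc, ee_add, add_zero] at h2
      · exact hne z hz

theorem e_not_mem (C : Ctx h S Sg) : ee h ∉ BB S := by
  intro he
  by_cases h3a : ∀ x ∈ CH S, x ∈ BB S ∨ x + Hh h ∈ BB S
  · exact case_3a C he h3a
  · push Not at h3a
    obtain ⟨g, hgC, h1, h2⟩ := h3a
    exact case_3b C he ⟨g, hgC, h1, h2⟩

end TII
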