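import Mathlib
import Pool.Agent.Lib.MP_2c9d40_co.Main3

open scoped Classical

set_option linter.unusedSectionVars false

namespace TII

variable {h : ℕ} {S : Sys (ZMod (4 * h))} {Sg : Set (ZMod (4 * h))} [NeZero (4 * h)]

/-- `B_1` in the case `e ∉ B` -/
abbrev CE (S : Sys (ZMod (4 * h))) : AddSubgroup (ZMod (4 * h)) := B1 S (BB S) (ee h)

lemma H_mem_CE (C : Ctx h S Sg) (he : ee h ∉ BB S) : Hh h ∈ CE S := by
  have h1 : ¬ CE S ≤ EE h := by
    intro hc
    exact he (BB_max (isSet_B1 (hyp_e C.odd he)) hc f_mem_B1)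
  rw [SetLike.not_le_iff_exists] at h1
  obtain ⟨x, hx, hxE⟩ := h1
  exact H_mem_of_odd C.odd hx hxE

lemma H_e_not_E (hh : Odd h) : Hh h + ee h ∉ EE h := by
  rw [AddSubgroup.add_mem_cancel_right _ e_mem_E]; exact H_not_E hh

lemma TLe (C : Ctx h S Sg) (he : ee h ∉ BB S) : TLHyp S ⊥ (BB S) (CE S) (ee h) where
  hK := by
    intro p _ hp0 x hx
    have : x = 0 := by simpa using hx
    simp [this, hp0]
  hB := BB_isSet
  hC := isSet_B1 (hyp_e C.odd he)
  hKB := bot_le
  hBC := B_le_B1
  hfC := f_mem_B1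
  hfB := he
  h2f := by rw [ee_add]; exact AddSubgroup.zero_mem _
  htr := fun x hx hxB => B1_trans (hyp_e C.odd he) hx hxB
  hP := by
    intro X hX _ hXC x hx hxe
    by_contra hc
    have h1 := P2 C.odd hX hx hc
    rcases double_cases_ne C.odd he h1 with h2 | h2
    · exact (hXC x hx).2 h2
    · exact hxe h2
  hq := ⟨Hh h, H_mem_CE C he, fun hc => H_not_E C.odd (BB_le hc),
    fun hc => H_e_not_E C.odd (BB_le hc)⟩

/-- the subgroup `J` -/
abbrev JJ (S : Sys (ZMod (4 * h))) : AddSubgroup (ZMod (4 * h)) := B1 S ⊥ (ee h)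

lemma JJ_le (C : Ctx h S Sg) (he : ee h ∉ BB S) : JJ S ≤ CE S := by
  unfold JJ B1
  rw [AddSubgroup.closure_le]
  rintro y (hy | hy)
  · exact orb_sub_C (TLe C he) hy
  · have : y = 0 := by simpa using hy
    rw [this]; exact AddSubgroup.zero_mem _

lemma JJ_B (C : Ctx h S Sg) (he : ee h ∉ BB S) : ∀ x ∈ CE S, ∃ j ∈ JJ S, x - j ∈ BB S := by
  intro x hx
  by_cases hxB : x ∈ BB S
  · exact ⟨0, AddSubgroup.zero_mem _, by simpa using hxB⟩
  · obtain ⟨y, hy, hxy⟩ := B1_trans (hyp_e C.odd he) hx hxB
    exact ⟨y, orb_subset_B1 hy, hxy⟩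

lemma odd_crd (hh : Odd h) {R : AddSubgroup (ZMod (4 * h))} (hR : ee h ∉ R) :
    Odd (crd (R : Set (ZMod (4 * h)))) := by
  rw [crd_eq_natCard]
  by_contra hc
  rw [Nat.not_odd_iff_even] at hc
  have h2 : 2 ∣ Nat.card R := hc.two_dvd
  haveI : Fact (Nat.Prime 2) := ⟨Nat.prime_two⟩
  obtain ⟨x, hx⟩ := exists_prime_addOrderOf_dvd_card' (G := R) 2 h2
  have h3 : (2 : ℕ) • x = 0 := by rw [← hx]; exact addOrderOf_nsmul_eq_zero x
  have h4 : (x : ZMod (4 * h)) + x = 0 := by
    have := congrArg (Subtype.val) h3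
    rw [two_nsmul] at this
    simpa using this
  rcases double_zero hh h4 with h5 | h5
  · have : x = 0 := Subtype.ext h5
    rw [this, addOrderOf_zero] at hx
    omega
  · apply hR; rw [← h5]; exact x.2

lemma four_crd (C : Ctx h S Sg) (he : ee h ∉ BB S) :
    4 * crd (BB S : Set (ZMod (4 * h))) ≤ crd (CE S : Set (ZMod (4 * h))) := by
  have hH := H_mem_CE C he
  have heC : ee h ∈ CE S := f_mem_B1
  have hBC : BB S ≤ CE S := B_le_B1
  have hHB : Hh h ∉ BB S := fun hc => H_not_E C.odd (BB_le hc)
  have hHeB : Hh h + ee h ∉ BB S := fun hc => H_e_not_E C.odd (BB_le hc)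
  have hcard : ∀ z, (Finset.univ.filter (fun y => y - z ∈ BB S)).card
      = crd (BB S : Set (ZMod (4 * h))) := card_coset' (BB S)
  have hdisj : ∀ z w, w - z ∉ BB S → Disjoint (Finset.univ.filter (fun y => y - z ∈ BB S))
      (Finset.univ.filter (fun y => y - w ∈ BB S)) := by
    intro z w hzw
    rw [Finset.disjoint_left]
    intro x hx hx'
    simp only [Finset.mem_filter, Finset.mem_univ, true_and] at hx hx'
    apply hzw
    have : w - z = (x - z) - (x - w) := by abel
    rw [this]; exact (BB S).sub_mem hx hx'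
  have hsub : ∀ z, z ∈ CE S → Finset.univ.filter (fun y => y - z ∈ BB S)
      ⊆ Finset.univ.filter (fun y => y ∈ (CE S : Set (ZMod (4 * h)))) := by
    intro z hz x hx
    simp only [Finset.mem_filter, Finset.mem_univ, true_and] at hx ⊢
    have : x = (x - z) + z := by abel
    rw [this]; exact (CE S).add_mem (hBC hx) hz
  have d1 := hdisj 0 (ee h) (by rw [sub_zero]; exact he)
  have d2 := hdisj (Hh h) (Hh h + ee h) (by
    have : Hh h + ee h - Hh h = ee h := by abel
    rw [this]; exact he)
  have d3 := hdisj 0 (Hh h) (by rw [sub_zero]; exact hHB)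
  have d4 := hdisj 0 (Hh h + ee h) (by rw [sub_zero]; exact hHeB)
  have d5 := hdisj (ee h) (Hh h) (by
    intro hc; apply hHeB
    have : Hh h + ee h = (Hh h - ee h) + (ee h + ee h) := by abel
    rw [this, ee_add, add_zero]; exact hc)
  have d6 := hdisj (ee h) (Hh h + ee h) (by
    have : Hh h + ee h - ee h = Hh h := by abel
    rw [this]; exact hHB)
  set A0 := Finset.univ.filter (fun y => y - 0 ∈ BB S)
  set A1 := Finset.univ.filter (fun y => y - ee h ∈ BB S)
  set A2 := Finset.univ.filter (fun y => y - Hh h ∈ BB S)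
  set A3 := Finset.univ.filter (fun y => y - (Hh h + ee h) ∈ BB S)
  have hdd : Disjoint (A0 ∪ A1) (A2 ∪ A3) := by
    rw [Finset.disjoint_union_left, Finset.disjoint_union_right, Finset.disjoint_union_right]
    exact ⟨⟨d3, d4⟩, ⟨d5, d6⟩⟩
  have hu : ((A0 ∪ A1) ∪ (A2 ∪ A3)).card = 4 * crd (BB S : Set (ZMod (4 * h))) := by
    rw [Finset.card_union_of_disjoint hdd, Finset.card_union_of_disjoint d1,
      Finset.card_union_of_disjoint d2, hcard, hcard, hcard, hcard]
    ring
  rw [← hu]
  unfold crd
  apply Finset.card_le_card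
  apply Finset.union_subset
  · exact Finset.union_subset (hsub 0 (CE S).zero_mem) (hsub _ heC)
  · exact Finset.union_subset (hsub _ hH) (hsub _ ((CE S).add_mem hH heC))

/-- The main structural conclusion: the vertex `(e, 1)` is fixed. -/
theorem e_fixed (C : Ctx h S Sg) {p : Equiv.Perm (ZMod (4 * h)) × Equiv.Perm (ZMod (4 * h))}
    (hp : p ∈ S.L) (hp0 : p.1 0 = 0) : p.2 (ee h) = ee h := by
  have he : ee h ∉ BB S := e_not_mem C
  have hyp := hyp_e C.odd he
  have hHC := H_mem_CE C he
  have hHB : Hh h ∉ BB S := fun hc => H_not_E C.odd (BB_le hc)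
  have hHeB : Hh h + ee h ∉ BB S := fun hc => H_e_not_E C.odd (BB_le hc)
  have T := TLe C he
  have heJ : ee h ∈ JJ S := f_mem_B1
  by_cases hf : ee h ∈ sat (orb S true 0) (BB S)
  · -- case (i)
    exfalso
    have h1 : JJ S ≤ rad Sg := by
      apply count_i T
      · intro X hX hXB
        exact case_i hyp hf hX hXB
      · intro X hX x hx
        by_cases hxe : x + ee h ∈ X
        · exact Or.inl hxe
        · exact Or.inr (double_cases_ne C.odd he (P2 C.odd hX hx hxe))
      · exact JJ_B C he
      · apply odd_crd C.odd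
        intro hc; exact he hc.2
      · exact four_crd C he
      · exact Sg_isSet C
    exact C.tw (fun x => (h1 heJ) x)
  · rcases case_ii_iii hyp hf with hW | hW
    · exact absurd (case_ii_e C hW).1 he
    · -- case (iii)
      have hWC : orb S true 0 ⊆ (CE S : Set (ZMod (4 * h))) :=
        fun w hw => ((hW w).1 (subset_sat _ _ hw)).1
      have hC1 : IsSet S true (CE S : Set (ZMod (4 * h))) := isSet_true_of_W T.hC hWC
      have hZ : IsSet S true {z | z - ee h ∈ BB S} := by
        have h1 : IsSet S true ((CE S : Set (ZMod (4 * h))) \ sat (orb S true 0) (BB S)) :=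
          isSet_diff hC1 (isSet_sat (isSet_orb S true 0) BB_isSet)
        have h2 : ((CE S : Set (ZMod (4 * h))) \ sat (orb S true 0) (BB S))
            = {z | z - ee h ∈ BB S} := by
          ext z
          have e1 : z - ee h = (z + ee h) - (ee h + ee h) := by abel
          rw [ee_add, sub_zero] at e1
          constructor
          · rintro ⟨hz, hz'⟩
            show z - ee h ∈ BB S
            rw [e1]
            by_contra hc
            exact hz' ((hW z).2 ⟨hz, hc⟩)
          · intro hz
            have hz' : z + ee h ∈ BB S := by rw [← e1]; exact hz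
            refine ⟨?_, fun hc => ((hW z).1 hc).2 hz'⟩
            have : z = (z - ee h) + ee h := by abel
            rw [this]; exact (CE S).add_mem (B_le_B1 hz) f_mem_B1
        rwa [h2] at h1
      have hsubadd : ∀ z : ZMod (4 * h), z - ee h = z + ee h := by
        intro z
        have e1 : z - ee h = (z + ee h) - (ee h + ee h) := by abel
        rwa [ee_add, sub_zero] at e1
      -- X1 = Sg ∩ C \ (B + e)
      have hX1s : IsSet S true (Sg ∩ ((CE S : Set (ZMod (4 * h))) \ {z | z - ee h ∈ BB S})) :=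
        isSet_inter (Sg_isSet C) (isSet_diff hC1 hZ)
      have hX1C : ∀ x ∈ (Sg ∩ ((CE S : Set (ZMod (4 * h))) \ {z | z - ee h ∈ BB S})),
          x ∈ CE S ∧ x + ee h ∉ BB S := by
        intro x hx
        refine ⟨hx.2.1, ?_⟩
        intro hc; apply hx.2.2
        show x - ee h ∈ BB S
        rw [hsubadd]; exact hc
      have hX1K : Inv (⊥ : AddSubgroup (ZMod (4 * h)))
          (Sg ∩ ((CE S : Set (ZMod (4 * h))) \ {z | z - ee h ∈ BB S})) := by
        intro k hk x hx
        have : k = 0 := by simpa using hk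
        rw [this, add_zero]; exact hx
      have hX1P : ∀ x ∈ (Sg ∩ ((CE S : Set (ZMod (4 * h))) \ {z | z - ee h ∈ BB S})), x ∉ BB S →
          x + ee h ∈ (Sg ∩ ((CE S : Set (ZMod (4 * h))) \ {z | z - ee h ∈ BB S})) := by
        intro x hx hxB
        refine ⟨?_, ?_, ?_⟩
        · by_contra hc
          rcases double_cases_ne C.odd he (P2 C.odd (Sg_isSet C) hx.1 hc) with h2 | h2
          · exact hxB h2
          · exact (hX1C x hx).2 h2
        · exact (CE S).add_mem hx.2.1 f_mem_B1
        · intro hc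
          have hc' : x + ee h - ee h ∈ BB S := hc
          rw [add_sub_cancel_right] at hc'
          exact hxB hc'
      have hTL1 : ∀ x ∈ (Sg ∩ ((CE S : Set (ZMod (4 * h))) \ {z | z - ee h ∈ BB S})), ∀ j ∈ JJ S,
          x + j + ee h ∉ BB S →
          x + j ∈ (Sg ∩ ((CE S : Set (ZMod (4 * h))) \ {z | z - ee h ∈ BB S})) := by
        intro x hx j hj hxj
        exact TL1_b T (fun x h1 h2 => (hW x).2 ⟨h1, h2⟩) hX1s hX1K hX1C hX1P hx hj hxj
      -- X2
      have hX2s : IsSet S true (Sg \ (CE S : Set (ZMod (4 * h)))) := isSet_diff (Sg_isSet C) hC1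
      have hX2e : ee h ∈ rad (Sg \ (CE S : Set (ZMod (4 * h)))) := by
        apply mem_rad_of_fwd
        intro x hx
        by_contra hc
        have h1 := P2 C.odd hX2s hx hc
        exact hx.2 (mem_of_double C.odd hHC (B_le_B1 h1))
      have hX2 : JJ S ≤ rad (Sg \ (CE S : Set (ZMod (4 * h)))) := by
        have h2 : IsSet S false (rad (Sg \ (CE S : Set (ZMod (4 * h)))) :
            Set (ZMod (4 * h))) := isSet_rad hX2s
        unfold JJ B1
        rw [AddSubgroup.closure_le]
        rintro y (hy | hy)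
        · exact orb_subset h2 hX2e hy
        · have : y = 0 := by simpa using hy
          rw [this]; exact (rad _).zero_mem
      have hJC := JJ_le C he
      -- R = 0
      have hR : ∀ r ∈ JJ S, r ∈ BB S → r = 0 := by
        intro r hrJ hrB
        apply shift_zero C BB_le hrB he
        intro z hz
        have hfw : ∀ r ∈ JJ S, r ∈ BB S → ∀ z, z - ee h ∉ BB S → z ∈ Sg → z + r ∈ Sg := by
          intro r hrJ hrB z hz hzS
          by_cases hzC : z ∈ CE S
          · refine (hTL1 z ⟨hzS, hzC, hz⟩ r hrJ ?_).1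
            intro hc; apply hz
            rw [hsubadd]
            have : z + ee h = (z + r + ee h) - r := by abel
            rw [this]; exact (BB S).sub_mem hc hrB
          · exact ((hX2 hrJ z).2 ⟨hzS, hzC⟩).1
        constructor
        · intro h1
          have h2 := hfw (-r) ((JJ S).neg_mem hrJ) ((BB S).neg_mem hrB) (z + r) (by
            intro hc; apply hz
            have : z - ee h = (z + r - ee h) - r := by abel
            rw [this]; exact (BB S).sub_mem hc hrB) h1
          simpa using h2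
        · exact hfw r hrJ hrB z hz
      obtain ⟨κ, rep, k1, k2, k3, k4, k5⟩ := kexists C.odd (B_le_B1) hHC (JJ_B C he)
      have kadd : ∀ x, ∀ u ∈ JJ S, κ (x + u) = κ x + u := by
        intro x u hu
        have h1 := k5 (x + u)
        have h2 := k5 x
        have hrep : rep x = rep (x + u) := k3 _ _ (by
          have : x + u - x = u := by abel
          rw [this]; exact hJC hu)
        rw [← hrep] at h1
        have h3 : u - κ (x + u) + κ x ∈ BB S := by
          have : u - κ (x + u) + κ x = (x + u - rep x - κ (x + u)) - (x - rep x - κ x) := by abel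
          rw [this]; exact (BB S).sub_mem h1 h2
        have h4 : u - κ (x + u) + κ x ∈ JJ S :=
          (JJ S).add_mem ((JJ S).sub_mem hu (k1 _)) (k1 _)
        have h5 := hR _ h4 h3
        have : κ (x + u) = κ x + u - (u - κ (x + u) + κ x) := by abel
        rw [this, h5, sub_zero]
      have key := kmod C BB_le B_le_B1 hJC BB_isSet T.hC hC1 (ee h) (ee h) κ rep k1 k2 k3 k4 k5
        (by
          intro x y hxy
          have h1 : κ (x + ee h) = κ y := k2 _ _ (by
            have : y - (x + ee h) = y - x - ee h := by abel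
            rw [this]; exact hxy)
          rw [← h1, kadd x _ heJ])
        hZ
        (by
          intro z hz hzB j hj hzj hzS
          refine (hTL1 z ⟨hzS, hz, hzB⟩ j hj ?_).1
          rw [← hsubadd]; exact hzj)
        hX2 hp (ee h)
      have hpe : p.1 (ee h) ∈ JJ S := orb_subset_B1 ⟨p, hp, hp0, rfl⟩
      have e1 : κ (ee h) = κ 0 + ee h := by
        have := kadd 0 (ee h) heJ
        rwa [zero_add] at this
      have e2 : κ (p.1 (ee h)) = κ 0 + p.1 (ee h) := by
        have := kadd 0 (p.1 (ee h)) hpe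
        rwa [zero_add] at this
      have h3 : p.2 (ee h) - ee h ∈ BB S := by
        have := hZ p hp hp0 (ee h) (by show ee h - ee h ∈ BB S; rw [sub_self]; exact (BB S).zero_mem)
        exact this
      have e3 : κ (p.2 (ee h)) = κ (ee h) := (k2 _ _ h3).symm
      rw [e3, e2] at key
      have e4 : p.1 (ee h) + κ (ee h) - (κ 0 + p.1 (ee h)) = ee h := by rw [e1]; abel
      rw [e4] at key
      rw [add_sub_cancel_right] at key
      exact key.symm

/-- The final answer. -/
theorem final (C : Ctx h S Sg) :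
    ∃ γ : Equiv.Perm (ZMod (4 * h)), γ 0 = 0 ∧ γ (ee h) ≠ ee h ∧
      ∀ x y, (γ y - γ x + ee h ∈ Sg ∧ γ y ≠ γ x) ↔ (y - x + ee h ∈ Sg ∧ y ≠ x) := by
  have hs : IsSet S true {ee h} := by
    intro p hp hp0 x hx
    have : x = ee h := by simpa using hx
    rw [this]; simpa using e_fixed C hp hp0
  have hcomm : ∀ p ∈ S.L, ∀ x, p.2 (x + ee h) = p.1 x + ee h := by
    intro p hp x
    have h' : IsSet S (xor false true) {ee h} := hs
    have h1 := rel_fwd (x := x) (y := x + ee h) h' hp (by simp)
    have h2 : p.2 (x + ee h) - p.1 x = ee h := by simpa using h1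
    rw [add_comm (p.1 x)]
    exact sub_eq_iff_eq_add.1 h2
  obtain ⟨p, hp, hne⟩ := C.unst
  have : ∃ x, p.1 x ≠ p.2 x := by
    by_contra hcon
    push Not at hcon
    exact hne (Equiv.ext hcon)
  obtain ⟨x0, hx0⟩ := this
  have hne2 : p.1 (x0 + ee h) ≠ p.1 x0 + ee h := by
    intro hc
    apply hx0
    have h1 := hcomm p hp (x0 + ee h)
    rw [add_assoc, ee_add, add_zero, hc, add_assoc, ee_add, add_zero] at h1
    exact h1.symm
  set q : Equiv.Perm (ZMod (4 * h)) × Equiv.Perm (ZMod (4 * h)) := tt (-(p.1 x0)) * p * tt x0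
    with hq
  have hqL : q ∈ S.L := S.L.mul_mem (S.L.mul_mem (tt_mem _) hp) (tt_mem _)
  have hq1 : ∀ y, q.1 y = p.1 (y + x0) - p.1 x0 := by
    intro y
    simp [hq, tt, sub_eq_add_neg]
  refine ⟨q.1, ?_, ?_, ?_⟩
  · rw [hq1, zero_add, sub_self]
  · rw [hq1]
    intro hc
    apply hne2
    rw [add_comm x0, sub_eq_iff_eq_add.1 hc, add_comm]
  · intro x y
    have h1 := (C.mem q).1 hqL x (y + ee h)
    rw [hcomm q hqL] at h1
    have e1 : q.1 y + ee h - q.1 x = q.1 y - q.1 x + ee h := by abel
    have e2 : y + ee h - x = y - x + ee h := by abel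
    rw [e1, e2] at h1
    rw [h1]
    have h2 : q.1 y ≠ q.1 x ↔ y ≠ x := q.1.injective.ne_iff
    rw [h2]

end TII
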