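import Mathlib
import Pool.Agent.Lib.MP_2c9d40_co.Defs
import Pool.Agent.Lib.MP_2c9d40_co.Main4

namespace Pool.Agent.Lib.MP_2c9d40_co

section stab

variable {V : Type*} {Γ : SimpleGraph V}

/-- the natural automorphisms of the double cover -/
def natAut (Γ : SimpleGraph V) (g : Γ ≃g Γ) (i : ZMod 2) : doubleCover Γ ≃g doubleCover Γ where
  toFun p := (g p.1, p.2 + i)
  invFun p := (g.symm p.1, p.2 - i)
  left_inv p := by simp
  right_inv p := by simp
  map_rel_iff' := by
    intro p q
    show Γ.Adj (g p.1) (g q.1) ∧ p.2 + i ≠ q.2 + i ↔ Γ.Adj p.1 q.1 ∧ p.2 ≠ q.2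
    rw [g.map_adj_iff]
    simp

lemma natAut_apply (g : Γ ≃g Γ) (i : ZMod 2) (p : V × ZMod 2) :
    natAut Γ g i p = (g p.1, p.2 + i) := rfl

/-- the natural homomorphism -/
def natHom (Γ : SimpleGraph V) :
    ((Γ ≃g Γ) × Multiplicative (ZMod 2)) →* (doubleCover Γ ≃g doubleCover Γ) where
  toFun x := natAut Γ x.1 (Multiplicative.toAdd x.2)
  map_one' := by
    ext p
    · show (natAut Γ 1 0 p).1 = p.1
      rw [natAut_apply]; rfl
    · show (natAut Γ 1 0 p).2 = p.2
      rw [natAut_apply]; simp
  map_mul' := by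
    intro x y
    ext p
    · rfl
    · show (natAut Γ (x.1 * y.1) (Multiplicative.toAdd x.2 + Multiplicative.toAdd y.2) p).2
        = (natAut Γ x.1 (Multiplicative.toAdd x.2)
            (natAut Γ y.1 (Multiplicative.toAdd y.2) p)).2
      rw [natAut_apply, natAut_apply, natAut_apply]
      show p.2 + _ = p.2 + _ + _
      ring

lemma exists_TF [Finite V] (hc : Γ.Connected) (hb : ¬ Γ.IsBipartite) (hu : ¬ Stable Γ) :
    ∃ α β : Equiv.Perm V, IsTF Γ α β ∧ α ≠ β := by
  by_contra hcon
  push Not at hcon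
  apply hu
  obtain ⟨v0⟩ := hc.nonempty
  have two : ∀ a b : ZMod 2, a ≠ b → a = b + 1 := by decide
  refine ⟨(MulEquiv.ofBijective (natHom Γ) ⟨?_, ?_⟩).symm⟩
  · rw [injective_iff_map_eq_one]
    rintro ⟨g, i⟩ hgi
    have h1 : ∀ p : V × ZMod 2, natAut Γ g (Multiplicative.toAdd i) p = p := by
      intro p
      have := congrArg (fun (f : doubleCover Γ ≃g doubleCover Γ) => f p) hgi
      exact this
    have h2 : g = 1 := by
      ext v
      have := congrArg Prod.fst (h1 (v, 0))
      rw [natAut_apply] at this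
      exact this
    have h3 : Multiplicative.toAdd i = 0 := by
      have := congrArg Prod.snd (h1 (v0, 0))
      rw [natAut_apply] at this
      simpa using this
    have h4 : i = 1 := by
      apply Multiplicative.toAdd.injective
      rw [h3]; rfl
    rw [h2, h4]; rfl
  · intro φ
    -- sides
    have hadj : ∀ p q : V × ZMod 2, (doubleCover Γ).Adj (φ p) (φ q) ↔ (doubleCover Γ).Adj p q :=
      fun p q => φ.map_adj_iff
    have h01 : ∀ a b, Γ.Adj a b → (φ (a, 0)).2 = (φ (b, 1)).2 + 1 := by
      intro a b hab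
      have h1 : (doubleCover Γ).Adj (a, 0) (b, 1) := ⟨hab, (by decide : (0 : ZMod 2) ≠ 1)⟩
      exact two _ _ ((hadj _ _).2 h1).2
    set d : V → ZMod 2 := fun v => (φ (v, 0)).2 + (φ (v, 1)).2 with hd
    have hdadj : ∀ a b, Γ.Adj a b → d a = d b := by
      intro a b hab
      have h1 := h01 a b hab
      have h2 := h01 b a hab.symm
      simp only [hd]
      rw [h1, h2]; ring
    have hconst : ∀ {f : V → ZMod 2}, (∀ a b, Γ.Adj a b → f a = f b) → ∀ v, f v = f v0 := by
      intro f hf v
      have hr : Γ.Reachable v v0 := hc.preconnected v v0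
      obtain ⟨w⟩ := hr
      induction w with
      | nil => rfl
      | cons h _ ih => rw [hf _ _ h, ih]
    have hd0 : ∀ v, d v = d v0 := hconst hdadj
    have hd1 : d v0 ≠ 0 := by
      intro hz
      apply hb
      have hcol : ∀ a b, Γ.Adj a b → (φ (a, 0)).2 ≠ (φ (b, 0)).2 := by
        intro a b hab hc'
        have h1 := h01 a b hab
        have h2 := hd0 b
        rw [hz] at h2
        simp only [hd] at h2
        rw [← hc', h1] at h2
        have : ∀ y : ZMod 2, y + 1 + y ≠ 0 := by decide
        exact this _ h2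
      have hC : Γ.Coloring (ZMod 2) :=
        SimpleGraph.Coloring.mk (fun v => (φ (v, 0)).2) (fun {a b} hab => hcol a b hab)
      have := hC.colorable
      simpa [SimpleGraph.IsBipartite, ZMod.card] using this
    have hd1' : ∀ v, (φ (v, 1)).2 = (φ (v, 0)).2 + 1 := by
      intro v
      have h1 := hd0 v
      have h2 : ∀ x y z : ZMod 2, z ≠ 0 → x + y = z → y = x + 1 := by decide
      exact h2 _ _ _ hd1 h1
    have hs : ∀ v, (φ (v, 0)).2 = (φ (v0, 0)).2 := by
      apply hconst (f := fun v => (φ (v, 0)).2)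
      intro a b hab
      show (φ (a, 0)).2 = (φ (b, 0)).2
      rw [h01 a b hab, hd1' b]
      have : ∀ y : ZMod 2, y + 1 + 1 = y := by decide
      exact this _
    set s := (φ (v0, 0)).2 with hsdef
    have hφ0 : ∀ v, φ (v, 0) = ((φ (v, 0)).1, s) := fun v => Prod.ext rfl (hs v)
    have hφ1 : ∀ v, φ (v, 1) = ((φ (v, 1)).1, s + 1) := by
      intro v
      refine Prod.ext rfl ?_
      show (φ (v, 1)).2 = s + 1
      rw [hd1', hs]
    have inj0 : Function.Injective (fun v => (φ (v, 0)).1) := by
      intro v w hvw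
      have h1 : φ (v, 0) = φ (w, 0) := by
        rw [hφ0 v, hφ0 w]
        have hvw' : (φ (v, 0)).1 = (φ (w, 0)).1 := hvw
        rw [hvw']
      have h2 := φ.injective h1
      exact congrArg Prod.fst h2
    have inj1 : Function.Injective (fun v => (φ (v, 1)).1) := by
      intro v w hvw
      have h1 : φ (v, 1) = φ (w, 1) := by
        rw [hφ1 v, hφ1 w]
        have hvw' : (φ (v, 1)).1 = (φ (w, 1)).1 := hvw
        rw [hvw']
      have h2 := φ.injective h1
      exact congrArg Prod.fst h2
    let α : Equiv.Perm V := Equiv.ofBijective _ (Finite.injective_iff_bijective.1 inj0)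
    let β : Equiv.Perm V := Equiv.ofBijective _ (Finite.injective_iff_bijective.1 inj1)
    have hα : ∀ v, α v = (φ (v, 0)).1 := fun v => rfl
    have hβ : ∀ v, β v = (φ (v, 1)).1 := fun v => rfl
    have hTF : IsTF Γ α β := by
      intro x y
      have h1 := hadj (x, 0) (y, 1)
      rw [hφ0 x, hφ1 y] at h1
      have h2 : (doubleCover Γ).Adj ((φ (x, 0)).1, s) ((φ (y, 1)).1, s + 1)
          ↔ Γ.Adj (α x) (β y) := by
        show (Γ.Adj _ _ ∧ s ≠ s + 1) ↔ _
        have : ∀ s : ZMod 2, s ≠ s + 1 := by decide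
        simp only [this s, and_true, ne_eq, not_false_eq_true]
        rfl
      have h3 : (doubleCover Γ).Adj (x, 0) (y, 1) ↔ Γ.Adj x y := by
        show (Γ.Adj x y ∧ (0 : ZMod 2) ≠ 1) ↔ _
        have : (0 : ZMod 2) ≠ 1 := by decide
        simp [this]
      rw [← h3, ← h1, h2]
    have heq : α = β := hcon α β hTF
    let g : Γ ≃g Γ :=
      { toEquiv := α
        map_rel_iff' := by
          intro x y
          have := hTF x y
          rw [← heq] at this
          exact this.symm }
    refine ⟨(g, Multiplicative.ofAdd s), ?_⟩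
    have hall : ∀ p : V × ZMod 2, natAut Γ g s p = φ p := by
      rintro ⟨v, i⟩
      rw [natAut_apply]
      have hi : i = 0 ∨ i = 1 := by revert i; decide
      rcases hi with rfl | rfl
      · show (α v, 0 + s) = φ (v, 0)
        rw [hφ0 v, zero_add, hα]
      · show (α v, 1 + s) = φ (v, 1)
        rw [hφ1 v, heq, hβ, add_comm]
    ext p
    · exact congrArg Prod.fst (hall p)
    · exact congrArg Prod.snd (hall p)

end stab

open TII

/-- the system of two-fold automorphisms of a circulant -/
def tfSys {n : ℕ} (S : ConnSet n) : Sys (ZMod n) where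
  L :=
    { carrier := {p | ∀ x y, p.2 y - p.1 x ∈ S.carrier ↔ y - x ∈ S.carrier}
      mul_mem' := by
        intro a b ha hb x y
        show a.2 (b.2 y) - a.1 (b.1 x) ∈ S.carrier ↔ _
        rw [ha, hb]
      one_mem' := by intro x y; rfl
      inv_mem' := by
        intro a ha x y
        have := ha (a.1⁻¹ x) (a.2⁻¹ y)
        rw [perm_apply_inv, perm_apply_inv] at this
        exact this.symm }
  swap := by
    intro p hp x y
    show p.1 y - p.2 x ∈ S.carrier ↔ y - x ∈ S.carrier
    have hneg : ∀ z, z ∈ S.carrier ↔ -z ∈ S.carrier := fun z =>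
      ⟨S.neg_mem z, fun hz => by have := S.neg_mem _ hz; rwa [neg_neg] at this⟩
    rw [hneg (p.1 y - p.2 x), hneg (y - x), neg_sub, neg_sub]
    exact hp y x
  trans := by
    intro g x y
    show y + g - (x + g) ∈ S.carrier ↔ _
    rw [add_sub_add_right_eq_sub]

lemma mem_evens_iff {h : ℕ} [NeZero (4 * h)] (x : ZMod (4 * h)) :
    x ∈ evens (4 * h) ↔ x ∈ EE h := by
  unfold evens
  rw [AddSubgroup.mem_zmultiples_iff, mem_EE]
  constructor
  · rintro ⟨k, rfl⟩
    rw [map_zsmul]
    have : par h (2 : ZMod (4 * h)) = 0 := by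
      have h2 : (2 : ZMod (4 * h)) = ((2 : ℕ) : ZMod (4 * h)) := by norm_num
      rw [h2, map_natCast]; decide
    rw [this, smul_zero]
  · intro hx
    have h1 : par h x = ((x.val : ℕ) : ZMod 2) := by
      have : x = ((x.val : ℕ) : ZMod (4 * h)) := (ZMod.natCast_zmod_val x).symm
      nth_rewrite 1 [this]
      rw [map_natCast]
    rw [h1, ZMod.natCast_eq_zero_iff_even] at hx
    obtain ⟨k, hk⟩ := hx
    refine ⟨k, ?_⟩
    have : x = ((x.val : ℕ) : ZMod (4 * h)) := (ZMod.natCast_zmod_val x).symm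
    rw [this, hk]
    simp only [zsmul_eq_mul, Int.cast_natCast]
    push_cast; ring

lemma ctx_of {h : ℕ} [NeZero (4 * h)] (hodd : Odd h) (S : ConnSet (4 * h))
    (hS : NontriviallyUnstable (Cay S)) (hII : TypeII S) : Ctx h (tfSys S) S.carrier where
  odd := hodd
  mem := fun p => Iff.rfl
  t2 := by
    intro p hp h1 h2
    by_contra hne
    have hTF : IsTF (Cay S) p.1 p.2 := fun x y => (hp x y).symm
    have himg : ∀ σ : Equiv.Perm (ZMod (4 * h)), (∀ x, σ x ∈ EE h ↔ x ∈ EE h) →
        σ '' (evens (4 * h) : Set (ZMod (4 * h))) = (evens (4 * h) : Set (ZMod (4 * h))) := by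
      intro σ hσ
      ext y
      constructor
      · rintro ⟨x, hx, rfl⟩
        have hx' : x ∈ evens (4 * h) := hx
        show σ x ∈ evens (4 * h)
        rw [mem_evens_iff] at hx' ⊢
        exact (hσ x).2 hx'
      · intro hy
        have hy' : y ∈ evens (4 * h) := hy
        refine ⟨σ.symm y, ?_, by simp⟩
        show σ.symm y ∈ evens (4 * h)
        rw [mem_evens_iff] at hy' ⊢
        rw [← hσ]; simpa using hy'
    rcases hII p.1 p.2 hTF hne with h3 | h3
    · exact h3 (himg _ h1)
    · exact h3 (himg _ h2)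
  unst := by
    obtain ⟨α, β, hTF, hne⟩ := exists_TF hS.2.1 hS.2.2.1 hS.1
    exact ⟨(α, β), fun x y => (hTF x y).symm, hne⟩
  tw := by
    intro hcon
    have h0 : (0 : ZMod (4 * h)) = ee h := by
      apply hS.2.2.2
      ext y
      show y - 0 ∈ S.carrier ↔ y - ee h ∈ S.carrier
      rw [sub_zero, ← hcon (y - ee h), sub_add_cancel]
    exact ee_ne hodd h0.symm

end Pool.Agent.Lib.MP_2c9d40_co
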